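import Pool.Agent.Lib.MP_7ee132_co.Keep2

set_option autoImplicit false
set_option linter.unusedSimpArgs false
set_option linter.unusedVariables false

namespace Pool.Agent.Lib.MP_7ee132_co

open T

/-! ### Enumeration -/

/-- Pairs of total size `n` from lists of trees. -/
def mkP (S : ℕ → List T) (n : ℕ) : List P :=
  (List.range (n + 1)).flatMap fun a => (S a).flatMap fun s => (S (n - a)).map fun w => (s, w)

/-- Trees of size `n + 1` from lists of pairs. -/
def mkS (Q : ℕ → List P) (n : ℕ) : List T :=
  (List.range (n + 1)).flatMap fun i => (Q i).flatMap fun p => (Q (n - i)).map fun q => nd p q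

/-- Lists of all trees of a given size. -/
def Sx : ℕ → ℕ → List T
  | 0 => fun _ => [leaf]
  | k + 1 => fun m => if m ≤ k then Sx k m else mkS (mkP (Sx k)) k

theorem mem_mkP {S : ℕ → List T} {n : ℕ} (hS : ∀ m ≤ n, ∀ s, s ∈ S m ↔ s.size = m) (p : P) :
    p ∈ mkP S n ↔ psz p = n := by
  obtain ⟨s, w⟩ := p
  simp only [mkP, List.mem_flatMap, List.mem_range, List.mem_map, Prod.mk.injEq]
  constructor
  · rintro ⟨a, ha, s', hs', w', hw', rfl, rfl⟩
    rw [hS a (by omega)] at hs'
    rw [hS (n - a) (by omega)] at hw'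
    show s'.size + w'.size = n
    omega
  · intro hp
    have hp' : s.size + w.size = n := hp
    exact ⟨s.size, by omega, s, (hS _ (by omega) _).2 rfl, w, (hS _ (by omega) _).2 (by omega),
      rfl, rfl⟩

theorem mem_mkS {Q : ℕ → List P} {n : ℕ} (hQ : ∀ m ≤ n, ∀ p, p ∈ Q m ↔ psz p = m) (s : T) :
    s ∈ mkS Q n ↔ s.size = n + 1 := by
  simp only [mkS, List.mem_flatMap, List.mem_range, List.mem_map]
  constructor
  · rintro ⟨i, hi, p, hp, q, hq, rfl⟩
    rw [hQ i (by omega)] at hp
    rw [hQ (n - i) (by omega)] at hq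
    rw [size_nd]; omega
  · intro hs
    cases s with
    | leaf => simp at hs
    | node a b c' d =>
      simp only [size_node] at hs
      refine ⟨a.size + b.size, by omega, (a, b), (hQ _ (by omega) _).2 rfl, (c', d),
        (hQ _ (by omega) _).2 ?_, rfl⟩
      show c'.size + d.size = _
      omega

theorem mem_Sx : ∀ k, ∀ m ≤ k, ∀ s, s ∈ Sx k m ↔ s.size = m := by
  intro k
  induction k with
  | zero =>
    intro m hm s
    have : m = 0 := by omega
    subst this
    simp only [Sx, List.mem_singleton]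
    exact ⟨fun h => by rw [h]; rfl, size_eq_zero⟩
  | succ k ih =>
    intro m hm s
    simp only [Sx]
    split_ifs with hmk
    · exact ih m hmk s
    · have : m = k + 1 := by omega
      subst this
      exact mem_mkS (fun m hm p => mem_mkP (fun m' hm' => ih m' (by omega)) p) s

theorem mem_all (n : ℕ) (p : P) : p ∈ mkP (Sx n) n ↔ p ∈ E n :=
  mem_mkP (mem_Sx n) p

/-! ### Boolean checks -/

/-- Check of a root move. -/
def rootb (s w s' w' : T) : Bool :=
  match s, w' with
  | node a b c d, node b' c' d' e' =>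
    decide (s' = a) && decide (b' = b) && decide (c' = c) && decide (d' = d) && decide (e' = w)
  | _, _ => false

/-- Check of a move inside a tree. -/
def insb (g : T → T → T → T → Bool) (s s' : T) : Bool :=
  match s, s' with
  | node a b c d, node a' b' c' d' =>
    (decide (c = c') && decide (d = d') && g a b a' b') ||
      (decide (a = a') && decide (b = b') && g c d c' d')
  | _, _ => false

/-- Check of an elementary move. -/
def stepb : ℕ → T → T → T → T → Bool
  | 0, _, _, _, _ => false
  | f + 1, s, w, s', w' =>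
    rootb s w s' w' || (decide (w = w') && insb (stepb f) s s') ||
      (decide (s = s') && insb (stepb f) w w')

theorem stepb_sound : ∀ (f : ℕ) (s w s' w' : T), stepb f s w s' w' = true → Step (s, w) (s', w') := by
  intro f
  induction f with
  | zero => intro s w s' w' h; simp [stepb] at h
  | succ f ih =>
    intro s w s' w' h
    simp only [stepb, Bool.or_eq_true, Bool.and_eq_true, decide_eq_true_eq] at h
    rcases h with (h | ⟨rfl, h⟩) | ⟨rfl, h⟩
    · cases s with
      | leaf => simp [rootb] at h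
      | node a b c d =>
        cases w' with
        | leaf => simp [rootb] at h
        | node b' c' d' e' =>
          simp only [rootb, Bool.and_eq_true, decide_eq_true_eq] at h
          obtain ⟨⟨⟨⟨rfl, rfl⟩, rfl⟩, rfl⟩, rfl⟩ := h
          exact Step.root _ _ _ _ _
    · cases s with
      | leaf => simp [insb] at h
      | node a b c d =>
        cases s' with
        | leaf => simp [insb] at h
        | node a' b' c' d' =>
          simp only [insb, Bool.or_eq_true, Bool.and_eq_true, decide_eq_true_eq] at h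
          rcases h with ⟨⟨rfl, rfl⟩, h⟩ | ⟨⟨rfl, rfl⟩, h⟩
          · exact Step.l1 _ _ _ (ih _ _ _ _ h)
          · exact Step.l2 _ _ _ (ih _ _ _ _ h)
    · cases w with
      | leaf => simp [insb] at h
      | node a b c d =>
        cases w' with
        | leaf => simp [insb] at h
        | node a' b' c' d' =>
          simp only [insb, Bool.or_eq_true, Bool.and_eq_true, decide_eq_true_eq] at h
          rcases h with ⟨⟨rfl, rfl⟩, h⟩ | ⟨⟨rfl, rfl⟩, h⟩
          · exact Step.r1 _ _ _ (ih _ _ _ _ h)
          · exact Step.r2 _ _ _ (ih _ _ _ _ h)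

/-- Check of a relation. -/
def Rb (p q : P) : Bool := stepb 6 p.1 p.2 q.1 q.2 || stepb 6 q.1 q.2 p.1 p.2

theorem Rb_sound {p q : P} (h : Rb p q = true) : R p q := by
  simp only [Rb, Bool.or_eq_true] at h
  rcases h with h | h
  · exact Or.inl (stepb_sound _ _ _ _ _ h)
  · exact Or.inr (stepb_sound _ _ _ _ _ h)

/-- Check of a chain. -/
def chb : List P → Bool
  | a :: b :: l => Rb a b && chb (b :: l)
  | _ => true

theorem chb_sound : ∀ l : List P, chb l = true → l.IsChain R
  | [], _ => by simp
  | [a], _ => by simp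
  | a :: b :: l, h => by
    simp only [chb, Bool.and_eq_true] at h
    rw [List.isChain_cons_cons]
    exact ⟨Rb_sound h.1, chb_sound (b :: l) h.2⟩

/-- Check that two entries are consecutive. -/
def memb (u v : P) : List P → Bool
  | a :: b :: l => (decide (a = u) && decide (b = v)) || (decide (a = v) && decide (b = u)) ||
      memb u v (b :: l)
  | _ => false

theorem memb_sound (u v : P) : ∀ l : List P, memb u v l = true → s(u, v) ∈ pedges l
  | [], h => by simp [memb] at h
  | [a], h => by simp [memb] at h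
  | a :: b :: l, h => by
    simp only [memb, Bool.or_eq_true, Bool.and_eq_true, decide_eq_true_eq] at h
    simp only [pedges, List.mem_cons]
    rcases h with (⟨rfl, rfl⟩ | ⟨rfl, rfl⟩) | h
    · exact Or.inl rfl
    · exact Or.inl Sym2.eq_swap
    · exact Or.inr (memb_sound u v (b :: l) h)

/-- Decoding of trees. -/
def dT : ℕ → ℕ → T × ℕ
  | 0, b => (leaf, b)
  | f + 1, b =>
    if b % 2 = 0 then (leaf, b / 2)
    else
      let r1 := dT f (b / 2)
      let r2 := dT f r1.2
      let r3 := dT f r2.2
      let r4 := dT f r3.2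
      (node r1.1 r2.1 r3.1 r4.1, r4.2)

/-- Decoding of pairs. -/
def dP (b : ℕ) : P :=
  let r1 := dT 5 b
  let r2 := dT 5 r1.2
  (r1.1, r2.1)

/-- Encoding of trees. -/
def eT : T → ℕ → ℕ
  | leaf, acc => 2 * acc
  | node a b c d, acc => 2 * eT a (eT b (eT c (eT d acc))) + 1

/-- Encoding of pairs. -/
def eP (p : P) : ℕ := eT p.1 (eT p.2 0)

/-- A criterion for explicit cyclic arrangements. -/
theorem HC_of_list {n : ℕ} {K' : Set (Sym2 P)} (cs : List ℕ) (a b : P) (hcs : cs.Nodup)
    (henc : (cs.map dP).map eP = cs) (hch : chb (cs.map dP) = true)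
    (hhead : (cs.map dP).head? = some a) (hlast : (cs.map dP).getLast? = some b)
    (hba : Rb b a = true) (hsz : (cs.map dP).all (fun p => decide (psz p = n)) = true)
    (hlen : cs.length = (mkP (Sx n) n).length)
    (hK : ∀ e ∈ K', ∃ u v, e = s(u, v) ∧ (memb u v (b :: cs.map dP) = true)) : HC R (E n) K' := by
  have hnd : (cs.map dP).Nodup := by
    apply List.Nodup.of_map eP
    rw [henc]; exact hcs
  have hall : ∀ p ∈ cs.map dP, psz p = n := by
    intro p hp
    have := List.all_eq_true.1 hsz p hp
    simpa using this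
  refine ⟨cs.map dP, a, b, ⟨hnd, chb_sound _ hch, hhead, hlast⟩, Rb_sound hba, ?_, ?_⟩
  · intro p
    constructor
    · exact hall p
    · intro hp
      have hsub : (cs.map dP) ⊆ mkP (Sx n) n := fun q hq => (mem_all n q).2 (hall q hq)
      have hperm : (cs.map dP).Perm (mkP (Sx n) n) :=
        (List.subperm_of_subset hnd hsub).perm_of_length_le (by rw [List.length_map, hlen])
      exact hperm.mem_iff.2 ((mem_all n p).2 hp)
  · intro e he
    obtain ⟨u, v, rfl, h⟩ := hK e he
    have h1 := memb_sound u v _ h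
    obtain ⟨l', hl'⟩ : ∃ l', cs.map dP = a :: l' := by
      cases hl : cs.map dP with
      | nil => rw [hl] at hhead; simp at hhead
      | cons q l' => rw [hl] at hhead; simp at hhead; exact ⟨l', by rw [hhead]⟩
    rw [hl'] at h1 ⊢
    simp only [pedges, List.mem_cons] at h1
    exact h1

/-- Codes of the pairs with two nodes. -/
def cs2 : List ℕ :=
  [33, 34, 18, 17, 9, 10, 6, 5, 3]

/-- Codes of the pairs with three nodes. -/
def cs3 : List ℕ :=
  [546, 290, 274, 146, 162, 98, 82, 50, 530, 529, 521, 522, 518, 517, 515, 7, 11, 13, 14, 22,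
    21, 19, 35, 37, 69, 67, 97, 161, 131, 133, 134, 138, 74, 70, 38, 42, 26, 25, 41, 49, 81, 73,
    137, 145, 273, 265, 266, 262, 261, 259, 289, 545]

/-- Codes of the pairs with four nodes. -/
def cs4 : List ℕ :=
  [523, 525, 526, 646, 645, 643, 673, 609, 1121, 1185, 1186, 2210, 2209, 2179, 2181, 1157, 1155,
    1283, 1313, 1569, 2593, 2563, 1539, 1541, 2565, 2059, 2055, 4103, 4163, 4193, 4257, 4258,
    4194, 8290, 8354, 8338, 8337, 8465, 8466, 8482, 802, 1314, 1570, 2594, 2338, 2322, 2321,
    2313, 2073, 2074, 1050, 1066, 2090, 2089, 2097, 2129, 2121, 201, 209, 210, 178, 177, 113,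
    1073, 1065, 1049, 1289, 1297, 1169, 1161, 1162, 1098, 1097, 1105, 593, 561, 305, 297, 553,
    537, 538, 554, 298, 294, 550, 582, 581, 579, 519, 263, 323, 353, 354, 226, 2146, 2130, 4178,
    4177, 4145, 4137, 89, 90, 58, 57, 4121, 4122, 4118, 4110, 8206, 8214, 8213, 8205, 27, 29,
    45, 43, 39, 8211, 8227, 71, 1059, 1061, 1062, 1094, 1093, 1091, 1031, 15, 135, 139, 8261,
    8262, 8230, 8229, 75, 77, 141, 149, 147, 163, 165, 197, 195, 225, 2145, 2115, 2117, 2085,
    2086, 2118, 2122, 202, 198, 166, 170, 154, 282, 281, 153, 169, 105, 106, 102, 101, 99, 8241,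
    8233, 83, 85, 53, 51, 531, 533, 534, 1046, 1045, 1043, 1545, 1553, 1554, 1074, 114, 8242,
    8274, 8273, 8265, 8329, 275, 291, 547, 549, 293, 325, 326, 330, 329, 337, 338, 306, 562,
    594, 1106, 1122, 610, 674, 418, 417, 387, 389, 390, 270, 30, 46, 54, 86, 78, 142, 150, 278,
    277, 269, 267, 8325, 8326, 8330, 8266, 4170, 4169, 4233, 4234, 4230, 4229, 4227, 4355, 2307,
    2337, 4385, 4641, 4611, 4613, 4107, 4109, 2061, 2062, 2070, 2069, 4117, 4115, 4131, 4133,
    4165, 4166, 4134, 4138, 8234, 8218, 8217, 8457, 8458, 8454, 774, 1286, 1285, 773, 771, 801,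
    8481, 8737, 8707, 8709, 8710, 8714, 4618, 4614, 4358, 4357, 2309, 2310, 2566, 1542, 1546,
    1290, 778, 777, 785, 657, 649, 585, 586, 650, 394, 393, 401, 4241, 4369, 4361, 4362, 2314,
    2570, 2569, 2067, 2083, 2577, 2578, 2098, 4146, 4626, 4625, 4617, 8713, 8721, 8722, 8738,
    4642, 4386, 4370, 4242, 402, 658, 786, 1298, 1170, 2194, 2193, 2185, 2186, 2182, 1158, 1038,
    1037, 1035, 23, 8203, 8199, 8259, 8289, 8353, 8323, 8451, 8453]

theorem base2 : HC R (E 2) (K 2) := by
  refine HC_of_list cs2 (dP 33) (dP 3) (by decide +kernel) (by decide +kernel)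
    (by decide +kernel) (by decide +kernel) (by decide +kernel) (by decide +kernel)
    (by decide +kernel) (by decide +kernel) ?_
  rintro e (rfl | rfl | rfl | rfl | ⟨p, rfl⟩ | ⟨i, j, w, h1, h2, rfl⟩ | ⟨k, l, h1, h2, rfl⟩ |
    ⟨k, l, h1, h2, rfl⟩ | ⟨h1, rfl⟩)
  · exact ⟨_, _, rfl, by decide +kernel⟩
  · exact ⟨_, _, rfl, by decide +kernel⟩
  · exact ⟨_, _, rfl, by decide +kernel⟩
  · exact ⟨_, _, rfl, by decide +kernel⟩
  · cases p <;> exact ⟨_, _, rfl, by decide +kernel⟩
  · omega
  · omega
  · omega
  · exact ⟨_, _, rfl, by decide +kernel⟩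

theorem base3 : HC R (E 3) (K 3) := by
  refine HC_of_list cs3 (dP (cs3.head (by decide))) (dP (cs3.getLast (by decide)))
    (by decide +kernel) (by decide +kernel)
    (by decide +kernel) (by decide +kernel) (by decide +kernel) (by decide +kernel)
    (by decide +kernel) (by decide +kernel) ?_
  rintro e (rfl | rfl | rfl | rfl | ⟨p, rfl⟩ | ⟨i, j, w, h1, h2, rfl⟩ | ⟨k, l, h1, h2, rfl⟩ |
    ⟨k, l, h1, h2, rfl⟩ | ⟨h1, rfl⟩)
  · exact ⟨_, _, rfl, by decide +kernel⟩
  · exact ⟨_, _, rfl, by decide +kernel⟩
  · exact ⟨_, _, rfl, by decide +kernel⟩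
  · exact ⟨_, _, rfl, by decide +kernel⟩
  · cases p <;> exact ⟨_, _, rfl, by decide +kernel⟩
  · have hw := size_eq_zero (s := w) (by omega)
    subst hw
    simp only [size_leaf] at h2
    obtain rfl : j = 2 - i := by omega
    have hi : i ≤ 2 := by omega
    interval_cases i <;> exact ⟨_, _, rfl, by decide +kernel⟩
  · obtain rfl : l = 2 - k := by omega
    have hi : k ≤ 2 := by omega
    interval_cases k <;> exact ⟨_, _, rfl, by decide +kernel⟩
  · omega
  · omega

theorem base4 : HC R (E 4) (K 4) := by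
  refine HC_of_list cs4 (dP (cs4.head (by decide))) (dP (cs4.getLast (by decide)))
    (by decide +kernel) (by decide +kernel)
    (by decide +kernel) (by decide +kernel) (by decide +kernel) (by decide +kernel)
    (by decide +kernel) (by decide +kernel) ?_
  rintro e (rfl | rfl | rfl | rfl | ⟨p, rfl⟩ | ⟨i, j, w, h1, h2, rfl⟩ | ⟨k, l, h1, h2, rfl⟩ |
    ⟨k, l, h1, h2, rfl⟩ | ⟨h1, rfl⟩)
  · exact ⟨_, _, rfl, by decide +kernel⟩
  · exact ⟨_, _, rfl, by decide +kernel⟩
  · exact ⟨_, _, rfl, by decide +kernel⟩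
  · exact ⟨_, _, rfl, by decide +kernel⟩
  · cases p <;> exact ⟨_, _, rfl, by decide +kernel⟩
  · rcases (by omega : w.size = 0 ∨ w.size = 1) with hw | hw
    · have hw' := size_eq_zero hw
      subst hw'
      simp only [size_leaf] at h2
      obtain rfl : j = 3 - i := by omega
      have hi : i ≤ 3 := by omega
      interval_cases i <;> exact ⟨_, _, rfl, by decide +kernel⟩
    · have hw' := size_eq_one hw
      subst hw'
      obtain rfl : j = 2 - i := by omega
      have hi : i ≤ 2 := by omega
      interval_cases i <;> exact ⟨_, _, rfl, by decide +kernel⟩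
  · obtain rfl : l = 3 - k := by omega
    have hi : k ≤ 3 := by omega
    interval_cases k <;> exact ⟨_, _, rfl, by decide +kernel⟩
  · obtain rfl : l = 2 - k := by omega
    have hi : k ≤ 2 := by omega
    interval_cases k <;> exact ⟨_, _, rfl, by decide +kernel⟩
  · omega

/-- The graph of pairs with `n` nodes has a Hamilton cycle for all `n ≥ 2`. -/
theorem ham : ∀ n, 2 ≤ n → HC R (E n) (K n) := by
  intro n
  induction n using Nat.strong_induction_on with
  | _ n ih =>
    intro hn
    rcases (by omega : n = 2 ∨ n = 3 ∨ n = 4 ∨ 5 ≤ n) with rfl | rfl | rfl | h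
    · exact base2
    · exact base3
    · exact base4
    · exact step h (fun m h1 h2 => ih m h2 h1)

end Pool.Agent.Lib.MP_7ee132_co
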