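import Mathlib

set_option autoImplicit false

namespace Pool.Agent.Lib.MP_7ee132_co

variable {α β π ι : Type*}

/-- The unordered pairs of consecutive entries of a list. -/
def pedges : List α → List (Sym2 α)
  | [] => []
  | [_] => []
  | a :: b :: l => s(a, b) :: pedges (b :: l)

theorem pedges_append (a b : α) (l2 : List α) : ∀ l1 : List α,
    pedges (l1 ++ a :: b :: l2) = pedges (l1 ++ [a]) ++ s(a, b) :: pedges (b :: l2)
  | [] => by simp [pedges]
  | [c] => by simp [pedges]
  | c :: d :: l => by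
    have h := pedges_append a b l2 (d :: l)
    simp only [List.cons_append] at h ⊢
    simp only [pedges, h, List.cons_append]

theorem pedges_reverse : ∀ l : List α, ∀ e, e ∈ pedges l.reverse ↔ e ∈ pedges l
  | [], e => by simp [pedges]
  | [a], e => by simp [pedges]
  | a :: b :: l, e => by
    have ih := pedges_reverse (b :: l) e
    have h1 : (a :: b :: l).reverse = l.reverse ++ b :: a :: [] := by simp
    have h2 : (b :: l).reverse = l.reverse ++ [b] := by simp
    rw [h1, pedges_append, ← h2, List.mem_append, ih]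
    simp only [pedges, List.mem_cons, List.not_mem_nil, or_false]
    rw [Sym2.eq_swap]
    tauto

theorem mem_pedges_split : ∀ (l : List α) (e : Sym2 α), e ∈ pedges l →
    ∃ l1 a b l2, l = l1 ++ a :: b :: l2 ∧ e = s(a, b)
  | [], e, h => by simp [pedges] at h
  | [a], e, h => by simp [pedges] at h
  | a :: b :: l, e, h => by
    simp only [pedges, List.mem_cons] at h
    rcases h with h | h
    · exact ⟨[], a, b, l, rfl, h⟩
    · obtain ⟨l1, c, d, l2, h1, h2⟩ := mem_pedges_split (b :: l) e h
      exact ⟨a :: l1, c, d, l2, by rw [h1]; rfl, h2⟩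

/-- `l` is a path in `R` from `a` to `b`. -/
structure PathL (R : α → α → Prop) (l : List α) (a b : α) : Prop where
  nodup : l.Nodup
  chain : l.IsChain R
  head : l.head? = some a
  last : l.getLast? = some b

/-- There is a path in `R` from `a` to `b` through exactly the points of `A`, using the edges
of `K`. -/
def HP (R : α → α → Prop) (A : Set α) (K : Set (Sym2 α)) (a b : α) : Prop :=
  ∃ l : List α, PathL R l a b ∧ (∀ x, x ∈ l ↔ x ∈ A) ∧ ∀ e ∈ K, e ∈ pedges l

/-- There is a cyclic arrangement of exactly the points of `A`, consecutive ones related by `R`,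
using the edges of `K`. -/
def HC (R : α → α → Prop) (A : Set α) (K : Set (Sym2 α)) : Prop :=
  ∃ (l : List α) (a b : α), PathL R l a b ∧ R b a ∧ (∀ x, x ∈ l ↔ x ∈ A) ∧
    ∀ e ∈ K, e = s(b, a) ∨ e ∈ pedges l

theorem HC.mono {R : α → α → Prop} {A : Set α} {K K' : Set (Sym2 α)} (h : HC R A K)
    (hK : K' ⊆ K) : HC R A K' := by
  obtain ⟨l, a, b, h1, h2, h3, h4⟩ := h
  exact ⟨l, a, b, h1, h2, h3, fun e he => h4 e (hK he)⟩

theorem PathL.reverse {R : α → α → Prop} (hs : ∀ a b, R a b → R b a) {l : List α} {a b : α}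
    (h : PathL R l a b) : PathL R l.reverse b a := by
  refine ⟨List.nodup_reverse.2 h.nodup, ?_, ?_, ?_⟩
  · rw [List.isChain_reverse]
    exact h.chain.imp (fun a b hab => hs _ _ hab)
  · rw [List.head?_reverse]; exact h.last
  · rw [List.getLast?_reverse]; exact h.head

theorem HP.reverse {R : α → α → Prop} (hs : ∀ a b, R a b → R b a) {A : Set α}
    {K : Set (Sym2 α)} {a b : α} (h : HP R A K a b) : HP R A K b a := by
  obtain ⟨l, h1, h2, h3⟩ := h
  refine ⟨l.reverse, h1.reverse hs, ?_, ?_⟩
  · intro x; rw [List.mem_reverse]; exact h2 x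
  · intro e he; rw [pedges_reverse]; exact h3 e he

/-- Opening a cyclic arrangement at one of its edges. -/
theorem HC.open {R : α → α → Prop} (hs : ∀ a b, R a b → R b a) {A : Set α} {K : Set (Sym2 α)}
    (h : HC R A K) {a b : α} (hab : s(a, b) ∈ K) : HP R A (K \ {s(a, b)}) a b := by
  obtain ⟨l, u, v, h1, h2, h3, h4⟩ := h
  rcases h4 _ hab with h5 | h5
  · have h6 : HP R A (K \ {s(a, b)}) u v := by
      refine ⟨l, h1, h3, ?_⟩
      intro e he
      rcases h4 e he.1 with h | h
      · exact absurd (h.trans h5.symm) he.2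
      · exact h
    rcases Sym2.eq_iff.1 h5 with ⟨rfl, rfl⟩ | ⟨rfl, rfl⟩
    · exact h6.reverse hs
    · exact h6
  · obtain ⟨l1, p, q, l2, h6, h7⟩ := mem_pedges_split l _ h5
    have key : HP R A (K \ {s(a, b)}) q p := by
      refine ⟨(q :: l2) ++ (l1 ++ [p]), ?_, ?_, ?_⟩
      · obtain ⟨hn, hc, hh, hl⟩ := h1
        rw [h6] at hn hc hh hl
        refine ⟨?_, ?_, ?_, ?_⟩
        · have : (q :: l2 ++ (l1 ++ [p])).Perm (l1 ++ p :: q :: l2) := by
            have e1 : l1 ++ p :: q :: l2 = (l1 ++ [p]) ++ (q :: l2) := by simp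
            rw [e1]
            exact List.perm_append_comm
          exact this.nodup_iff.2 hn
        · have e1 : l1 ++ p :: q :: l2 = (l1 ++ [p]) ++ (q :: l2) := by simp
          rw [e1, List.isChain_append] at hc
          rw [List.isChain_append]
          refine ⟨hc.2.1, hc.1, ?_⟩
          intro x hx y hy
          have hx' : x = v := by
            have : (q :: l2).getLast? = some v := by
              rw [← hl, e1, List.getLast?_append]
              cases hq : (q :: l2).getLast? with
              | none => simp at hq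
              | some w => rfl
            rw [this] at hx
            simpa using hx.symm
          have hy' : y = u := by
            have : (l1 ++ [p]).head? = some u := by
              rw [← hh]
              cases l1 <;> rfl
            rw [this] at hy
            simpa using hy.symm
          rw [hx', hy']
          exact h2
        · rfl
        · have e3 : q :: l2 ++ (l1 ++ [p]) = (q :: l2 ++ l1) ++ [p] := by simp
          rw [e3, List.getLast?_append]
          rfl
      · intro x
        rw [← h3 x, h6]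
        simp only [List.mem_append, List.mem_cons, List.not_mem_nil, or_false]
        tauto
      · intro e he
        have hne : e ≠ s(p, q) := by rw [← h7]; exact he.2
        have goal' : e ∈ pedges (q :: l2) ∨ e = s(v, u) ∨ e ∈ pedges (l1 ++ [p]) := by
          rcases h4 e he.1 with h | h
          · exact Or.inr (Or.inl h)
          · rw [h6, pedges_append, List.mem_append, List.mem_cons] at h
            rcases h with h | h | h
            · exact Or.inr (Or.inr h)
            · exact absurd h hne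
            · exact Or.inl h
        obtain ⟨m2, hm2⟩ : ∃ m2, l1 ++ [p] = u :: m2 := by
          have hh := h1.head
          rw [h6] at hh
          cases l1 with
          | nil => simp at hh; exact ⟨[], by simp [hh]⟩
          | cons c l1 => simp at hh; exact ⟨l1 ++ [p], by simp [hh]⟩
        obtain ⟨m1, hm1⟩ : ∃ m1, q :: l2 = m1 ++ [v] := by
          have hl := h1.last
          have e1 : l1 ++ p :: q :: l2 = (l1 ++ [p]) ++ (q :: l2) := by simp
          rw [h6, e1, List.getLast?_append] at hl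
          rcases List.eq_nil_or_concat (q :: l2) with h | ⟨m, w, h⟩
          · simp at h
          · refine ⟨m, ?_⟩
            rw [h] at hl ⊢
            simp at hl
            rw [hl]; simp
        rw [hm1, hm2]
        have e2 : m1 ++ [v] ++ u :: m2 = m1 ++ v :: u :: m2 := by simp
        rw [e2, pedges_append, List.mem_append, List.mem_cons, ← hm1, ← hm2]
        tauto
    rcases Sym2.eq_iff.1 h7 with ⟨h8, h9⟩ | ⟨h8, h9⟩
    · subst h8; subst h9; exact key.reverse hs
    · subst h8; subst h9; exact key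

/-- Joining two cyclic arrangements along parallel edges. -/
theorem HC.glue {R : α → α → Prop} (hs : ∀ a b, R a b → R b a) {A B : Set α}
    {K L : Set (Sym2 α)} (hA : HC R A K) (hB : HC R B L) (hd : Disjoint A B) {a b c d : α}
    (hab : s(a, b) ∈ K) (hcd : s(c, d) ∈ L) (hac : R a c) (hbd : R b d) :
    HC R (A ∪ B) ((K \ {s(a, b)}) ∪ (L \ {s(c, d)})) := by
  obtain ⟨l1, ⟨n1, c1, hd1, la1⟩, m1, k1⟩ := (hA.open hs hab).reverse hs
  obtain ⟨l2, ⟨n2, c2, hd2, la2⟩, m2, k2⟩ := hB.open hs hcd
  refine ⟨l1 ++ l2, b, d, ⟨?_, ?_, ?_, ?_⟩, hs _ _ hbd, ?_, ?_⟩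
  · rw [List.nodup_append]
    refine ⟨n1, n2, ?_⟩
    intro x hx y hy hxy
    subst hxy
    exact Set.disjoint_left.1 hd ((m1 x).1 hx) ((m2 x).1 hy)
  · rw [List.isChain_append]
    refine ⟨c1, c2, ?_⟩
    intro x hx y hy
    rw [la1] at hx
    rw [hd2] at hy
    have hx' : x = a := by simpa using hx.symm
    have hy' : y = c := by simpa using hy.symm
    rw [hx', hy']
    exact hac
  · rw [List.head?_append, hd1]; rfl
  · rw [List.getLast?_append, la2]; rfl
  · intro x
    rw [List.mem_append, m1, m2, Set.mem_union]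
  · intro e he
    right
    obtain ⟨m1', hm1'⟩ : ∃ m, l1 = m ++ [a] := by
      rcases List.eq_nil_or_concat l1 with h | ⟨m, w, h⟩
      · rw [h] at la1; simp at la1
      · refine ⟨m, ?_⟩
        rw [h] at la1 ⊢
        simp at la1
        rw [la1]; simp
    obtain ⟨m2', hm2'⟩ : ∃ m, l2 = c :: m := by
      cases l2 with
      | nil => simp at hd2
      | cons w m => simp at hd2; exact ⟨m, by rw [hd2]⟩
    have e2 : l1 ++ l2 = m1' ++ a :: c :: m2' := by rw [hm1', hm2']; simp
    rw [e2, pedges_append, List.mem_append, List.mem_cons, ← hm1', ← hm2']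
    rcases he with he | he
    · exact Or.inl (k1 e he)
    · exact Or.inr (Or.inr (k2 e he))

theorem pedges_map {γ : Type*} (f : α → γ) : ∀ l : List α,
    pedges (l.map f) = (pedges l).map (Sym2.map f)
  | [] => by simp [pedges]
  | [a] => by simp [pedges]
  | a :: b :: l => by
    have h := pedges_map f (b :: l)
    simp only [List.map_cons] at h ⊢
    simp only [pedges, List.map_cons, h, Sym2.map_mk]

theorem HC.map {γ : Type*} {R : α → α → Prop} {R' : γ → γ → Prop} {A : Set α}
    {K : Set (Sym2 α)} (h : HC R A K) (f : α → γ) (hf : Function.Injective f)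
    (hR : ∀ a b, R a b → R' (f a) (f b)) : HC R' (f '' A) (Sym2.map f '' K) := by
  obtain ⟨l, a, b, ⟨hn, hc, hh, hl⟩, hba, hm, hk⟩ := h
  refine ⟨l.map f, f a, f b, ⟨?_, ?_, ?_, ?_⟩, hR _ _ hba, ?_, ?_⟩
  · exact hn.map hf
  · rw [List.isChain_map]
    exact hc.imp (fun a b hab => hR _ _ hab)
  · rw [List.head?_map, hh]; rfl
  · rw [List.getLast?_map, hl]; rfl
  · intro x
    rw [List.mem_map]
    constructor
    · rintro ⟨y, hy, rfl⟩
      exact ⟨y, (hm y).1 hy, rfl⟩
    · rintro ⟨y, hy, rfl⟩
      exact ⟨y, (hm y).2 hy, rfl⟩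
  · rintro e ⟨e', he', rfl⟩
    rcases hk e' he' with h | h
    · left; rw [h]; rfl
    · right
      rw [pedges_map]
      exact List.mem_map.2 ⟨e', h, rfl⟩

/-- Product of a cyclic arrangement with a path. -/
theorem HC.prod {γ : Type*} {R : α → α → Prop} {R' : γ → γ → Prop}
    (hs : ∀ a b, R' a b → R' b a) {A : Set α} {K : Set (Sym2 α)} (h : HC R A K)
    {e1 e2 : Sym2 α} (h1 : e1 ∈ K) (h2 : e2 ∈ K) (hne : e1 ≠ e2) (f : α → π → γ)
    (hf : ∀ a q a' q', f a q = f a' q' → a = a' ∧ q = q')
    (hR : ∀ q a b, R a b → R' (f a q) (f b q)) : ∀ (q0 : π) (l : List π), (q0 :: l).Nodup →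
    (q0 :: l).IsChain (fun q q' => ∀ a, R' (f a q) (f a q')) →
    ∃ e0, (e0 = e1 ∨ e0 = e2) ∧ HC R' {x | ∃ a ∈ A, ∃ q ∈ q0 :: l, x = f a q}
      ({e | ∃ e' ∈ K, e' ≠ e1 ∧ e' ≠ e2 ∧ ∃ q ∈ q0 :: l, e = Sym2.map (fun a => f a q) e'} ∪
        {Sym2.map (fun a => f a q0) e0}) := by
  intro q0 l
  have single : ∀ q0 : π, HC R' {x | ∃ a ∈ A, x = f a q0}
      (Sym2.map (fun a => f a q0) '' K) := by
    intro q0
    have := h.map (fun a => f a q0) (fun a b hab => (hf _ _ _ _ hab).1) (hR q0)
    convert this using 1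
    ext x
    simp only [Set.mem_ofPred_eq, Set.mem_image]
    constructor
    · rintro ⟨a, ha, rfl⟩; exact ⟨a, ha, rfl⟩
    · rintro ⟨a, ha, rfl⟩; exact ⟨a, ha, rfl⟩
  induction l generalizing q0 with
  | nil =>
    intro _ _
    refine ⟨e1, Or.inl rfl, ?_⟩
    have := single q0
    have hset : {x | ∃ a ∈ A, ∃ q ∈ [q0], x = f a q} = {x | ∃ a ∈ A, x = f a q0} := by
      ext x; simp
    rw [hset]
    apply this.mono
    rintro e (⟨e', he', _, _, q, hq, rfl⟩ | he)
    · have : q = q0 := by simpa using hq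
      subst this
      exact ⟨e', he', rfl⟩
    · rw [Set.mem_singleton_iff] at he
      rw [he]
      exact ⟨e1, h1, rfl⟩
  | cons q1 l ih =>
    intro hnd hch
    obtain ⟨e0, he0, H⟩ := ih q1 (List.nodup_cons.1 hnd).2 (List.isChain_cons_cons.1 hch).2
    have hq01 := (List.isChain_cons_cons.1 hch).1
    have he0K : e0 ∈ K := by rcases he0 with rfl | rfl <;> assumption
    obtain ⟨e3, he3, he30, he3K⟩ : ∃ e3, (e3 = e1 ∨ e3 = e2) ∧ e3 ≠ e0 ∧ e3 ∈ K := by
      rcases he0 with rfl | rfl
      · exact ⟨e2, Or.inr rfl, hne.symm, h2⟩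
      · exact ⟨e1, Or.inl rfl, hne, h1⟩
    refine ⟨e3, he3, ?_⟩
    obtain ⟨a, b, rfl⟩ : ∃ a b, e0 = s(a, b) := by
      induction e0 using Sym2.ind with
      | _ a b => exact ⟨a, b, rfl⟩
    have hdis : Disjoint {x | ∃ a ∈ A, x = f a q0} {x | ∃ a ∈ A, ∃ q ∈ q1 :: l, x = f a q} := by
      rw [Set.disjoint_left]
      rintro x ⟨a, _, rfl⟩ ⟨a', _, q, hq, hx⟩
      have := (hf _ _ _ _ hx).2
      subst this
      exact (List.nodup_cons.1 hnd).1 hq
    have G := HC.glue hs (single q0) H hdis (a := f a q0) (b := f b q0) (c := f a q1)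
      (d := f b q1) ⟨s(a, b), he0K, rfl⟩ (Or.inr rfl) (hq01 a) (hq01 b)
    have hset : {x | ∃ a ∈ A, ∃ q ∈ q0 :: q1 :: l, x = f a q} =
        {x | ∃ a ∈ A, x = f a q0} ∪ {x | ∃ a ∈ A, ∃ q ∈ q1 :: l, x = f a q} := by
      ext x
      simp only [Set.mem_ofPred_eq, Set.mem_union, List.mem_cons]
      constructor
      · rintro ⟨a, ha, q, rfl | hq, hx⟩
        · exact Or.inl ⟨a, ha, hx⟩
        · exact Or.inr ⟨a, ha, q, hq, hx⟩
      · rintro (⟨a, ha, hx⟩ | ⟨a, ha, q, hq, hx⟩)
        · exact ⟨a, ha, q0, Or.inl rfl, hx⟩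
        · exact ⟨a, ha, q, Or.inr hq, hx⟩
    rw [hset]
    apply G.mono
    have inj : ∀ q, Function.Injective (fun a => f a q) := fun q a b hab => (hf _ _ _ _ hab).1
    rintro e (⟨e', he', hn1, hn2, q, hq, rfl⟩ | he)
    · rcases List.mem_cons.1 hq with rfl | hq'
      · left
        refine ⟨⟨e', he', rfl⟩, ?_⟩
        intro hc
        have : e' = s(a, b) := Sym2.map.injective (inj q) hc
        rcases he0 with h0 | h0
        · exact hn1 (this.trans h0)
        · exact hn2 (this.trans h0)
      · right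
        refine ⟨Or.inl ⟨e', he', hn1, hn2, q, hq', rfl⟩, ?_⟩
        intro hc
        rw [Set.mem_singleton_iff] at hc
        -- the second component is `q` on the left and `q1` on the right
        obtain ⟨c, d, rfl⟩ : ∃ c d, e' = s(c, d) := by
          induction e' using Sym2.ind with
          | _ c d => exact ⟨c, d, rfl⟩
        have hc' : s(f c q, f d q) = s(f a q1, f b q1) := hc
        have hqq : q = q1 ∧ s(c, d) = s(a, b) := by
          rcases Sym2.eq_iff.1 hc' with ⟨h3, h4⟩ | ⟨h3, h4⟩
          · refine ⟨(hf _ _ _ _ h3).2, ?_⟩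
            rw [(hf _ _ _ _ h3).1, (hf _ _ _ _ h4).1]
          · refine ⟨(hf _ _ _ _ h3).2, ?_⟩
            rw [(hf _ _ _ _ h3).1, (hf _ _ _ _ h4).1, Sym2.eq_swap]
        rcases he0 with h0 | h0
        · exact hn1 (hqq.2.trans h0)
        · exact hn2 (hqq.2.trans h0)
    · rw [Set.mem_singleton_iff] at he
      left
      refine ⟨⟨e3, he3K, he.symm⟩, ?_⟩
      rw [he]
      intro hc
      exact he30 (Sym2.map.injective (inj q0) hc)

/-- A Hamiltonian cycle from a tree of blocks joined along parallel edges. -/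
theorem HC.tree {V : Set β} (hfin : V.Finite) {R : β → β → Prop} (hs : ∀ a b, R a b → R b a)
    (lab : β → ι) (root : ι) (hroot : ∃ x ∈ V, lab x = root) (K : ι → Set (Sym2 β))
    (hcyc : ∀ x ∈ V, HC R {y | y ∈ V ∧ lab y = lab x} (K (lab x))) (rk : ι → ℕ)
    (oa ob pa pb : ι → β)
    (H : ∀ x ∈ V, lab x ≠ root → s(oa (lab x), ob (lab x)) ∈ K (lab x) ∧ pa (lab x) ∈ V ∧
      s(pa (lab x), pb (lab x)) ∈ K (lab (pa (lab x))) ∧ rk (lab (pa (lab x))) < rk (lab x) ∧
      R (pa (lab x)) (oa (lab x)) ∧ R (pb (lab x)) (ob (lab x)))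
    (inj1 : ∀ x ∈ V, ∀ y ∈ V, lab x ≠ root → lab y ≠ root →
      s(pa (lab x), pb (lab x)) = s(pa (lab y), pb (lab y)) → lab x = lab y)
    (inj2 : ∀ x ∈ V, ∀ y ∈ V, lab x ≠ root → lab y ≠ root →
      s(pa (lab x), pb (lab x)) ≠ s(oa (lab y), ob (lab y))) :
    HC R V {e | (∃ x ∈ V, e ∈ K (lab x)) ∧ ∀ x ∈ V, lab x ≠ root →
      e ≠ s(oa (lab x), ob (lab x)) ∧ e ≠ s(pa (lab x), pb (lab x))} := by
  classical
  have main : ∀ (n : ℕ) (S : Finset ι), S.card = n → (∀ i ∈ S, ∃ x ∈ V, lab x = i) → root ∈ S →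
      (∀ i ∈ S, i ≠ root → lab (pa i) ∈ S) →
      HC R {y | y ∈ V ∧ lab y ∈ S} {e | (∃ i ∈ S, e ∈ K i) ∧ ∀ i ∈ S, i ≠ root →
        e ≠ s(oa i, ob i) ∧ e ≠ s(pa i, pb i)} := by
    intro n
    induction n with
    | zero =>
      intro S hS _ hr _
      rw [Finset.card_eq_zero] at hS
      rw [hS] at hr
      exact absurd hr (Finset.notMem_empty _)
    | succ n ih =>
      intro S hS hSV hr hcl
      by_cases hex : (S.erase root).Nonempty
      · obtain ⟨i, hi, hmax⟩ := Finset.exists_max_image (S.erase root) rk hex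
        rw [Finset.mem_erase] at hi
        obtain ⟨hir, hiS⟩ := hi
        obtain ⟨x, hxV, hxi⟩ := hSV i hiS
        have Hx := H x hxV (by rw [hxi]; exact hir)
        rw [hxi] at Hx
        obtain ⟨Ho, HpV, Hp, Hrk, HRa, HRb⟩ := Hx
        have hcl' : ∀ j ∈ S.erase i, j ≠ root → lab (pa j) ∈ S.erase i := by
          intro j hj hjr
          rw [Finset.mem_erase] at hj ⊢
          refine ⟨?_, hcl j hj.2 hjr⟩
          intro hc
          obtain ⟨y, hyV, hyj⟩ := hSV j hj.2
          have Hy := (H y hyV (by rw [hyj]; exact hjr)).2.2.2.1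
          rw [hyj, hc] at Hy
          have := hmax j (Finset.mem_erase.2 ⟨hjr, hj.2⟩)
          omega
        have IH := ih (S.erase i) (by rw [Finset.card_erase_of_mem hiS, hS]; rfl)
          (fun j hj => hSV j (Finset.mem_of_mem_erase hj)) (Finset.mem_erase.2 ⟨hir.symm, hr⟩)
          hcl'
        have HB := hcyc x hxV
        rw [hxi] at HB
        have hdis : Disjoint {y | y ∈ V ∧ lab y ∈ S.erase i} {y | y ∈ V ∧ lab y = i} := by
          rw [Set.disjoint_left]
          rintro y ⟨_, hy1⟩ ⟨_, hy2⟩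
          rw [hy2] at hy1
          exact Finset.notMem_erase i S hy1
        have hpi : lab (pa i) ∈ S.erase i := by
          rw [Finset.mem_erase]
          refine ⟨?_, hcl i hiS hir⟩
          intro hc
          rw [hc] at Hrk
          omega
        have G := HC.glue hs IH HB hdis (a := pa i) (b := pb i) (c := oa i) (d := ob i) ?_ Ho
          HRa HRb
        · have hset : {y | y ∈ V ∧ lab y ∈ S} =
              {y | y ∈ V ∧ lab y ∈ S.erase i} ∪ {y | y ∈ V ∧ lab y = i} := by
            ext y
            simp only [Set.mem_ofPred_eq, Set.mem_union, Finset.mem_erase]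
            constructor
            · rintro ⟨h1, h2⟩
              by_cases h3 : lab y = i
              · exact Or.inr ⟨h1, h3⟩
              · exact Or.inl ⟨h1, h3, h2⟩
            · rintro (⟨h1, _, h2⟩ | ⟨h1, h2⟩)
              · exact ⟨h1, h2⟩
              · exact ⟨h1, by rw [h2]; exact hiS⟩
          rw [hset]
          apply G.mono
          rintro e ⟨⟨j, hjS, hej⟩, hne⟩
          by_cases hji : j = i
          · right
            rw [hji] at hej
            exact ⟨hej, (hne i hiS hir).1⟩
          · left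
            refine ⟨⟨⟨j, Finset.mem_erase.2 ⟨hji, hjS⟩, hej⟩, ?_⟩, (hne i hiS hir).2⟩
            intro k hk hkr
            exact hne k (Finset.mem_of_mem_erase hk) hkr
        · refine ⟨⟨lab (pa i), hpi, Hp⟩, ?_⟩
          intro k hk hkr
          obtain ⟨y, hyV, hyk⟩ := hSV k (Finset.mem_of_mem_erase hk)
          have i1 := inj1 x hxV y hyV (by rw [hxi]; exact hir) (by rw [hyk]; exact hkr)
          have i2 := inj2 x hxV y hyV (by rw [hxi]; exact hir) (by rw [hyk]; exact hkr)
          rw [hxi, hyk] at i1 i2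
          refine ⟨i2, ?_⟩
          intro hc
          have := i1 hc
          rw [this] at hk
          exact Finset.notMem_erase _ _ hk
      · rw [Finset.not_nonempty_iff_eq_empty] at hex
        have hS1 : ∀ j, j ∈ S ↔ j = root := by
          intro j
          constructor
          · intro hj
            by_contra hjr
            have : j ∈ S.erase root := Finset.mem_erase.2 ⟨hjr, hj⟩
            rw [hex] at this
            exact Finset.notMem_empty _ this
          · rintro rfl
            exact hr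
        obtain ⟨x, hxV, hx⟩ := hroot
        have HB := hcyc x hxV
        rw [hx] at HB
        have hset : {y | y ∈ V ∧ lab y ∈ S} = {y | y ∈ V ∧ lab y = root} := by
          ext y
          simp only [Set.mem_ofPred_eq, hS1]
        rw [hset]
        apply HB.mono
        rintro e ⟨⟨j, hj, hej⟩, _⟩
        rw [(hS1 j).1 hj] at hej
        exact hej
  have hI : (lab '' V).Finite := hfin.image lab
  have := main _ hI.toFinset rfl ?_ ?_ ?_
  · have hset : {y | y ∈ V ∧ lab y ∈ hI.toFinset} = V := by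
      ext y
      simp only [Set.mem_ofPred_eq, Set.Finite.mem_toFinset, and_iff_left_iff_imp]
      intro hy
      exact ⟨y, hy, rfl⟩
    rw [hset] at this
    apply this.mono
    rintro e ⟨⟨x, hx, hex⟩, hne⟩
    refine ⟨⟨lab x, hI.mem_toFinset.2 ⟨x, hx, rfl⟩, hex⟩, ?_⟩
    intro i hi hir
    obtain ⟨y, hy, rfl⟩ := hI.mem_toFinset.1 hi
    exact hne y hy hir
  · intro i hi
    exact hI.mem_toFinset.1 hi
  · exact hI.mem_toFinset.2 hroot
  · intro i hi hir
    obtain ⟨y, hy, rfl⟩ := hI.mem_toFinset.1 hi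
    exact hI.mem_toFinset.2 ⟨_, (H y hy hir).2.1, rfl⟩

end Pool.Agent.Lib.MP_7ee132_co
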