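import Mathlib

set_option autoImplicit false

namespace Pool.Agent.Lib.MP_7ee132_co

/-- `e = (i, j)` is a side of the convex polygon with vertices `1, …, N` in cyclic order. -/
def IsSide (N : ℕ) (e : ℕ × ℕ) : Prop :=
  (1 ≤ e.1 ∧ e.2 = e.1 + 1 ∧ e.2 ≤ N) ∨ e = (1, N)

/-- `e = (i, j)`, with `i < j`, is a diagonal of the convex polygon with vertices `1, …, N`. -/
def IsDiagonal (N : ℕ) (e : ℕ × ℕ) : Prop :=
  1 ≤ e.1 ∧ e.1 + 2 ≤ e.2 ∧ e.2 ≤ N ∧ e ≠ (1, N)

/-- Two chords (written with the smaller end first) cross in the interior of the polygon. -/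
def Cross (e f : ℕ × ℕ) : Prop :=
  (e.1 < f.1 ∧ f.1 < e.2 ∧ e.2 < f.2) ∨ (f.1 < e.1 ∧ e.1 < f.2 ∧ f.2 < e.2)

/-- A triangulation of the `N`-gon, given by its set of diagonals: pairwise non-crossing
diagonals that cut the polygon into triangles, that is, a maximal set of pairwise non-crossing
diagonals. -/
structure IsTriangulation (N : ℕ) (D : Finset (ℕ × ℕ)) : Prop where
  isDiagonal : ∀ e ∈ D, IsDiagonal N e
  not_cross : ∀ e ∈ D, ∀ f ∈ D, ¬ Cross e f
  maximal : ∀ e, IsDiagonal N e → (∀ f ∈ D, ¬ Cross e f) → e ∈ D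

/-- `e` is a side of the polygon or a diagonal of the triangulation. -/
def IsEdge (N : ℕ) (D : Finset (ℕ × ℕ)) (e : ℕ × ℕ) : Prop := IsSide N e ∨ e ∈ D

/-- The vertices `i < j < k` span a triangle of the triangulation `D`. -/
def IsTriangle (N : ℕ) (D : Finset (ℕ × ℕ)) (i j k : ℕ) : Prop :=
  i < j ∧ j < k ∧ IsEdge N D (i, j) ∧ IsEdge N D (j, k) ∧ IsEdge N D (i, k)

/-- `D` is a triangulation in which every triangle has one vertex of each of the three colours,
where the colour of the vertex `i` is its residue modulo `3`. -/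
def IsColorful (N : ℕ) (D : Finset (ℕ × ℕ)) : Prop :=
  IsTriangulation N D ∧ ∀ i j k, IsTriangle N D i j k →
    i % 3 ≠ j % 3 ∧ j % 3 ≠ k % 3 ∧ i % 3 ≠ k % 3

/-- `a < b < c < d < e < f` are the vertices of a hexagon whose sides are edges of `D`. -/
def IsHexagon (N : ℕ) (D : Finset (ℕ × ℕ)) (a b c d e f : ℕ) : Prop :=
  (a < b ∧ b < c ∧ c < d ∧ d < e ∧ e < f) ∧
    IsEdge N D (a, b) ∧ IsEdge N D (b, c) ∧ IsEdge N D (c, d) ∧ IsEdge N D (d, e) ∧
    IsEdge N D (e, f) ∧ IsEdge N D (a, f)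

/-- `D'` arises from `D` by a twist: in a hexagon with vertices `a < b < c < d < e < f`, cut by
three diagonals of `D` into a middle triangle and its three neighbours, the middle triangle
`ace` is replaced by `bdf`, or the middle triangle `bdf` by `ace`. -/
def Twist (N : ℕ) (D D' : Finset (ℕ × ℕ)) : Prop :=
  ∃ a b c d e f : ℕ, IsHexagon N D a b c d e f ∧
    (({(a, c), (c, e), (a, e)} ⊆ D ∧ D' = (D \ {(a, c), (c, e), (a, e)}) ∪ {(b, d), (d, f), (b, f)}) ∨
     ({(b, d), (d, f), (b, f)} ⊆ D ∧ D' = (D \ {(b, d), (d, f), (b, f)}) ∪ {(a, c), (c, e), (a, e)}))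

/-- The twist graph: its vertices are the colourful triangulations of the `N`-gon, and two of them
are adjacent when one arises from the other by one twist. -/
def twistGraph (N : ℕ) : SimpleGraph {D : Finset (ℕ × ℕ) // IsColorful N D} :=
  SimpleGraph.fromRel (fun D D' => Twist N D.1 D'.1)

end Pool.Agent.Lib.MP_7ee132_co
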