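import Pool.Agent.Lib.MP_7ee132_co.Slot

set_option autoImplicit false
set_option linter.unusedSimpArgs false
set_option linter.unusedVariables false

namespace Pool.Agent.Lib.MP_7ee132_co

open T

/-- The size of the first pair of a tree. -/
def ty1 : T → ℕ
  | leaf => 0
  | node a b _ _ => a.size + b.size

/-- The size of the second pair of a tree. -/
def ty2 : T → ℕ
  | leaf => 0
  | node _ _ c d => c.size + d.size

@[simp] theorem ty1_nd (p q : P) : ty1 (nd p q) = psz p := rfl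
@[simp] theorem ty2_nd (p q : P) : ty2 (nd p q) = psz q := rfl
@[simp] theorem ty1_node (a b c d : T) : ty1 (node a b c d) = a.size + b.size := rfl
@[simp] theorem ty2_node (a b c d : T) : ty2 (node a b c d) = c.size + d.size := rfl

theorem sym_ne {α : Type*} (f : α → ℕ) {a b c d : α} (hc : f a ≠ f c) (hd : f a ≠ f d) :
    s(a, b) ≠ s(c, d) := by
  intro h
  rcases Sym2.eq_iff.1 h with ⟨rfl, _⟩ | ⟨rfl, _⟩
  · exact hc rfl
  · exact hd rfl

theorem psz_c (i : ℕ) : psz (c i) = 2 := by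
  unfold c
  split <;> rfl

theorem psz_lift (i j m : ℕ) : psz (lift (c i) (c j) m).1 = m + 3 ∧
    psz (lift (c i) (c j) m).2 = m + 3 := by
  constructor
  · show (0 : ℕ) + (nd (c i) (Ps m)).size = _
    rw [size_nd, psz_c, psz_Ps]; omega
  · show (0 : ℕ) + (nd (c j) (Ps m)).size = _
    rw [size_nd, psz_c, psz_Ps]; omega

theorem psz_r (m : ℕ) (hm : 1 ≤ m) : psz (r m).1 = m ∧ psz (r m).2 = m := by
  match m, hm with
  | 1, _ => exact ⟨rfl, rfl⟩
  | 2, _ => exact ⟨rfl, rfl⟩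
  | m + 3, _ => exact psz_lift 3 4 m

theorem psz_h (p : Bool) (m : ℕ) (hm : 1 ≤ m) : psz (h p m).1 = m ∧ psz (h p m).2 = m := by
  match m, hm with
  | 1, _ => exact ⟨rfl, rfl⟩
  | 2, _ => cases p <;> exact ⟨rfl, rfl⟩
  | m + 3, _ =>
    cases p
    · exact psz_lift 5 6 m
    · exact psz_lift 7 8 m

theorem size_bt (m : ℕ) (hm : 2 ≤ m) : (bt m).1.size = m ∧ (bt m).2.size = m := by
  have h1 := psz_r (m - 1) (by omega)
  constructor
  · show (nd (r (m - 1)).1 o).size = m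
    rw [size_nd, h1.1, psz_o]; omega
  · show (nd (r (m - 1)).2 o).size = m
    rw [size_nd, h1.2, psz_o]; omega

theorem ee_ge {p : Bool} {i j : ℕ} (hi : 2 ≤ i) :
    ee p i j = (nd (h p i).1 (Ps j), nd (h p i).2 (Ps j)) := by
  simp [ee, hi]

theorem ee_lt {p : Bool} {i j : ℕ} (hi : i ≤ 1) (hj : 2 ≤ j) :
    ee p i j = (nd (Ps i) (h p j).1, nd (Ps i) (h p j).2) := by
  have : ¬ 2 ≤ i := by omega
  simp [ee, this, hj]

theorem ee_11 (p : Bool) : ee p 1 1 = bif p then (nd x y, nd y y) else (nd x x, nd y x) := rfl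

/-- Both ends of the special edges have the right type. -/
theorem ee_ty (p : Bool) (i j : ℕ) (hij : 2 ≤ i + j) :
    (ty1 (ee p i j).1 = i ∧ ty2 (ee p i j).1 = j) ∧ (ty1 (ee p i j).2 = i ∧ ty2 (ee p i j).2 = j) := by
  by_cases hi : 2 ≤ i
  · have h1 := psz_h p i (by omega)
    rw [ee_ge hi]
    simp [h1.1, h1.2]
  · by_cases hj : 2 ≤ j
    · have h1 := psz_h p j (by omega)
      rw [ee_lt (by omega) hj]
      simp [h1.1, h1.2]
    · have h1 : i = 1 := by omega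
      have h2 : j = 1 := by omega
      subst h1; subst h2
      cases p <;> exact ⟨⟨rfl, rfl⟩, ⟨rfl, rfl⟩⟩

theorem ee_size (p : Bool) (i j : ℕ) (hij : 2 ≤ i + j) :
    (ee p i j).1.size = i + j + 1 ∧ (ee p i j).2.size = i + j + 1 := by
  by_cases hi : 2 ≤ i
  · have h1 := psz_h p i (by omega)
    rw [ee_ge hi]
    simp [h1.1, h1.2]
  · by_cases hj : 2 ≤ j
    · have h1 := psz_h p j (by omega)
      rw [ee_lt (by omega) hj]
      simp [h1.1, h1.2]
    · have h1 : i = 1 := by omega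
      have h2 : j = 1 := by omega
      subst h1; subst h2
      cases p <;> exact ⟨rfl, rfl⟩

theorem ee_node (p : Bool) (i j : ℕ) :
    (∃ a b c d, (ee p i j).1 = node a b c d) ∧ (∃ a b c d, (ee p i j).2 = node a b c d) := by
  unfold ee nd
  split_ifs
  · exact ⟨⟨_, _, _, _, rfl⟩, ⟨_, _, _, _, rfl⟩⟩
  · exact ⟨⟨_, _, _, _, rfl⟩, ⟨_, _, _, _, rfl⟩⟩
  · cases p <;> exact ⟨⟨_, _, _, _, rfl⟩, ⟨_, _, _, _, rfl⟩⟩

/-- The kinds of the edges `r`, `rp`, `h`: for `m ≥ 3` both ends are lifts. -/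
theorem ty_lift (i j m : ℕ) : ty1 (lift (c i) (c j) m).1.2 = 2 ∧ ty1 (lift (c i) (c j) m).2.2 = 2 :=
  ⟨psz_c i, psz_c j⟩

theorem ty_bt (m : ℕ) (hm : 2 ≤ m) : ty1 (bt m).1 = m - 1 ∧ ty1 (bt m).2 = m - 1 :=
  ⟨(psz_r (m - 1) (by omega)).1, (psz_r (m - 1) (by omega)).2⟩

theorem lift_ne_b (i j m : ℕ) (hm : 1 ≤ m) : sy (lift (c i) (c j) m) ≠ es leaf (bt (m + 3)) := by
  have h1 := ty_lift i j m
  have h2 := ty_bt (m + 3) (by omega)
  apply sym_ne (fun p => ty1 p.2)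
  · show ty1 (lift (c i) (c j) m).1.2 ≠ ty1 (bt (m + 3)).1
    rw [h1.1, h2.1]; omega
  · show ty1 (lift (c i) (c j) m).1.2 ≠ ty1 (bt (m + 3)).2
    rw [h1.1, h2.2]; omega

theorem lift_ne_a (i j m : ℕ) : sy (lift (c i) (c j) m) ≠ ef (bt (m + 3)) leaf := by
  have h2 := size_bt (m + 3) (by omega)
  apply sym_ne (fun p => p.1.size)
  · show 0 ≠ (bt (m + 3)).1.size
    rw [h2.1]; omega
  · show 0 ≠ (bt (m + 3)).2.size
    rw [h2.2]; omega

theorem h_ne_b (p : Bool) (m : ℕ) (hm : 2 ≤ m) : sy (h p m) ≠ es leaf (bt m) := by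
  match m, hm with
  | 2, _ => cases p <;> decide
  | 3, _ => cases p <;> decide
  | m + 4, _ =>
    cases p
    · exact lift_ne_b 5 6 (m + 1) (by omega)
    · exact lift_ne_b 7 8 (m + 1) (by omega)

theorem h_ne_a (p : Bool) (m : ℕ) (hm : 2 ≤ m) : sy (h p m) ≠ ef (bt m) leaf := by
  match m, hm with
  | 2, _ => cases p <;> decide
  | m + 3, _ =>
    cases p
    · exact lift_ne_a 5 6 m
    · exact lift_ne_a 7 8 m

theorem r_ne_b (m : ℕ) (hm : 2 ≤ m) : sy (r m) ≠ es leaf (bt m) := by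
  match m, hm with
  | 2, _ => decide
  | 3, _ => decide
  | m + 4, _ => exact lift_ne_b 3 4 (m + 1) (by omega)

theorem rp_ne_b (m : ℕ) (hm : 2 ≤ m) : sy (rp m) ≠ es leaf (bt m) := by
  match m, hm with
  | 2, _ => decide
  | 3, _ => decide
  | m + 4, _ => exact lift_ne_b 0 1 (m + 1) (by omega)

theorem r_ne_a (m : ℕ) (hm : 2 ≤ m) : sy (r m) ≠ ef (bt m) leaf := by
  match m, hm with
  | 2, _ => decide
  | m + 3, _ => exact lift_ne_a 3 4 m

theorem rp_ne_a (m : ℕ) (hm : 2 ≤ m) : sy (rp m) ≠ ef (bt m) leaf := by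
  match m, hm with
  | 2, _ => decide
  | m + 3, _ => exact lift_ne_a 0 1 m

theorem a_ne_b (m : ℕ) (hm : 2 ≤ m) : ef (bt m) leaf ≠ es leaf (bt m) := by
  have h2 := size_bt m hm
  apply sym_ne (fun p => p.1.size)
  · show (bt m).1.size ≠ 0
    omega
  · show (bt m).1.size ≠ 0
    omega

/-- Lifts of disjoint edges are different. -/
theorem lift_ne_lift {i j k l : ℕ} {m m' : ℕ} (h1 : c i ≠ c k) (h2 : c i ≠ c l) :
    sy (lift (c i) (c j) m) ≠ sy (lift (c k) (c l) m') := by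
  intro hc
  rcases Sym2.eq_iff.1 hc with ⟨h3, _⟩ | ⟨h3, _⟩
  · exact h1 (nd_inj (Prod.mk.inj h3).2).1
  · exact h2 (nd_inj (Prod.mk.inj h3).2).1

theorem h_ne_r (p : Bool) (m : ℕ) (hm : 2 ≤ m) : sy (h p m) ≠ sy (r m) := by
  match m, hm with
  | 2, _ => cases p <;> decide
  | m + 3, _ => cases p <;> exact lift_ne_lift (by decide) (by decide)

theorem h_ne_rp (p : Bool) (m : ℕ) (hm : 2 ≤ m) : sy (h p m) ≠ sy (rp m) := by
  match m, hm with
  | 2, _ => cases p <;> decide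
  | m + 3, _ => cases p <;> exact lift_ne_lift (by decide) (by decide)

theorem h_ne_h (m : ℕ) (hm : 2 ≤ m) : sy (h true m) ≠ sy (h false m) := by
  match m, hm with
  | 2, _ => decide
  | m + 3, _ => exact lift_ne_lift (by decide) (by decide)

theorem map_ne {α β : Type*} {f : α → β} (hf : Function.Injective f) {e e' : Sym2 α}
    (h : e ≠ e') : Sym2.map f e ≠ Sym2.map f e' :=
  fun hc => h (Sym2.map.injective hf hc)

theorem nd_left_inj (q : P) : Function.Injective (fun p => nd p q) :=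
  fun _ _ h => (nd_inj h).1

theorem nd_right_inj (p : P) : Function.Injective (fun q => nd p q) :=
  fun _ _ h => (nd_inj h).2

theorem ee_ne_ee (i j : ℕ) (hij : 2 ≤ i + j) : sy (ee true i j) ≠ sy (ee false i j) := by
  by_cases hi : 2 ≤ i
  · rw [ee_ge hi, ee_ge hi]
    exact map_ne (nd_left_inj (Ps j)) (h_ne_h i hi)
  · by_cases hj : 2 ≤ j
    · rw [ee_lt (by omega) hj, ee_lt (by omega) hj]
      exact map_ne (nd_right_inj (Ps i)) (h_ne_h j hj)
    · have h1 : i = 1 := by omega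
      have h2 : j = 1 := by omega
      subst h1; subst h2
      decide

/-- The special tree edges are kept. -/
theorem ee_mem_KS (p : Bool) (i j : ℕ) (hij : 2 ≤ i + j) : sy (ee p i j) ∈ KS i j := by
  by_cases hi : 2 ≤ i
  · left
    exact ⟨hi, sy (h p i), h_mem_K p i, Ps j, psz_Ps j,
      Or.inr ⟨h_ne_r p i hi, h_ne_rp p i hi⟩, by rw [ee_ge hi]; rfl⟩
  · by_cases hj : 2 ≤ j
    · right; left
      exact ⟨by omega, hj, sy (h p j), h_mem_K p j, Ps i, psz_Ps i,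
        Or.inr ⟨h_ne_r p j hj, h_ne_rp p j hj⟩, by rw [ee_lt (by omega) hj]; rfl⟩
    · right; right
      have h1 : i = 1 := by omega
      have h2 : j = 1 := by omega
      subst h1; subst h2
      exact ⟨rfl, rfl, p, rfl⟩

/-- Membership of `a`-type edges. -/
theorem a_mem_KS (i : ℕ) (hi : 2 ≤ i) (q : P) :
    s(nd ((bt i).1, leaf) q, nd ((bt i).2, leaf) q) ∈ KS i (psz q) :=
  Or.inl ⟨hi, ef (bt i) leaf, a_mem_K i, q, rfl,
    Or.inr ⟨(r_ne_a i hi).symm, (rp_ne_a i hi).symm⟩, rfl⟩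

theorem b_mem_KS (i : ℕ) (hi : 2 ≤ i) (q : P) :
    s(nd (leaf, (bt i).1) q, nd (leaf, (bt i).2) q) ∈ KS i (psz q) :=
  Or.inl ⟨hi, es leaf (bt i), b_mem_K i, q, rfl,
    Or.inr ⟨(r_ne_b i hi).symm, (rp_ne_b i hi).symm⟩, rfl⟩

theorem a_mem_KS' (j : ℕ) (hj : 2 ≤ j) (p : P) (hp : psz p ≤ 1) :
    s(nd p ((bt j).1, leaf), nd p ((bt j).2, leaf)) ∈ KS (psz p) j :=
  Or.inr (Or.inl ⟨hp, hj, ef (bt j) leaf, a_mem_K j, p, rfl,
    Or.inr ⟨(r_ne_a j hj).symm, (rp_ne_a j hj).symm⟩, rfl⟩)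

theorem b_mem_KS' (j : ℕ) (hj : 2 ≤ j) (p : P) (hp : psz p ≤ 1) :
    s(nd p (leaf, (bt j).1), nd p (leaf, (bt j).2)) ∈ KS (psz p) j :=
  Or.inr (Or.inl ⟨hp, hj, es leaf (bt j), b_mem_K j, p, rfl,
    Or.inr ⟨(r_ne_b j hj).symm, (rp_ne_b j hj).symm⟩, rfl⟩)

end Pool.Agent.Lib.MP_7ee132_co
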