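import Pool.Agent.Lib.MP_7ee132_co.Par

set_option autoImplicit false
set_option linter.unusedSimpArgs false
set_option linter.unusedVariables false

namespace Pool.Agent.Lib.MP_7ee132_co

open T Lab

/-- First, third and last child. -/
def fc : T → T
  | leaf => leaf
  | node a _ _ _ => a
def tc : T → T
  | leaf => leaf
  | node _ _ c _ => c
def lc : T → T
  | leaf => leaf
  | node _ _ _ d => d

/-- The two pairs of children. -/
def p12 : T → P
  | leaf => (leaf, leaf)
  | node a b _ _ => (a, b)
def p34 : T → P
  | leaf => (leaf, leaf)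
  | node _ _ c d => (c, d)

theorem map_sym {α β : Type*} (f : α → β) {a b c d : α} (h : s(a, b) = s(c, d)) :
    s(f a, f b) = s(f c, f d) := by
  have := congrArg (Sym2.map f) h
  exact this

theorem lab_eq_of_sym {v1 v2 a b : P} {L : Lab} (h : s(v1, v2) = s(a, b)) (ha : lab a = L)
    (hb : lab b = L) : lab v1 = L := by
  rcases Sym2.eq_iff.1 h with ⟨rfl, _⟩ | ⟨rfl, _⟩
  · exact ha
  · exact hb

theorem h_fst (p : Bool) (m : ℕ) (hm : 3 ≤ m) : (h p m).1.1 = leaf ∧ (h p m).2.1 = leaf := by
  obtain ⟨m, rfl⟩ : ∃ k, m = k + 3 := ⟨m - 3, by omega⟩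
  cases p <;> exact ⟨rfl, rfl⟩

theorem r_fst (m : ℕ) (hm : 3 ≤ m) : (r m).1.1 = leaf ∧ (r m).2.1 = leaf := by
  obtain ⟨m, rfl⟩ : ∃ k, m = k + 3 := ⟨m - 3, by omega⟩
  exact ⟨rfl, rfl⟩

theorem ee_fc (p : Bool) (i j : ℕ) (hij : 2 ≤ i + j) :
    (fc (ee p i j).1).size ≤ 2 ∧ (fc (ee p i j).2).size ≤ 2 := by
  by_cases hi : 2 ≤ i
  · rw [ee_ge hi]
    show (h p i).1.1.size ≤ 2 ∧ (h p i).2.1.size ≤ 2
    by_cases hi3 : 3 ≤ i
    · have := h_fst p i hi3
      rw [this.1, this.2]; simp
    · have : i = 2 := by omega
      subst this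
      cases p <;> exact ⟨by decide, by decide⟩
  · by_cases hj : 2 ≤ j
    · rw [ee_lt (by omega) hj]
      exact ⟨Nat.zero_le _, Nat.zero_le _⟩
    · have h1 : i = 1 := by omega
      have h2 : j = 1 := by omega
      subst h1; subst h2
      cases p <;> exact ⟨by decide, by decide⟩

theorem h_snd (p : Bool) (m : ℕ) :
    ∃ i j, c i ≠ c 1 ∧ c i ≠ c 2 ∧ c j ≠ c 1 ∧ c j ≠ c 2 ∧
      (h p (m + 3)).1 = (leaf, nd (c i) (Ps m)) ∧ (h p (m + 3)).2 = (leaf, nd (c j) (Ps m)) := by
  cases p
  · exact ⟨5, 6, by decide, by decide, by decide, by decide, rfl, rfl⟩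
  · exact ⟨7, 8, by decide, by decide, by decide, by decide, rfl, rfl⟩

/-- The second entries of `h p m` are never ends of the special tree edges with parity `true`. -/
theorem h_snd_ne (p : Bool) (m k l : ℕ) (hm : 3 ≤ m) (hkl : 2 ≤ k + l) :
    s((h p m).1.2, (h p m).2.2) ≠ s((ee true k l).1, (ee true k l).2) := by
  obtain ⟨m, rfl⟩ : ∃ k, m = k + 3 := ⟨m - 3, by omega⟩
  obtain ⟨i, j, h1, h2, h3, h4, h5, h6⟩ := h_snd p m
  rw [h5, h6]
  intro hc
  have h7 := lift_ne_ee (i := i) (j := j) (m := m) hkl h1 h2
  rcases Sym2.eq_iff.1 hc with ⟨h8, _⟩ | ⟨h8, _⟩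
  · exact h7.1 h8
  · exact h7.2 h8

theorem inj2 {n : ℕ} (hn : 5 ≤ n) {l l' : Lab} (h : Rule n l) (h' : Rule n l') :
    s(pa l, pb l) ≠ s(oa l', ob l') := by
  intro he
  have f' := lab_own hn h'
  have hl : lab (pa l) = l' := lab_eq_of_sym he f'.1 f'.2
  subst hl
  cases h with
  | I i j p q r s h1 h2 =>
    rw [(lab_par_I i j p q r s h1).1, (par_I i j p q r s).1, (par_I i j p q r s).2] at he
    have e2 := ee_size (parL (node p q r s)) i j h1
    refine sym_ne (fun v => (fc v.1).size) ?_ ?_ he
    · cases s with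
      | leaf =>
        rw [(own_R4 _ _ (by omega)).1]
        show (ee _ i j).1.size ≠ 0
        omega
      | node a b c d =>
        rw [(own_I _ _ a b c d).1]
        show (ee _ i j).1.size ≠ (fc (ee _ _ _).1).size
        have := ee_fc (parL (node a b c d)) (i + j + 1 + p.size) (q.size + r.size) (by omega)
        omega
    · cases s with
      | leaf =>
        rw [(own_R4 _ _ (by omega)).2]
        show (ee _ i j).1.size ≠ 0
        omega
      | node a b c d =>
        rw [(own_I _ _ a b c d).2]
        show (ee _ i j).1.size ≠ (fc (ee _ _ _).2).size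
        have := ee_fc (parL (node a b c d)) (i + j + 1 + p.size) (q.size + r.size) (by omega)
        omega
  | J p q r s k l h0 h1 h2 =>
    rw [(lab_par_J p q r s k l h0 h1).1, (par_J p q r s k l).1, (par_J p q r s k l).2] at he
    have e2 := ee_size (parR (node p q r s)) k l h1
    rw [size_node] at h0
    cases p with
    | leaf =>
      refine sym_ne (fun v => (lc v.2).size) ?_ ?_ he
      · rw [(own_R78 _ _ (by omega)).1]
        show (ee _ k l).1.size ≠ 0
        omega
      · rw [(own_R78 _ _ (by omega)).2]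
        show (ee _ k l).1.size ≠ 0
        omega
    | node a b c d =>
      rw [size_node] at h0
      have hq := size_eq_zero (s := q) (by omega)
      have hr := size_eq_zero (s := r) (by omega)
      have hs := size_eq_zero (s := s) (by omega)
      have ha := size_eq_zero (s := a) (by omega)
      have hb := size_eq_zero (s := b) (by omega)
      have hcc := size_eq_zero (s := c) (by omega)
      have hd := size_eq_zero (s := d) (by omega)
      subst hq hr hs ha hb hcc hd
      rw [(own_J _ _ _ _ _ _).1, (own_J _ _ _ _ _ _).2] at he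
      simp only [size_leaf, Nat.zero_add, Nat.add_zero] at he
      have h5 : ee true 0 (k + l + 1) = (nd (Ps 0) (h true (k + l + 1)).1,
        nd (Ps 0) (h true (k + l + 1)).2) := ee_lt (by omega) (by omega)
      have h3 : s((ee true k l).1, (ee true k l).2) =
        s(lc (ee true 0 (k + l + 1)).1, lc (ee true 0 (k + l + 1)).2) :=
        map_sym (fun v : P => lc v.2) he
      rw [h5] at h3
      exact h_snd_ne true (k + l + 1) k l (by omega) h1 h3.symm
  | R3 k l h1 h2 h3 =>
    rw [(lab_par_R3 k l n h1 h2 h3).1, (par_R3 k l h1).1, (par_R3 k l h1).2] at he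
    have h4 := map_sym (fun v => p12 v.1) he
    have h5 : s((oa (A k (l - 1) nu)).1, (ob (A k (l - 1) nu)).1) =
      s((ee true k (l - 1)).1, (ee true k (l - 1)).2) := rfl
    have h6 : s(p12 (oa (A k (l - 1) nu)).1, p12 (ob (A k (l - 1) nu)).1) =
      s(p12 (ee true k (l - 1)).1, p12 (ee true k (l - 1)).2) := map_sym p12 h5
    have h7 := h4.trans h6
    rw [ee_ge h1] at h7
    exact h_ne_b true k h1 h7.symm
  | R4 i j h1 h3 =>
    rw [(lab_par_R4 i j h1).1, (par_R4 i j h1).1, (par_R4 i j h1).2, (own_R3 i j h1).1,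
      (own_R3 i j h1).2] at he
    refine sym_ne (fun v => (lc v.2).size) ?_ ?_ he
    · show (0 : ℕ) ≠ 1
      omega
    · show (0 : ℕ) ≠ 1
      omega
  | R56 i j h1 h3 =>
    rw [(lab_par_R56 i j h1 (by omega)).1, (par_R56 i j h1).1, (par_R56 i j h1).2] at he
    rcases (by omega : i = 0 ∨ i = 1) with rfl | rfl
    · have h5 : t 0 = leaf := rfl
      rw [h5, (own_R3 j 0 (by omega)).1, (own_R3 j 0 (by omega)).2] at he
      refine sym_ne (fun v => (lc v.2).size) ?_ ?_ he
      · show (0 : ℕ) ≠ 1
        omega
      · show (0 : ℕ) ≠ 1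
        omega
    · have h4 := map_sym (fun v => p12 v.2) he
      have h5 : s((oa (B (t 1) j 0)).2, (ob (B (t 1) j 0)).2) =
        s((ee true j 0).1, (ee true j 0).2) := rfl
      have h6 := h4.trans (map_sym p12 h5)
      rw [ee_ge (by omega)] at h6
      exact h_ne_b true j (by omega) h6.symm
  | R78 k l h1 h3 =>
    rw [(lab_par_R78 k l h1 (by omega)).1, (par_R78 k l h1).1, (par_R78 k l h1).2,
      (own_R56 k l h1).1, (own_R56 k l h1).2] at he
    have e := size_bt l (by omega)
    refine sym_ne (fun v => (lc v.1).size) ?_ ?_ he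
    · show (bt l).1.size ≠ 0
      omega
    · show (bt l).1.size ≠ 0
      omega

/-- The first entries of the parent edges. -/
theorem par_first {n : ℕ} (hn : 5 ≤ n) {l : Lab} (h : Rule n l) :
    (pa l).1.size ≤ 1 ∨ 3 ≤ (pa l).1.size := by
  cases h with
  | I i j p q r s h1 h2 =>
    have e2 := ee_size (parL (node p q r s)) i j h1
    rw [(par_I i j p q r s).1]
    right
    show 3 ≤ (node _ _ _ _).size
    rw [size_node]; omega
  | J p q r s k l h0 h1 h2 =>
    rw [(par_J p q r s k l).1]
    rw [size_node] at h0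
    left
    show p.size ≤ 1
    omega
  | R3 k l h1 h2 h3 =>
    have e := size_bt k h1
    rw [(par_R3 k l h1).1]
    right
    show 3 ≤ (node _ _ _ _).size
    simp only [size_node, size_leaf, size_t]; omega
  | R4 i j h1 h3 => rw [(par_R4 i j h1).1]; left; simp
  | R56 i j h1 h3 =>
    rw [(par_R56 i j h1).1]; left
    show (t i).size ≤ 1
    rw [size_t]; omega
  | R78 k l h1 h3 =>
    have e := size_bt l (by omega)
    rw [(par_R78 k l h1).1]
    right
    show 3 ≤ (node _ _ _ _).size
    simp only [size_node, size_leaf, size_t]; omega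

/-- An edge is free at level `n`. -/
def Free (n : ℕ) (e : Sym2 P) : Prop :=
  (∃ v ∈ E n, e ∈ KL (lab v)) ∧ ∀ l, Rule n l → e ≠ s(oa l, ob l) ∧ e ≠ s(pa l, pb l)

theorem free_a {n : ℕ} (hn : 5 ≤ n) : Free n (ef (bt n) leaf) := by
  have hs := size_bt n (by omega)
  have hr := r_fst (n - 1) (by omega)
  have hp := psz_r (n - 1) (by omega)
  have hlab : lab ((bt n).1, leaf) = A (n - 1) 0 leaf := by
    rw [lab_A (by omega)]
    have h1 : ty1 (bt n).1 = n - 1 := hp.1
    have h2 : ty2 (bt n).1 = 0 := rfl
    rw [h1, h2]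
  constructor
  · refine ⟨((bt n).1, leaf), by show (bt n).1.size + 0 = n; omega, ?_⟩
    rw [hlab]
    refine ⟨s((bt n).1, (bt n).2), ?_, rfl⟩
    left
    exact ⟨by omega, sy (r (n - 1)), r_mem_K _, o, rfl, Or.inl rfl, rfl⟩
  · intro l hl
    constructor
    · intro he
      have f := lab_own hn hl
      have hl' : A (n - 1) 0 leaf = l := hlab.symm.trans (lab_eq_of_sym he f.1 f.2)
      rw [← hl', (own_R4 _ _ (by omega)).1, (own_R4 _ _ (by omega)).2] at he
      have h1 := map_sym (fun v => p12 v.1) he
      exact r_ne_b (n - 1) (by omega) h1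
    · cases hl with
      | I i j p q r' s h1 h2 =>
        have e2 := ee_size (parL (node p q r' s)) i j h1
        rw [(par_I i j p q r' s).1, (par_I i j p q r' s).2]
        refine sym_ne (fun v => (fc v.1).size) ?_ ?_
        · show (r _).1.1.size ≠ (ee _ _ _).1.size
          rw [hr.1]; simp; omega
        · show (r _).1.1.size ≠ (ee _ _ _).2.size
          rw [hr.1]; simp; omega
      | J p q r s k l h0 h1 h2 =>
        rw [(par_J p q r s k l).1, (par_J p q r s k l).2]
        rw [size_node] at h0
        refine sym_ne (fun v => v.1.size) ?_ ?_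
        · show (bt n).1.size ≠ p.size
          omega
        · show (bt n).1.size ≠ p.size
          omega
      | R3 k l h1 h2 h3 =>
        rw [(par_R3 k l h1).1, (par_R3 k l h1).2]
        refine sym_ne (fun v => v.2.size) ?_ ?_
        · show (0 : ℕ) ≠ 1
          omega
        · show (0 : ℕ) ≠ 1
          omega
      | R4 i j h1 h3 =>
        rw [(par_R4 i j h1).1, (par_R4 i j h1).2]
        refine sym_ne (fun v => v.1.size) ?_ ?_
        · show (bt n).1.size ≠ 0
          omega
        · show (bt n).1.size ≠ 0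
          omega
      | R56 i j h1 h3 =>
        rw [(par_R56 i j h1).1, (par_R56 i j h1).2]
        refine sym_ne (fun v => v.1.size) ?_ ?_
        · show (bt n).1.size ≠ (t i).size
          rw [size_t]; omega
        · show (bt n).1.size ≠ (t i).size
          rw [size_t]; omega
      | R78 k l h1 h3 =>
        have e := size_bt l (by omega)
        rw [(par_R78 k l h1).1, (par_R78 k l h1).2]
        refine sym_ne (fun v => (lc v.1).size) ?_ ?_
        · show (0 : ℕ) ≠ (bt l).1.size
          omega
        · show (0 : ℕ) ≠ (bt l).2.size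
          omega

theorem free_b {n : ℕ} (hn : 5 ≤ n) : Free n (es leaf (bt n)) := by
  have hs := size_bt n (by omega)
  have hr := r_fst (n - 1) (by omega)
  have hp := psz_r (n - 1) (by omega)
  have hlab : lab (leaf, (bt n).1) = B leaf (n - 1) 0 := by
    rw [lab_B (by simp)]
    have h1 : ty1 (bt n).1 = n - 1 := hp.1
    have h2 : ty2 (bt n).1 = 0 := rfl
    rw [h1, h2]
  constructor
  · refine ⟨(leaf, (bt n).1), by show 0 + (bt n).1.size = n; omega, ?_⟩
    rw [hlab]
    refine ⟨s((bt n).1, (bt n).2), ?_, rfl⟩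
    left
    exact ⟨by omega, sy (r (n - 1)), r_mem_K _, o, rfl, Or.inl rfl, rfl⟩
  · intro l hl
    constructor
    · intro he
      have f := lab_own hn hl
      have hl' : l = B leaf (n - 1) 0 := (lab_eq_of_sym he f.1 f.2).symm.trans hlab
      subst hl'
      generalize hk : n - 1 = k at hl
      generalize hz : (0 : ℕ) = z at hl
      cases hl <;> omega
    · cases hl with
      | I i j p q r s h1 h2 =>
        have e2 := ee_size (parL (node p q r s)) i j h1
        rw [(par_I i j p q r s).1, (par_I i j p q r s).2]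
        refine sym_ne (fun v => v.1.size) ?_ ?_
        · show (0 : ℕ) ≠ (node _ _ _ _).size
          rw [size_node]; omega
        · show (0 : ℕ) ≠ (node _ _ _ _).size
          rw [size_node]; omega
      | J p q r s k l h0 h1 h2 =>
        have e2 := ee_size (parR (node p q r s)) k l h1
        rw [(par_J p q r s k l).1, (par_J p q r s k l).2]
        refine sym_ne (fun v => (lc v.2).size) ?_ ?_
        · show (0 : ℕ) ≠ (ee _ _ _).1.size
          omega
        · show (0 : ℕ) ≠ (ee _ _ _).2.size
          omega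
      | R3 k l h1 h2 h3 =>
        rw [(par_R3 k l h1).1, (par_R3 k l h1).2]
        refine sym_ne (fun v => v.1.size) ?_ ?_
        · show (0 : ℕ) ≠ (node _ _ _ _).size
          rw [size_node]; omega
        · show (0 : ℕ) ≠ (node _ _ _ _).size
          rw [size_node]; omega
      | R4 i j h1 h3 =>
        have e := size_bt i h1
        rw [(par_R4 i j h1).1, (par_R4 i j h1).2]
        refine sym_ne (fun v => (fc v.2).size) ?_ ?_
        · show (r _).1.1.size ≠ (bt i).1.size
          rw [hr.1]; simp; omega
        · show (r _).1.1.size ≠ (bt i).2.size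
          rw [hr.1]; simp; omega
      | R56 i j h1 h3 =>
        rw [(par_R56 i j h1).1, (par_R56 i j h1).2]
        rcases (by omega : i = 0 ∨ i = 1) with rfl | rfl
        · intro he
          have h4 := map_sym (fun v => p12 v.2) he
          have hj : j = n - 1 := by omega
          subst hj
          exact r_ne_b (n - 1) (by omega) h4
        · refine sym_ne (fun v => v.1.size) ?_ ?_
          · show (0 : ℕ) ≠ 1
            omega
          · show (0 : ℕ) ≠ 1
            omega
      | R78 k l h1 h3 =>
        rw [(par_R78 k l h1).1, (par_R78 k l h1).2]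
        refine sym_ne (fun v => v.1.size) ?_ ?_
        · show (0 : ℕ) ≠ (node _ _ _ _).size
          rw [size_node]; omega
        · show (0 : ℕ) ≠ (node _ _ _ _).size
          rw [size_node]; omega

theorem free_lift {m : ℕ} (hm : 2 ≤ m) (i j : ℕ) (h1 : s(c i, c j) ∈ K 2)
    (h2 : s(c i, c j) ≠ sy (r 2)) (h3 : s(c i, c j) ≠ sy (rp 2)) :
    Free (m + 3) (sy (lift (c i) (c j) m)) := by
  have hlab : lab (leaf, nd (c i) (Ps m)) = B leaf 2 m := by
    rw [lab_B (by simp), ty1_nd, ty2_nd, psz_c, psz_Ps]
  constructor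
  · refine ⟨(leaf, nd (c i) (Ps m)), ?_, ?_⟩
    · show 0 + (nd (c i) (Ps m)).size = m + 3
      rw [size_nd, psz_c, psz_Ps]; omega
    · rw [hlab]
      refine ⟨s(nd (c i) (Ps m), nd (c j) (Ps m)), ?_, rfl⟩
      left
      exact ⟨le_refl 2, s(c i, c j), h1, Ps m, psz_Ps m, Or.inr ⟨h2, h3⟩, rfl⟩
  · intro l hl
    constructor
    · intro he
      have f := lab_own (by omega) hl
      have hl' : l = B leaf 2 m := (lab_eq_of_sym he f.1 f.2).symm.trans hlab
      subst hl'
      rw [(own_R3 _ _ (le_refl 2)).1, (own_R3 _ _ (le_refl 2)).2] at he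
      refine sym_ne (fun v => (lc v.2).size) ?_ ?_ he
      · show (t m).size ≠ 1
        rw [size_t]; omega
      · show (t m).size ≠ 1
        rw [size_t]; omega
    · cases hl with
      | I i' j' p q r s h1 h2 =>
        rw [(par_I i' j' p q r s).1, (par_I i' j' p q r s).2]
        refine sym_ne (fun v => v.1.size) ?_ ?_
        · show (0 : ℕ) ≠ (node _ _ _ _).size
          rw [size_node]; omega
        · show (0 : ℕ) ≠ (node _ _ _ _).size
          rw [size_node]; omega
      | J p q r s k l h0 h1 h2 =>
        rw [(par_J p q r s k l).1, (par_J p q r s k l).2]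
        rw [size_node] at h0
        refine sym_ne (fun v => ty1 v.2) ?_ ?_
        · show psz (c i) ≠ q.size + r.size
          rw [psz_c]; omega
        · show psz (c i) ≠ q.size + r.size
          rw [psz_c]; omega
      | R3 k l h1 h2 h3 =>
        rw [(par_R3 k l h1).1, (par_R3 k l h1).2]
        refine sym_ne (fun v => v.1.size) ?_ ?_
        · show (0 : ℕ) ≠ (node _ _ _ _).size
          rw [size_node]; omega
        · show (0 : ℕ) ≠ (node _ _ _ _).size
          rw [size_node]; omega
      | R4 i' j' h1 h3 =>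
        rw [(par_R4 i' j' h1).1, (par_R4 i' j' h1).2]
        refine sym_ne (fun v => (lc v.2).size) ?_ ?_
        · show (t m).size ≠ 0
          rw [size_t]; omega
        · show (t m).size ≠ 0
          rw [size_t]; omega
      | R56 i' j' h1 h3 =>
        rw [(par_R56 i' j' h1).1, (par_R56 i' j' h1).2]
        refine sym_ne (fun v => (lc v.2).size) ?_ ?_
        · show (t m).size ≠ 0
          rw [size_t]; omega
        · show (t m).size ≠ 0
          rw [size_t]; omega
      | R78 k l h1 h3 =>
        rw [(par_R78 k l h1).1, (par_R78 k l h1).2]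
        refine sym_ne (fun v => v.1.size) ?_ ?_
        · show (0 : ℕ) ≠ (node _ _ _ _).size
          rw [size_node]; omega
        · show (0 : ℕ) ≠ (node _ _ _ _).size
          rw [size_node]; omega

end Pool.Agent.Lib.MP_7ee132_co
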