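import Pool.Agent.Lib.MP_7ee132_co.Keep

set_option autoImplicit false
set_option linter.unusedSimpArgs false
set_option linter.unusedVariables false

namespace Pool.Agent.Lib.MP_7ee132_co

open T Lab

theorem free_G {n : ℕ} (hn : 5 ≤ n) (i j : ℕ) (w : T) (hij : 2 ≤ i + j)
    (hw : i + j + 1 + w.size = n) : Free n (ef (ee (!parL w) i j) w) := by
  have hs := ee_size (!parL w) i j hij
  have hty := ee_ty (!parL w) i j hij
  have hfc := ee_fc (!parL w) i j hij
  have hlab : lab ((ee (!parL w) i j).1, w) = A i j w := by
    rw [lab_A (by omega), hty.1.1, hty.1.2]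
  constructor
  · refine ⟨((ee (!parL w) i j).1, w), by show (ee (!parL w) i j).1.size + w.size = n; omega, ?_⟩
    rw [hlab]
    exact ⟨sy (ee (!parL w) i j), ee_mem_KS _ i j hij, rfl⟩
  · intro l hl
    constructor
    · intro he
      have f := lab_own hn hl
      have hl' : A i j w = l := hlab.symm.trans (lab_eq_of_sym he f.1 f.2)
      subst hl'
      cases w with
      | leaf =>
        by_cases hi : 2 ≤ i
        · rw [(own_R4 _ _ hi).1, (own_R4 _ _ hi).2, ee_ge hi] at he
          have h1 := map_sym (fun v : P => p12 v.1) he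
          exact h_ne_b true i hi h1
        · have hj : 2 ≤ j := by simp at hw; omega
          have hsz := size_bt j hj
          rw [(own_R56 _ _ (by omega)).1, (own_R56 _ _ (by omega)).2, ee_lt (by omega) hj] at he
          have h1 := map_sym (fun v : P => p34 v.1) he
          exact h_ne_a true j hj h1
      | node a b c' d =>
        rw [(own_I _ _ _ _ _ _).1, (own_I _ _ _ _ _ _).2] at he
        have h1 := map_sym (fun v : P => v.1) he
        cases hpar : parL (node a b c' d) with
        | false =>
          rw [hpar] at h1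
          exact ee_ne_ee i j hij h1
        | true =>
          rw [hpar] at h1
          exact ee_ne_ee i j hij h1.symm
    · cases hl with
      | I i' j' p q r' s h1 h2 =>
        have e2 := ee_size (parL (node p q r' s)) i' j' h1
        rw [(par_I i' j' p q r' s).1, (par_I i' j' p q r' s).2]
        refine sym_ne (fun v => (fc v.1).size) ?_ ?_
        · show (fc (ee _ i j).1).size ≠ (ee _ _ _).1.size
          omega
        · show (fc (ee _ i j).1).size ≠ (ee _ _ _).2.size
          omega
      | J p q r' s k l h0 h1 h2 =>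
        rw [(par_J p q r' s k l).1, (par_J p q r' s k l).2]
        rw [size_node] at h0
        refine sym_ne (fun v => v.1.size) ?_ ?_
        · show (ee _ i j).1.size ≠ p.size
          omega
        · show (ee _ i j).1.size ≠ p.size
          omega
      | R3 k l h1 h2 h3 =>
        intro he
        have hl := lab_par_R3 k l n h1 h2 h3
        have hl' : A i j w = A k (l - 1) nu := hlab.symm.trans (lab_eq_of_sym he hl.1 hl.2)
        rw [A.injEq] at hl'
        obtain ⟨rfl, rfl, rfl⟩ := hl'
        rw [(par_R3 _ l h1).1, (par_R3 _ l h1).2, ee_ge h1] at he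
        have h4 := map_sym (fun v : P => p12 v.1) he
        exact h_ne_b false _ h1 h4
      | R4 i' j' h1 h3 =>
        rw [(par_R4 i' j' h1).1, (par_R4 i' j' h1).2]
        refine sym_ne (fun v => v.1.size) ?_ ?_
        · show (ee _ i j).1.size ≠ 0
          omega
        · show (ee _ i j).1.size ≠ 0
          omega
      | R56 i' j' h1 h3 =>
        rw [(par_R56 i' j' h1).1, (par_R56 i' j' h1).2]
        refine sym_ne (fun v => v.1.size) ?_ ?_
        · show (ee _ i j).1.size ≠ (t i').size
          rw [size_t]; omega
        · show (ee _ i j).1.size ≠ (t i').size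
          rw [size_t]; omega
      | R78 k l h1 h3 =>
        intro he
        have hl := lab_par_R78 k l h1 (by omega)
        have hl' : A i j w = A k l leaf := hlab.symm.trans (lab_eq_of_sym he hl.1 hl.2)
        rw [A.injEq] at hl'
        obtain ⟨rfl, rfl, rfl⟩ := hl'
        rw [(par_R78 _ _ h1).1, (par_R78 _ _ h1).2, ee_lt h1 (by omega)] at he
        have h4 := map_sym (fun v : P => p34 v.1) he
        exact h_ne_b true _ (by omega) h4

theorem free_J1 {n : ℕ} (hn : 5 ≤ n) (k l : ℕ) (hkl : 2 ≤ k + l) (hw : k + l + 1 = n) :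
    Free n (es leaf (ee true k l)) := by
  have hs := ee_size true k l hkl
  have hty := ee_ty true k l hkl
  have hlab : lab (leaf, (ee true k l).1) = B leaf k l := by
    rw [lab_B (by simp), hty.1.1, hty.1.2]
  constructor
  · refine ⟨(leaf, (ee true k l).1), by show 0 + (ee true k l).1.size = n; omega, ?_⟩
    rw [hlab]
    exact ⟨sy (ee true k l), ee_mem_KS _ k l hkl, rfl⟩
  · intro l' hl
    constructor
    · intro he
      have f := lab_own hn hl
      have hl' : B leaf k l = l' := hlab.symm.trans (lab_eq_of_sym he f.1 f.2)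
      subst hl'
      by_cases hi : 2 ≤ k
      · rw [(own_R3 _ _ hi).1, (own_R3 _ _ hi).2, ee_ge hi] at he
        have h1 := map_sym (fun v : P => p12 v.2) he
        exact h_ne_a true k hi h1
      · rw [(own_R78 _ _ (by omega)).1, (own_R78 _ _ (by omega)).2,
          ee_lt (by omega) (by omega)] at he
        have h1 := map_sym (fun v : P => p34 v.2) he
        exact h_ne_a true l (by omega) h1
    · cases hl with
      | I i' j' p q r' s h1 h2 =>
        rw [(par_I i' j' p q r' s).1, (par_I i' j' p q r' s).2]
        refine sym_ne (fun v => v.1.size) ?_ ?_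
        · show (0 : ℕ) ≠ (node _ _ _ _).size
          rw [size_node]; omega
        · show (0 : ℕ) ≠ (node _ _ _ _).size
          rw [size_node]; omega
      | J p q r' s k' l' h0 h1 h2 =>
        intro he
        have hl := lab_par_J p q r' s k' l' h0 h1
        have hl' : B leaf k l = B p (q.size + r'.size) (s.size + (k' + l' + 1)) :=
          hlab.symm.trans (lab_eq_of_sym he hl.1 hl.2)
        rw [B.injEq] at hl'
        obtain ⟨rfl, hk, hl2⟩ := hl'
        rw [(par_J _ q r' s k' l').1, (par_J _ q r' s k' l').2] at he
        simp only [size_node, size_leaf] at h0 h2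
        have h5 : ee true k l = (nd (Ps k) (h true l).1, nd (Ps k) (h true l).2) :=
          ee_lt (by omega) (by omega)
        rw [h5] at he
        -- the third child is a leaf, the last child is the second entry
        have h6 : s((h true l).1.2, (h true l).2.2) =
          s((ee (parR (node leaf q r' s)) k' l').1, (ee (parR (node leaf q r' s)) k' l').2) :=
          map_sym (fun v : P => lc v.2) he
        have h7 : s((h true l).1.1, (h true l).2.1) = s(s, s) :=
          map_sym (fun v : P => tc v.2) he
        have h8 : s = leaf := by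
          rcases Sym2.eq_iff.1 h7 with ⟨h9, _⟩ | ⟨h9, _⟩
          · rw [← h9]; exact (h_fst true l (by omega)).1
          · rw [← h9]; exact (h_fst true l (by omega)).1
        subst h8
        exact h_snd_ne true l k' l' (by omega) h1 h6
      | R3 k' l' h1 h2 h3 =>
        rw [(par_R3 k' l' h1).1, (par_R3 k' l' h1).2]
        refine sym_ne (fun v => v.1.size) ?_ ?_
        · show (0 : ℕ) ≠ (node _ _ _ _).size
          rw [size_node]; omega
        · show (0 : ℕ) ≠ (node _ _ _ _).size
          rw [size_node]; omega
      | R4 i' j' h1 h3 =>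
        intro he
        have hl := lab_par_R4 i' j' h1
        have hl' : B leaf k l = B leaf i' j' := hlab.symm.trans (lab_eq_of_sym he hl.1 hl.2)
        rw [B.injEq] at hl'
        obtain ⟨_, rfl, rfl⟩ := hl'
        rw [(par_R4 _ _ h1).1, (par_R4 _ _ h1).2, ee_ge h1] at he
        have h4 := map_sym (fun v : P => p12 v.2) he
        exact h_ne_a true _ h1 h4
      | R56 i' j' h1 h3 =>
        intro he
        have hl := lab_par_R56 i' j' h1 (by omega)
        have hl' : B leaf k l = B (t i') j' 0 := hlab.symm.trans (lab_eq_of_sym he hl.1 hl.2)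
        rw [B.injEq] at hl'
        obtain ⟨hti, rfl, rfl⟩ := hl'
        rw [(par_R56 _ _ h1).1, (par_R56 _ _ h1).2, ee_ge (by omega)] at he
        have h4 := map_sym (fun v : P => p12 v.2) he
        exact h_ne_b true _ (by omega) h4
      | R78 k' l' h1 h3 =>
        rw [(par_R78 k' l' h1).1, (par_R78 k' l' h1).2]
        refine sym_ne (fun v => v.1.size) ?_ ?_
        · show (0 : ℕ) ≠ (node _ _ _ _).size
          rw [size_node]; omega
        · show (0 : ℕ) ≠ (node _ _ _ _).size
          rw [size_node]; omega

theorem free_J2 {n : ℕ} (hn : 5 ≤ n) (k l : ℕ) (hkl : 2 ≤ k + l) (hw : k + l + 2 = n) :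
    Free n (es nu (ee false k l)) := by
  have hs := ee_size false k l hkl
  have hty := ee_ty false k l hkl
  have hlab : lab (nu, (ee false k l).1) = B nu k l := by
    rw [lab_B (by decide), hty.1.1, hty.1.2]
  constructor
  · refine ⟨(nu, (ee false k l).1), by show 1 + (ee false k l).1.size = n; omega, ?_⟩
    rw [hlab]
    exact ⟨sy (ee false k l), ee_mem_KS _ k l hkl, rfl⟩
  · intro l' hl
    constructor
    · intro he
      have f := lab_own hn hl
      have hl' : B nu k l = l' := hlab.symm.trans (lab_eq_of_sym he f.1 f.2)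
      subst hl'
      have h1 : s((ee false k l).1, (ee false k l).2) = s((ee true k l).1, (ee true k l).2) :=
        map_sym (fun v : P => v.2) he
      exact ee_ne_ee k l hkl h1.symm
    · cases hl with
      | I i' j' p q r' s h1 h2 =>
        have e2 := ee_size (parL (node p q r' s)) i' j' h1
        rw [(par_I i' j' p q r' s).1, (par_I i' j' p q r' s).2]
        refine sym_ne (fun v => v.1.size) ?_ ?_
        · show (1 : ℕ) ≠ (node _ _ _ _).size
          rw [size_node]; omega
        · show (1 : ℕ) ≠ (node _ _ _ _).size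
          rw [size_node]; omega
      | J p q r' s k' l' h0 h1 h2 =>
        intro he
        have hl := lab_par_J p q r' s k' l' h0 h1
        have hl' : B nu k l = B p (q.size + r'.size) (s.size + (k' + l' + 1)) :=
          hlab.symm.trans (lab_eq_of_sym he hl.1 hl.2)
        rw [B.injEq] at hl'
        obtain ⟨rfl, hk, hl2⟩ := hl'
        have hnu : nu.size = 1 := rfl
        rw [size_node, hnu] at h0
        have hq := size_eq_zero (s := q) (by omega)
        have hr := size_eq_zero (s := r') (by omega)
        have hs := size_eq_zero (s := s) (by omega)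
        subst hq hr hs
        simp only [size_leaf, Nat.zero_add, Nat.add_zero] at hk hl2
        subst hk
        rw [(par_J _ _ _ _ k' l').1, (par_J _ _ _ _ k' l').2] at he
        have h5 : ee false 0 l = (nd (Ps 0) (h false l).1, nd (Ps 0) (h false l).2) :=
          ee_lt (by omega) (by omega)
        rw [h5] at he
        have h6 : s((h false l).1.2, (h false l).2.2) =
          s((ee true k' l').1, (ee true k' l').2) :=
          map_sym (fun v : P => lc v.2) he
        exact h_snd_ne false l k' l' (by omega) h1 h6
      | R3 k' l' h1 h2 h3 =>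
        have e := size_bt k' h1
        rw [(par_R3 k' l' h1).1, (par_R3 k' l' h1).2]
        refine sym_ne (fun v => v.1.size) ?_ ?_
        · show (1 : ℕ) ≠ (node _ _ _ _).size
          rw [size_node]; omega
        · show (1 : ℕ) ≠ (node _ _ _ _).size
          rw [size_node]; omega
      | R4 i' j' h1 h3 =>
        rw [(par_R4 i' j' h1).1, (par_R4 i' j' h1).2]
        refine sym_ne (fun v => v.1.size) ?_ ?_
        · show (1 : ℕ) ≠ 0
          omega
        · show (1 : ℕ) ≠ 0
          omega
      | R56 i' j' h1 h3 =>
        intro he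
        have hl := lab_par_R56 i' j' h1 (by omega)
        have hl' : B nu k l = B (t i') j' 0 := hlab.symm.trans (lab_eq_of_sym he hl.1 hl.2)
        rw [B.injEq] at hl'
        obtain ⟨hti, rfl, rfl⟩ := hl'
        have hi' : i' = 1 := by
          have := congrArg T.size hti
          rw [size_t] at this
          exact this.symm
        subst hi'
        rw [(par_R56 _ _ h1).1, (par_R56 _ _ h1).2, ee_ge (by omega)] at he
        have h4 := map_sym (fun v : P => p12 v.2) he
        exact h_ne_b false _ (by omega) h4
      | R78 k' l' h1 h3 =>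
        have e := size_bt l' (by omega)
        rw [(par_R78 k' l' h1).1, (par_R78 k' l' h1).2]
        refine sym_ne (fun v => v.1.size) ?_ ?_
        · show (1 : ℕ) ≠ (node _ _ _ _).size
          rw [size_node]; omega
        · show (1 : ℕ) ≠ (node _ _ _ _).size
          rw [size_node]; omega

theorem free_K {n : ℕ} (hn : 5 ≤ n) {e : Sym2 P} (he : e ∈ K n) : Free n e := by
  obtain ⟨m, rfl⟩ : ∃ m, n = m + 3 := ⟨n - 3, by omega⟩
  rcases he with rfl | rfl | rfl | rfl | ⟨p, rfl⟩ | ⟨i, j, w, h1, h2, rfl⟩ | ⟨k, l, h1, h2, rfl⟩ |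
    ⟨k, l, h1, h2, rfl⟩ | ⟨h1, rfl⟩
  · exact free_a hn
  · exact free_b hn
  · refine free_lift (by omega) 3 4 (h_mem_K false 2) (by decide) (by decide)
  · refine free_lift (by omega) 0 1 ?_ (by decide) (by decide)
    right; right; right; right; right; right; right; right
    exact ⟨rfl, rfl⟩
  · cases p
    · exact free_lift (by omega) 5 6 (b_mem_K 2) (by decide) (by decide)
    · exact free_lift (by omega) 7 8 (a_mem_K 2) (by decide) (by decide)
  · exact free_G hn i j w h1 h2
  · exact free_J1 hn k l h1 h2
  · exact free_J2 hn k l h1 h2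
  · omega

theorem block_eq_A {n : ℕ} (s w : T) (hs : 3 ≤ s.size) (hn : s.size + w.size = n) :
    {v | v ∈ E n ∧ lab v = lab (s, w)} = (fun s' => (s', w)) '' TT (ty1 s) (ty2 s) := by
  have hsz := size_ty (s := s) (by omega)
  ext ⟨s', w'⟩
  constructor
  · rintro ⟨hv, hl⟩
    rw [lab_A hs] at hl
    have hs' : 3 ≤ s'.size := by
      by_contra hc
      rw [lab_B (by omega)] at hl
      exact Lab.noConfusion hl
    rw [lab_A hs', A.injEq] at hl
    obtain ⟨h1, h2, rfl⟩ := hl
    refine ⟨s', ?_, rfl⟩
    cases s' with
    | leaf => simp at hs'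
    | node a b c' d => exact ⟨(a, b), (c', d), rfl, h1, h2⟩
  · rintro ⟨s'', ⟨p, q, rfl, h1, h2⟩, h3⟩
    simp only [Prod.mk.injEq] at h3
    obtain ⟨rfl, rfl⟩ := h3
    refine ⟨?_, ?_⟩
    · show (nd p q).size + w.size = n
      rw [size_nd]; omega
    · rw [lab_A (by rw [size_nd]; omega), lab_A hs, ty1_nd, ty2_nd, h1, h2]

theorem block_eq_B {n : ℕ} (s w : T) (hs : s.size ≤ 2) (hw : 1 ≤ w.size) (hn : s.size + w.size = n) :
    {v | v ∈ E n ∧ lab v = lab (s, w)} = (fun u => (s, u)) '' TT (ty1 w) (ty2 w) := by
  have hsz := size_ty (s := w) hw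
  ext ⟨s', w'⟩
  constructor
  · rintro ⟨hv, hl⟩
    have hv' : s'.size + w'.size = n := hv
    rw [lab_B hs] at hl
    have hs' : s'.size ≤ 2 := by
      by_contra hc
      rw [lab_A (by omega)] at hl
      exact Lab.noConfusion hl
    rw [lab_B hs', B.injEq] at hl
    obtain ⟨rfl, h1, h2⟩ := hl
    refine ⟨w', ?_, rfl⟩
    cases w' with
    | leaf => simp at hv'; omega
    | node a b c' d => exact ⟨(a, b), (c', d), rfl, h1, h2⟩
  · rintro ⟨s'', ⟨p, q, rfl, h1, h2⟩, h3⟩
    simp only [Prod.mk.injEq] at h3
    obtain ⟨rfl, rfl⟩ := h3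
    refine ⟨?_, ?_⟩
    · show s.size + (nd p q).size = n
      rw [size_nd]; omega
    · rw [lab_B hs, lab_B hs, ty1_nd, ty2_nd, h1, h2]

/-- The main step. -/
theorem step {n : ℕ} (hn : 5 ≤ n) (IH : ∀ m, 2 ≤ m → m < n → HC R (E m) (K m)) :
    HC R (E n) (K n) := by
  have G := HC.tree (E_finite n) R_symm lab (root n) ?_ KL ?_ (rk n) oa ob pa pb ?_ ?_ ?_
  · apply G.mono
    intro e he
    have hf := free_K hn he
    refine ⟨hf.1, ?_⟩
    intro v hv hr
    exact hf.2 _ (rule_of_mem hn hv hr)
  · refine ⟨(leaf, (bt n).1), ?_, ?_⟩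
    · have hs := size_bt n (by omega)
      show 0 + (bt n).1.size = n
      omega
    · rw [lab_B (by simp)]
      have h1 : ty1 (bt n).1 = n - 1 := (ty_bt n (by omega)).1
      have h2 : ty2 (bt n).1 = 0 := rfl
      rw [h1, h2]; rfl
  · rintro ⟨s, w⟩ hv
    have hv' : s.size + w.size = n := hv
    by_cases hs : 3 ≤ s.size
    · rw [block_eq_A s w hs hv', lab_A hs]
      have hsz := size_ty (s := s) (by omega)
      exact (HC_slot (ty1 s) (ty2 s) (by omega) (fun h => IH _ h (by omega))
        (fun h => IH _ h (by omega))).map (fun s' => (s', w))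
        (fun a b hab => congrArg Prod.fst hab) (fun a b hab => hab.first w)
    · rw [block_eq_B s w (by omega) (by omega) hv', lab_B (by omega)]
      have hsz := size_ty (s := w) (by omega)
      exact (HC_slot (ty1 w) (ty2 w) (by omega) (fun h => IH _ h (by omega))
        (fun h => IH _ h (by omega))).map (fun u => (s, u))
        (fun a b hab => congrArg Prod.snd hab) (fun a b hab => hab.second s)
  · intro v hv hr
    have hl := rule_of_mem hn hv hr
    exact ⟨own_mem hn hl, pa_mem_E hn hl, par_mem hn hl, rk_par hn hl, (R_par hn hl).1,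
      (R_par hn hl).2⟩
  · intro v hv v' hv' hr hr' he
    exact inj1 hn (rule_of_mem hn hv hr) (rule_of_mem hn hv' hr') he
  · intro v hv v' hv' hr hr'
    exact inj2 hn (rule_of_mem hn hv hr) (rule_of_mem hn hv' hr')

end Pool.Agent.Lib.MP_7ee132_co
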