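import Pool.Agent.Lib.MP_7ee132_co.Facts

set_option autoImplicit false
set_option linter.unusedSimpArgs false
set_option linter.unusedVariables false

namespace Pool.Agent.Lib.MP_7ee132_co

open T

/-- Labels of blocks. -/
inductive Lab : Type
  | A : ℕ → ℕ → T → Lab
  | B : T → ℕ → ℕ → Lab

open Lab

/-- The block of a pair. -/
def lab (p : P) : Lab := if 3 ≤ p.1.size then A (ty1 p.1) (ty2 p.1) p.2 else B p.1 (ty1 p.2) (ty2 p.2)

theorem lab_A {s w : T} (h : 3 ≤ s.size) : lab (s, w) = A (ty1 s) (ty2 s) w := by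
  simp [lab, h]

theorem lab_B {s w : T} (h : s.size ≤ 2) : lab (s, w) = B s (ty1 w) (ty2 w) := by
  have : ¬ 3 ≤ s.size := by omega
  simp [lab, this]

/-- The kept edges of a block. -/
def KL : Lab → Set (Sym2 P)
  | A i j w => Sym2.map (fun s => (s, w)) '' KS i j
  | B s k l => Sym2.map (fun u => (s, u)) '' KS k l

/-- The tree edge through which a block is attached. -/
def ow : Lab → T × T
  | A i j leaf => if 2 ≤ i then (nd (leaf, (bt i).1) (Ps j), nd (leaf, (bt i).2) (Ps j))
      else (nd (t i, leaf) ((bt j).1, leaf), nd (t i, leaf) ((bt j).2, leaf))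
  | A i j (node p q r s) => ee (parL (node p q r s)) i j
  | B leaf k l => if 2 ≤ k then (nd ((bt k).1, leaf) (t (l - 1), nu), nd ((bt k).2, leaf) (t (l - 1), nu))
      else (nd (t k, leaf) ((bt l).1, leaf), nd (t k, leaf) ((bt l).2, leaf))
  | B (node p q r s) k l => ee (parR (node p q r s)) k l

/-- The ends of the attaching edge. -/
def oa : Lab → P
  | A i j w => ((ow (A i j w)).1, w)
  | B s k l => (s, (ow (B s k l)).1)

def ob : Lab → P
  | A i j w => ((ow (A i j w)).2, w)
  | B s k l => (s, (ow (B s k l)).2)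

/-- The move towards the first entry. -/
def up : P → P
  | (p, node q r s u) => (node p q r s, u)
  | (p, leaf) => (p, leaf)

/-- The move towards the second entry. -/
def dn : P → P
  | (node p q r s, u) => (p, node q r s u)
  | (leaf, u) => (leaf, u)

/-- The edge of the parent block. -/
def pm : Lab → P → P
  | A _ _ leaf, v => dn v
  | A _ _ (node _ _ _ _), v => up v
  | B leaf _ _, v => up v
  | B (node _ _ _ _) _ _, v => dn v

def pa (l : Lab) : P := pm l (oa l)
def pb (l : Lab) : P := pm l (ob l)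

/-- The root block. -/
def root (n : ℕ) : Lab := B leaf (n - 1) 0

/-- Ranks of blocks. -/
def rk (n : ℕ) : Lab → ℕ
  | A i j leaf => if i = n - 1 ∨ i = 0 then 1 else 4
  | A i j (node p q r s) => if node p q r s = nu then 2 else 5 + (node p q r s).size
  | B leaf k l => if l = 0 then 0 else if 2 ≤ k then 3 else if k = 0 then 2 else 5
  | B (node p q r s) k l => if node p q r s = nu then 3 else 6

/-- The possible labels other than the root. -/
inductive Rule (n : ℕ) : Lab → Prop
  | I (i j : ℕ) (p q r s : T) (h1 : 2 ≤ i + j) (h2 : i + j + 1 + (node p q r s).size = n) :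
      Rule n (A i j (node p q r s))
  | J (p q r s : T) (k l : ℕ) (h0 : (node p q r s).size ≤ 2) (h1 : 2 ≤ k + l)
      (h2 : (node p q r s).size + (k + l + 1) = n) : Rule n (B (node p q r s) k l)
  | R3 (k l : ℕ) (h1 : 2 ≤ k) (h2 : 1 ≤ l) (h3 : k + l + 1 = n) : Rule n (B leaf k l)
  | R4 (i j : ℕ) (h1 : 2 ≤ i) (h3 : i + j + 1 = n) : Rule n (A i j leaf)
  | R56 (i j : ℕ) (h1 : i ≤ 1) (h3 : i + j + 1 = n) : Rule n (A i j leaf)
  | R78 (k l : ℕ) (h1 : k ≤ 1) (h3 : k + l + 1 = n) : Rule n (B leaf k l)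

theorem size_ty {s : T} (h : 1 ≤ s.size) : s.size = ty1 s + ty2 s + 1 := by
  cases s with
  | leaf => simp at h
  | node a b c d => simp only [size_node, ty1_node, ty2_node]; omega

theorem rule_of_mem {n : ℕ} (hn : 5 ≤ n) {v : P} (hv : v ∈ E n) (hr : lab v ≠ root n) :
    Rule n (lab v) := by
  obtain ⟨s, w⟩ := v
  have hv' : s.size + w.size = n := hv
  by_cases hs : 3 ≤ s.size
  · rw [lab_A hs]
    have h1 := size_ty (s := s) (by omega)
    cases w with
    | leaf =>
      simp only [size_leaf] at hv'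
      by_cases hi : 2 ≤ ty1 s
      · exact Rule.R4 _ _ hi (by omega)
      · exact Rule.R56 _ _ (by omega) (by omega)
    | node p q r u => exact Rule.I _ _ _ _ _ _ (by omega) (by omega)
  · rw [lab_B (by omega)] at hr ⊢
    have h1 := size_ty (s := w) (by omega)
    cases s with
    | leaf =>
      simp only [size_leaf] at hv'
      by_cases hi : 2 ≤ ty1 w
      · refine Rule.R3 _ _ hi ?_ (by omega)
        by_contra hc
        apply hr
        have e1 : ty2 w = 0 := by omega
        have e2 : ty1 w = n - 1 := by omega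
        rw [e1, e2]; rfl
      · exact Rule.R78 _ _ (by omega) (by omega)
    | node p q r u => exact Rule.J _ _ _ _ _ _ (by omega) (by omega) (by omega)

/-- The sizes attached to a label. -/
def li : Lab → ℕ
  | A i _ _ => i
  | B _ i _ => i

def lj : Lab → ℕ
  | A _ j _ => j
  | B _ _ j => j

theorem ow_ty {n : ℕ} (hn : 5 ≤ n) {l : Lab} (h : Rule n l) :
    (ow l).1.size = li l + lj l + 1 ∧ (ow l).2.size = li l + lj l + 1 ∧
        ty1 (ow l).1 = li l ∧ ty2 (ow l).1 = lj l ∧ ty1 (ow l).2 = li l ∧ ty2 (ow l).2 = lj l := by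
  cases h with
  | I i j p q r s h1 h2 =>
    have e1 := ee_ty (parL (node p q r s)) i j h1
    have e2 := ee_size (parL (node p q r s)) i j h1
    exact ⟨e2.1, e2.2, e1.1.1, e1.1.2, e1.2.1, e1.2.2⟩
  | J p q r s k l h0 h1 h2 =>
    have e1 := ee_ty (parR (node p q r s)) k l h1
    have e2 := ee_size (parR (node p q r s)) k l h1
    exact ⟨e2.1, e2.2, e1.1.1, e1.1.2, e1.2.1, e1.2.2⟩
  | R3 k l h1 h2 h3 =>
    have e := size_bt k h1
    simp only [ow, li, lj, h1, if_true, size_nd, ty1_nd, ty2_nd, psz, e.1, e.2, size_leaf, size_t,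
      nu, size_node]
    omega
  | R4 i j h1 h3 =>
    have e := size_bt i h1
    simp only [ow, li, lj, h1, if_true, size_nd, ty1_nd, ty2_nd, psz, e.1, e.2, size_leaf, size_t,
      nu, size_node, Ps]
    omega
  | R56 i j h1 h3 =>
    have e := size_bt j (by omega)
    have h1' : ¬ 2 ≤ i := by omega
    simp only [ow, li, lj, h1', if_false, size_nd, ty1_nd, ty2_nd, psz, e.1, e.2, size_leaf,
      size_t, nu, size_node]
    omega
  | R78 k l h1 h3 =>
    have e := size_bt l (by omega)
    have h1' : ¬ 2 ≤ k := by omega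
    simp only [ow, li, lj, h1', if_false, size_nd, ty1_nd, ty2_nd, psz, e.1, e.2, size_leaf,
      size_t, nu, size_node]
    omega

theorem lab_own {n : ℕ} (hn : 5 ≤ n) {l : Lab} (h : Rule n l) : lab (oa l) = l ∧ lab (ob l) = l := by
  have H := ow_ty hn h
  cases h with
  | I i j p q r s h1 h2 =>
    simp only [li, lj] at H
    obtain ⟨e1, e2, e3, e4, e5, e6⟩ := H
    refine ⟨?_, ?_⟩
    · show lab ((ow (A i j (node p q r s))).1, node p q r s) = _
      rw [lab_A (by omega), e3, e4]
    · show lab ((ow (A i j (node p q r s))).2, node p q r s) = _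
      rw [lab_A (by omega), e5, e6]
  | J p q r s k l h0 h1 h2 =>
    simp only [li, lj] at H
    obtain ⟨e1, e2, e3, e4, e5, e6⟩ := H
    refine ⟨?_, ?_⟩
    · show lab (node p q r s, (ow (B (node p q r s) k l)).1) = _
      rw [lab_B (by omega), e3, e4]
    · show lab (node p q r s, (ow (B (node p q r s) k l)).2) = _
      rw [lab_B (by omega), e5, e6]
  | R3 k l h1 h2 h3 =>
    simp only [li, lj] at H
    obtain ⟨e1, e2, e3, e4, e5, e6⟩ := H
    refine ⟨?_, ?_⟩
    · show lab (leaf, (ow (B leaf k l)).1) = _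
      rw [lab_B (by simp), e3, e4]
    · show lab (leaf, (ow (B leaf k l)).2) = _
      rw [lab_B (by simp), e5, e6]
  | R4 i j h1 h3 =>
    simp only [li, lj] at H
    obtain ⟨e1, e2, e3, e4, e5, e6⟩ := H
    refine ⟨?_, ?_⟩
    · show lab ((ow (A i j leaf)).1, leaf) = _
      rw [lab_A (by omega), e3, e4]
    · show lab ((ow (A i j leaf)).2, leaf) = _
      rw [lab_A (by omega), e5, e6]
  | R56 i j h1 h3 =>
    simp only [li, lj] at H
    obtain ⟨e1, e2, e3, e4, e5, e6⟩ := H
    refine ⟨?_, ?_⟩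
    · show lab ((ow (A i j leaf)).1, leaf) = _
      rw [lab_A (by omega), e3, e4]
    · show lab ((ow (A i j leaf)).2, leaf) = _
      rw [lab_A (by omega), e5, e6]
  | R78 k l h1 h3 =>
    simp only [li, lj] at H
    obtain ⟨e1, e2, e3, e4, e5, e6⟩ := H
    refine ⟨?_, ?_⟩
    · show lab (leaf, (ow (B leaf k l)).1) = _
      rw [lab_B (by simp), e3, e4]
    · show lab (leaf, (ow (B leaf k l)).2) = _
      rw [lab_B (by simp), e5, e6]

theorem own_mem {n : ℕ} (hn : 5 ≤ n) {l : Lab} (h : Rule n l) : s(oa l, ob l) ∈ KL l := by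
  cases h with
  | I i j p q r s h1 h2 => exact ⟨_, ee_mem_KS _ i j h1, rfl⟩
  | J p q r s k l h0 h1 h2 => exact ⟨_, ee_mem_KS _ k l h1, rfl⟩
  | R3 k l h1 h2 h3 =>
    have hq : psz (t (l - 1), nu) = l := by
      show (t (l - 1)).size + 1 = l
      rw [size_t]; omega
    have := a_mem_KS k h1 (t (l - 1), nu)
    rw [hq] at this
    refine ⟨_, this, ?_⟩
    simp only [oa, ob, ow, h1, if_true, Sym2.map_mk]
  | R4 i j h1 h3 =>
    have := b_mem_KS i h1 (Ps j)
    rw [psz_Ps] at this
    refine ⟨_, this, ?_⟩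
    simp only [oa, ob, ow, h1, if_true, Sym2.map_mk]
  | R56 i j h1 h3 =>
    have h1' : ¬ 2 ≤ i := by omega
    have hq : psz (t i, leaf) = i := by
      show (t i).size + 0 = i
      rw [size_t]; omega
    have := a_mem_KS' j (by omega) (t i, leaf) (by omega)
    rw [hq] at this
    refine ⟨_, this, ?_⟩
    simp only [oa, ob, ow, h1', if_false, Sym2.map_mk]
  | R78 k l h1 h3 =>
    have h1' : ¬ 2 ≤ k := by omega
    have hq : psz (t k, leaf) = k := by
      show (t k).size + 0 = k
      rw [size_t]; omega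
    have := a_mem_KS' l (by omega) (t k, leaf) (by omega)
    rw [hq] at this
    refine ⟨_, this, ?_⟩
    simp only [oa, ob, ow, h1', if_false, Sym2.map_mk]

theorem R_up (v : P) (h : v.2 ≠ leaf) : R (up v) v := by
  obtain ⟨s, w⟩ := v
  cases w with
  | leaf => exact absurd rfl h
  | node a b c d => exact Or.inl (Step.root _ _ _ _ _)

theorem R_dn (v : P) (h : v.1 ≠ leaf) : R (dn v) v := by
  obtain ⟨s, w⟩ := v
  cases s with
  | leaf => exact absurd rfl h
  | node a b c d => exact Or.inr (Step.root _ _ _ _ _)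

theorem ne_leaf_of_size {s : T} (h : 1 ≤ s.size) : s ≠ leaf := by
  rintro rfl
  simp at h

theorem R_par {n : ℕ} (hn : 5 ≤ n) {l : Lab} (h : Rule n l) : R (pa l) (oa l) ∧ R (pb l) (ob l) := by
  have H := ow_ty hn h
  cases h with
  | I i j p q r s h1 h2 =>
    exact ⟨R_up (oa (A i j (node p q r s))) (by simp [oa]),
      R_up (ob (A i j (node p q r s))) (by simp [ob])⟩
  | J p q r s k l h0 h1 h2 =>
    exact ⟨R_dn (oa (B (node p q r s) k l)) (by simp [oa]),
      R_dn (ob (B (node p q r s) k l)) (by simp [ob])⟩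
  | R3 k l h1 h2 h3 =>
    simp only [li, lj] at H
    obtain ⟨e1, e2, _⟩ := H
    exact ⟨R_up (oa (B leaf k l)) (ne_leaf_of_size (by show 1 ≤ (ow (B leaf k l)).1.size; omega)),
      R_up (ob (B leaf k l)) (ne_leaf_of_size (by show 1 ≤ (ow (B leaf k l)).2.size; omega))⟩
  | R4 i j h1 h3 =>
    simp only [li, lj] at H
    obtain ⟨e1, e2, _⟩ := H
    exact ⟨R_dn (oa (A i j leaf)) (ne_leaf_of_size (by show 1 ≤ (ow (A i j leaf)).1.size; omega)),
      R_dn (ob (A i j leaf)) (ne_leaf_of_size (by show 1 ≤ (ow (A i j leaf)).2.size; omega))⟩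
  | R56 i j h1 h3 =>
    simp only [li, lj] at H
    obtain ⟨e1, e2, _⟩ := H
    exact ⟨R_dn (oa (A i j leaf)) (ne_leaf_of_size (by show 1 ≤ (ow (A i j leaf)).1.size; omega)),
      R_dn (ob (A i j leaf)) (ne_leaf_of_size (by show 1 ≤ (ow (A i j leaf)).2.size; omega))⟩
  | R78 k l h1 h3 =>
    simp only [li, lj] at H
    obtain ⟨e1, e2, _⟩ := H
    exact ⟨R_up (oa (B leaf k l)) (ne_leaf_of_size (by show 1 ≤ (ow (B leaf k l)).1.size; omega)),
      R_up (ob (B leaf k l)) (ne_leaf_of_size (by show 1 ≤ (ow (B leaf k l)).2.size; omega))⟩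

theorem oa_mem_E {n : ℕ} (hn : 5 ≤ n) {l : Lab} (h : Rule n l) : oa l ∈ E n ∧ ob l ∈ E n := by
  have H := ow_ty hn h
  cases h with
  | I i j p q r s h1 h2 =>
    simp only [li, lj] at H
    obtain ⟨e1, e2, _⟩ := H
    refine ⟨?_, ?_⟩
    · show (ow (A i j (node p q r s))).1.size + (node p q r s).size = n
      omega
    · show (ow (A i j (node p q r s))).2.size + (node p q r s).size = n
      omega
  | J p q r s k l h0 h1 h2 =>
    simp only [li, lj] at H
    obtain ⟨e1, e2, _⟩ := H
    refine ⟨?_, ?_⟩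
    · show (node p q r s).size + (ow (B (node p q r s) k l)).1.size = n
      omega
    · show (node p q r s).size + (ow (B (node p q r s) k l)).2.size = n
      omega
  | R3 k l h1 h2 h3 =>
    simp only [li, lj] at H
    obtain ⟨e1, e2, _⟩ := H
    refine ⟨?_, ?_⟩
    · show 0 + (ow (B leaf k l)).1.size = n
      omega
    · show 0 + (ow (B leaf k l)).2.size = n
      omega
  | R4 i j h1 h3 =>
    simp only [li, lj] at H
    obtain ⟨e1, e2, _⟩ := H
    refine ⟨?_, ?_⟩
    · show (ow (A i j leaf)).1.size + 0 = n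
      omega
    · show (ow (A i j leaf)).2.size + 0 = n
      omega
  | R56 i j h1 h3 =>
    simp only [li, lj] at H
    obtain ⟨e1, e2, _⟩ := H
    refine ⟨?_, ?_⟩
    · show (ow (A i j leaf)).1.size + 0 = n
      omega
    · show (ow (A i j leaf)).2.size + 0 = n
      omega
  | R78 k l h1 h3 =>
    simp only [li, lj] at H
    obtain ⟨e1, e2, _⟩ := H
    refine ⟨?_, ?_⟩
    · show 0 + (ow (B leaf k l)).1.size = n
      omega
    · show 0 + (ow (B leaf k l)).2.size = n
      omega

theorem pa_mem_E {n : ℕ} (hn : 5 ≤ n) {l : Lab} (h : Rule n l) : pa l ∈ E n := by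
  have h1 := (oa_mem_E hn h).1
  have h2 := (R_par hn h).1.psz_eq
  show psz (pa l) = n
  rw [h2]
  exact h1

end Pool.Agent.Lib.MP_7ee132_co
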