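import Pool.Agent.Lib.MP_7ee132_co.Main

set_option autoImplicit false
set_option linter.unusedSimpArgs false
set_option linter.unusedVariables false

namespace Pool.Agent.Lib.MP_7ee132_co

open T Lab

theorem par_I (i j : ℕ) (p q r s : T) :
    pa (A i j (node p q r s)) = (node (ee (parL (node p q r s)) i j).1 p q r, s) ∧
    pb (A i j (node p q r s)) = (node (ee (parL (node p q r s)) i j).2 p q r, s) := ⟨rfl, rfl⟩

theorem par_J (p q r s : T) (k l : ℕ) :
    pa (B (node p q r s) k l) = (p, node q r s (ee (parR (node p q r s)) k l).1) ∧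
    pb (B (node p q r s) k l) = (p, node q r s (ee (parR (node p q r s)) k l).2) := ⟨rfl, rfl⟩

theorem par_R3 (k l : ℕ) (h : 2 ≤ k) :
    pa (B leaf k l) = (node leaf (bt k).1 leaf (t (l - 1)), nu) ∧
    pb (B leaf k l) = (node leaf (bt k).2 leaf (t (l - 1)), nu) := by
  simp only [pa, pb, pm, oa, ob, ow, h, if_true, nd, up, and_self]

theorem par_R4 (i j : ℕ) (h : 2 ≤ i) :
    pa (A i j leaf) = (leaf, node (bt i).1 leaf (t j) leaf) ∧
    pb (A i j leaf) = (leaf, node (bt i).2 leaf (t j) leaf) := by
  simp only [pa, pb, pm, oa, ob, ow, h, if_true, nd, dn, Ps, and_self]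

theorem par_R56 (i j : ℕ) (h : i ≤ 1) :
    pa (A i j leaf) = (t i, node leaf (bt j).1 leaf leaf) ∧
    pb (A i j leaf) = (t i, node leaf (bt j).2 leaf leaf) := by
  have h' : ¬ 2 ≤ i := by omega
  simp only [pa, pb, pm, oa, ob, ow, h', if_false, nd, dn, and_self]

theorem par_R78 (k l : ℕ) (h : k ≤ 1) :
    pa (B leaf k l) = (node leaf (t k) leaf (bt l).1, leaf) ∧
    pb (B leaf k l) = (node leaf (t k) leaf (bt l).2, leaf) := by
  have h' : ¬ 2 ≤ k := by omega
  simp only [pa, pb, pm, oa, ob, ow, h', if_false, nd, up, and_self]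

theorem own_R3 (k l : ℕ) (h : 2 ≤ k) :
    oa (B leaf k l) = (leaf, node (bt k).1 leaf (t (l - 1)) nu) ∧
    ob (B leaf k l) = (leaf, node (bt k).2 leaf (t (l - 1)) nu) := by
  simp only [oa, ob, ow, h, if_true, nd, and_self]

theorem own_R4 (i j : ℕ) (h : 2 ≤ i) :
    oa (A i j leaf) = (node leaf (bt i).1 leaf (t j), leaf) ∧
    ob (A i j leaf) = (node leaf (bt i).2 leaf (t j), leaf) := by
  simp only [oa, ob, ow, h, if_true, nd, Ps, and_self]

theorem own_R56 (i j : ℕ) (h : i ≤ 1) :
    oa (A i j leaf) = (node (t i) leaf (bt j).1 leaf, leaf) ∧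
    ob (A i j leaf) = (node (t i) leaf (bt j).2 leaf, leaf) := by
  have h' : ¬ 2 ≤ i := by omega
  simp only [oa, ob, ow, h', if_false, nd, and_self]

theorem own_R78 (k l : ℕ) (h : k ≤ 1) :
    oa (B leaf k l) = (leaf, node (t k) leaf (bt l).1 leaf) ∧
    ob (B leaf k l) = (leaf, node (t k) leaf (bt l).2 leaf) := by
  have h' : ¬ 2 ≤ k := by omega
  simp only [oa, ob, ow, h', if_false, nd, and_self]

theorem own_I (i j : ℕ) (p q r s : T) :
    oa (A i j (node p q r s)) = ((ee (parL (node p q r s)) i j).1, node p q r s) ∧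
    ob (A i j (node p q r s)) = ((ee (parL (node p q r s)) i j).2, node p q r s) := ⟨rfl, rfl⟩

theorem own_J (p q r s : T) (k l : ℕ) :
    oa (B (node p q r s) k l) = (node p q r s, (ee (parR (node p q r s)) k l).1) ∧
    ob (B (node p q r s) k l) = (node p q r s, (ee (parR (node p q r s)) k l).2) := ⟨rfl, rfl⟩

/-- The inverse of the parent move. -/
def mv (v : P) : P := if 3 ≤ v.1.size then dn v else up v

theorem mv_par {n : ℕ} (hn : 5 ≤ n) {l : Lab} (h : Rule n l) :
    mv (pa l) = oa l ∧ mv (pb l) = ob l := by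
  cases h with
  | I i j p q r s h1 h2 =>
    have e2 := ee_size (parL (node p q r s)) i j h1
    rw [(par_I i j p q r s).1, (par_I i j p q r s).2, (own_I i j p q r s).1, (own_I i j p q r s).2]
    constructor
    · have : 3 ≤ (node (ee (parL (node p q r s)) i j).1 p q r).size := by
        rw [size_node]; omega
      simp only [mv, this, if_true, dn]
    · have : 3 ≤ (node (ee (parL (node p q r s)) i j).2 p q r).size := by
        rw [size_node]; omega
      simp only [mv, this, if_true, dn]
  | J p q r s k l h0 h1 h2 =>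
    rw [(par_J p q r s k l).1, (par_J p q r s k l).2, (own_J p q r s k l).1, (own_J p q r s k l).2]
    have : ¬ 3 ≤ p.size := by rw [size_node] at h0; omega
    simp only [mv, this, if_false, up, and_self]
  | R3 k l h1 h2 h3 =>
    have e := size_bt k h1
    rw [(par_R3 k l h1).1, (par_R3 k l h1).2, (own_R3 k l h1).1, (own_R3 k l h1).2]
    have e1 : 3 ≤ (node leaf (bt k).1 leaf (t (l - 1))).size := by
      simp only [size_node, size_leaf, size_t]; omega
    have e2 : 3 ≤ (node leaf (bt k).2 leaf (t (l - 1))).size := by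
      simp only [size_node, size_leaf, size_t]; omega
    simp only [mv, e1, e2, if_true, dn, and_self]
  | R4 i j h1 h3 =>
    rw [(par_R4 i j h1).1, (par_R4 i j h1).2, (own_R4 i j h1).1, (own_R4 i j h1).2]
    simp [mv, up]
  | R56 i j h1 h3 =>
    rw [(par_R56 i j h1).1, (par_R56 i j h1).2, (own_R56 i j h1).1, (own_R56 i j h1).2]
    have : ¬ 3 ≤ (t i).size := by rw [size_t]; omega
    simp only [mv, this, if_false, up, and_self]
  | R78 k l h1 h3 =>
    have e := size_bt l (by omega)
    rw [(par_R78 k l h1).1, (par_R78 k l h1).2, (own_R78 k l h1).1, (own_R78 k l h1).2]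
    have e1 : 3 ≤ (node leaf (t k) leaf (bt l).1).size := by
      simp only [size_node, size_leaf, size_t]; omega
    have e2 : 3 ≤ (node leaf (t k) leaf (bt l).2).size := by
      simp only [size_node, size_leaf, size_t]; omega
    simp only [mv, e1, e2, if_true, dn, and_self]

/-- The labels of the parents. -/
theorem lab_par_I (i j : ℕ) (p q r s : T) (h1 : 2 ≤ i + j) :
    lab (pa (A i j (node p q r s))) = A (i + j + 1 + p.size) (q.size + r.size) s ∧
    lab (pb (A i j (node p q r s))) = A (i + j + 1 + p.size) (q.size + r.size) s := by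
  have e2 := ee_size (parL (node p q r s)) i j h1
  rw [(par_I i j p q r s).1, (par_I i j p q r s).2, lab_A (by rw [size_node]; omega),
    lab_A (by rw [size_node]; omega)]
  simp only [ty1_node, ty2_node, e2.1, e2.2, and_self]

theorem lab_par_J (p q r s : T) (k l : ℕ) (h0 : (node p q r s).size ≤ 2) (h1 : 2 ≤ k + l) :
    lab (pa (B (node p q r s) k l)) = B p (q.size + r.size) (s.size + (k + l + 1)) ∧
    lab (pb (B (node p q r s) k l)) = B p (q.size + r.size) (s.size + (k + l + 1)) := by
  have e2 := ee_size (parR (node p q r s)) k l h1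
  rw [size_node] at h0
  rw [(par_J p q r s k l).1, (par_J p q r s k l).2, lab_B (by omega), lab_B (by omega)]
  simp only [ty1_node, ty2_node, e2.1, e2.2, and_self]

theorem lab_par_R3 (k l n : ℕ) (h : 2 ≤ k) (h2 : 1 ≤ l) (h3 : k + l + 1 = n) :
    lab (pa (B leaf k l)) = A k (l - 1) nu ∧ lab (pb (B leaf k l)) = A k (l - 1) nu := by
  have e := size_bt k h
  rw [(par_R3 k l h).1, (par_R3 k l h).2,
    lab_A (by simp only [size_node, size_leaf, size_t]; omega),
    lab_A (by simp only [size_node, size_leaf, size_t]; omega)]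
  simp only [ty1_node, ty2_node, e.1, e.2, size_leaf, size_t, Nat.zero_add, and_self]

theorem lab_par_R4 (i j : ℕ) (h : 2 ≤ i) :
    lab (pa (A i j leaf)) = B leaf i j ∧ lab (pb (A i j leaf)) = B leaf i j := by
  have e := size_bt i h
  rw [(par_R4 i j h).1, (par_R4 i j h).2, lab_B (by simp), lab_B (by simp)]
  simp only [ty1_node, ty2_node, e.1, e.2, size_leaf, size_t, Nat.add_zero, and_self]

theorem lab_par_R56 (i j : ℕ) (h : i ≤ 1) (hj : 2 ≤ j) :
    lab (pa (A i j leaf)) = B (t i) j 0 ∧ lab (pb (A i j leaf)) = B (t i) j 0 := by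
  have e := size_bt j hj
  rw [(par_R56 i j h).1, (par_R56 i j h).2, lab_B (by rw [size_t]; omega),
    lab_B (by rw [size_t]; omega)]
  simp only [ty1_node, ty2_node, e.1, e.2, size_leaf, size_t, Nat.add_zero, Nat.zero_add, and_self]

theorem lab_par_R78 (k l : ℕ) (h : k ≤ 1) (hl : 2 ≤ l) :
    lab (pa (B leaf k l)) = A k l leaf ∧ lab (pb (B leaf k l)) = A k l leaf := by
  have e := size_bt l hl
  rw [(par_R78 k l h).1, (par_R78 k l h).2,
    lab_A (by simp only [size_node, size_leaf, size_t]; omega),
    lab_A (by simp only [size_node, size_leaf, size_t]; omega)]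
  simp only [ty1_node, ty2_node, e.1, e.2, size_leaf, size_t, Nat.add_zero, Nat.zero_add, and_self]

/-- Edges whose first ends have a nonempty first entry are different from the gluing edges. -/
theorem ne_r_of_first (m : ℕ) (hm : 3 ≤ m) (u v : P) (hu : u.1 ≠ leaf) :
    s(u, v) ≠ sy (r m) ∧ s(u, v) ≠ sy (rp m) := by
  obtain ⟨m, rfl⟩ : ∃ k, m = k + 3 := ⟨m - 3, by omega⟩
  constructor
  · intro hc
    rcases Sym2.eq_iff.1 hc with ⟨h1, _⟩ | ⟨h1, _⟩
    · exact hu (congrArg Prod.fst h1)
    · exact hu (congrArg Prod.fst h1)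
  · intro hc
    rcases Sym2.eq_iff.1 hc with ⟨h1, _⟩ | ⟨h1, _⟩
    · exact hu (congrArg Prod.fst h1)
    · exact hu (congrArg Prod.fst h1)

/-- Comparison of lifts with the special tree edges. -/
theorem lift_ne_ee {i j m k l : ℕ} (hkl : 2 ≤ k + l) (h1 : c i ≠ c 1) (h2 : c i ≠ c 2) :
    nd (c i) (Ps m) ≠ (ee true k l).1 ∧ nd (c i) (Ps m) ≠ (ee true k l).2 := by
  by_cases hk : k = 2
  · subst hk
    rw [ee_ge (by omega)]
    constructor
    · intro hc
      exact h1 (nd_inj hc).1
    · intro hc
      exact h2 (nd_inj hc).1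
  · have e := ee_ty true k l hkl
    constructor
    · intro hc
      have := congrArg ty1 hc
      rw [ty1_nd, psz_c, e.1.1] at this
      omega
    · intro hc
      have := congrArg ty1 hc
      rw [ty1_nd, psz_c, e.2.1] at this
      omega

/-- The special edges `(leaf, e)` are different from the gluing edges. -/
theorem es_ne_r (m k l : ℕ) (hm : 3 ≤ m) (hkl : 2 ≤ k + l) :
    es leaf (ee true k l) ≠ sy (r m) ∧ es leaf (ee true k l) ≠ sy (rp m) := by
  obtain ⟨m, rfl⟩ : ∃ k, m = k + 3 := ⟨m - 3, by omega⟩
  constructor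
  · intro hc
    have h3 := lift_ne_ee (i := 3) (j := 4) (m := m) hkl (by decide) (by decide)
    rcases Sym2.eq_iff.1 hc.symm with ⟨h1, _⟩ | ⟨h1, _⟩
    · exact h3.1 (congrArg Prod.snd h1)
    · exact h3.2 (congrArg Prod.snd h1)
  · intro hc
    have h3 := lift_ne_ee (i := 0) (j := 1) (m := m) hkl (by decide) (by decide)
    rcases Sym2.eq_iff.1 hc.symm with ⟨h1, _⟩ | ⟨h1, _⟩
    · exact h3.1 (congrArg Prod.snd h1)
    · exact h3.2 (congrArg Prod.snd h1)

/-- The parent edge is a kept edge of the parent block. -/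
theorem par_mem {n : ℕ} (hn : 5 ≤ n) {l : Lab} (h : Rule n l) : s(pa l, pb l) ∈ KL (lab (pa l)) := by
  cases h with
  | I i j p q r s h1 h2 =>
    rw [(lab_par_I i j p q r s h1).1, (par_I i j p q r s).1, (par_I i j p q r s).2]
    have e2 := ee_size (parL (node p q r s)) i j h1
    refine ⟨s(node (ee (parL (node p q r s)) i j).1 p q r,
      node (ee (parL (node p q r s)) i j).2 p q r), ?_, rfl⟩
    left
    refine ⟨by omega, ef (ee (parL (node p q r s)) i j) p, ?_, (q, r), rfl, Or.inr ?_, rfl⟩
    · right; right; right; right; right; left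
      exact ⟨i, j, p, h1, rfl, rfl⟩
    · exact ne_r_of_first _ (by omega) _ _ (ne_leaf_of_size (by
        show 1 ≤ (ee (parL (node p q r s)) i j).1.size; omega))
  | J p q r s k l h0 h1 h2 =>
    rw [(lab_par_J p q r s k l h0 h1).1, (par_J p q r s k l).1, (par_J p q r s k l).2]
    refine ⟨s(node q r s (ee (parR (node p q r s)) k l).1,
      node q r s (ee (parR (node p q r s)) k l).2), ?_, rfl⟩
    right; left
    rw [size_node] at h0
    refine ⟨by omega, by omega, es s (ee (parR (node p q r s)) k l), ?_, (q, r), rfl,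
      Or.inr ?_, rfl⟩
    · rcases (by omega : s.size = 0 ∨ s.size = 1) with hs | hs
      · have := size_eq_zero hs
        subst this
        right; right; right; right; right; right; left
        exact ⟨k, l, h1, by simp only [size_leaf]; omega, rfl⟩
      · have := size_eq_one hs
        subst this
        right; right; right; right; right; right; right; left
        exact ⟨k, l, h1, by simp [nu]; omega, rfl⟩
    · rcases (by omega : s.size = 0 ∨ s.size = 1) with hs | hs
      · have := size_eq_zero hs
        subst this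
        exact es_ne_r _ k l (by omega) h1
      · exact ne_r_of_first _ (by omega) _ _ (ne_leaf_of_size (by
          show 1 ≤ s.size; omega))
  | R3 k l h1 h2 h3 =>
    rw [(lab_par_R3 k l n h1 h2 h3).1, (par_R3 k l h1).1, (par_R3 k l h1).2]
    refine ⟨s(node leaf (bt k).1 leaf (t (l - 1)), node leaf (bt k).2 leaf (t (l - 1))), ?_, rfl⟩
    have := b_mem_KS k h1 (Ps (l - 1))
    rw [psz_Ps] at this
    exact this
  | R4 i j h1 h3 =>
    rw [(lab_par_R4 i j h1).1, (par_R4 i j h1).1, (par_R4 i j h1).2]
    refine ⟨s(node (bt i).1 leaf (t j) leaf, node (bt i).2 leaf (t j) leaf), ?_, rfl⟩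
    have := a_mem_KS i h1 (t j, leaf)
    have hq : psz (t j, leaf) = j := by
      show (t j).size + 0 = j
      rw [size_t]; omega
    rw [hq] at this
    exact this
  | R56 i j h1 h3 =>
    rw [(lab_par_R56 i j h1 (by omega)).1, (par_R56 i j h1).1, (par_R56 i j h1).2]
    refine ⟨s(node leaf (bt j).1 leaf leaf, node leaf (bt j).2 leaf leaf), ?_, rfl⟩
    exact b_mem_KS j (by omega) o
  | R78 k l h1 h3 =>
    rw [(lab_par_R78 k l h1 (by omega)).1, (par_R78 k l h1).1, (par_R78 k l h1).2]
    refine ⟨s(node leaf (t k) leaf (bt l).1, node leaf (t k) leaf (bt l).2), ?_, rfl⟩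
    have := b_mem_KS' l (by omega) (Ps k) (by rw [psz_Ps]; exact h1)
    rw [psz_Ps] at this
    exact this

theorem nu_iff (p q r s : T) : node p q r s = nu ↔ (node p q r s).size = 1 := by
  constructor
  · intro h; rw [h]; rfl
  · exact size_eq_one

theorem rk_par {n : ℕ} (hn : 5 ≤ n) {l : Lab} (h : Rule n l) : rk n (lab (pa l)) < rk n l := by
  cases h with
  | I i j p q r s h1 h2 =>
    rw [(lab_par_I i j p q r s h1).1]
    rw [size_node] at h2
    have h5 : rk n (A i j (node p q r s)) =
        if node p q r s = nu then 2 else 5 + (node p q r s).size := rfl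
    rw [h5]
    by_cases h6 : node p q r s = nu
    · rw [if_pos h6]
      have h7 := (nu_iff p q r s).1 h6
      rw [size_node] at h7
      have := size_eq_zero (s := s) (by omega)
      subst this
      have h8 : rk n (A (i + j + 1 + p.size) (q.size + r.size) leaf) =
        if i + j + 1 + p.size = n - 1 ∨ i + j + 1 + p.size = 0 then 1 else 4 := rfl
      rw [h8, if_pos (by left; omega)]
      omega
    · rw [if_neg h6]
      cases s with
      | leaf =>
        have h8 : rk n (A (i + j + 1 + p.size) (q.size + r.size) leaf) =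
          if i + j + 1 + p.size = n - 1 ∨ i + j + 1 + p.size = 0 then 1 else 4 := rfl
        rw [h8]
        split_ifs <;> omega
      | node a b c d =>
        have h8 : rk n (A (i + j + 1 + p.size) (q.size + r.size) (node a b c d)) =
          if node a b c d = nu then 2 else 5 + (node a b c d).size := rfl
        rw [h8]
        simp only [size_node]
        split_ifs <;> omega
  | J p q r s k l h0 h1 h2 =>
    rw [(lab_par_J p q r s k l h0 h1).1]
    rw [size_node] at h0 h2
    have h5 : rk n (B (node p q r s) k l) = if node p q r s = nu then 3 else 6 := rfl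
    rw [h5]
    by_cases h6 : node p q r s = nu
    · rw [if_pos h6]
      have h7 := (nu_iff p q r s).1 h6
      rw [size_node] at h7
      have := size_eq_zero (s := p) (by omega)
      subst this
      have h8 : rk n (B leaf (q.size + r.size) (s.size + (k + l + 1))) =
        if s.size + (k + l + 1) = 0 then 0 else if 2 ≤ q.size + r.size then 3
          else if q.size + r.size = 0 then 2 else 5 := rfl
      rw [h8, if_neg (by omega), if_neg (by omega), if_pos (by omega)]
      omega
    · rw [if_neg h6]
      cases p with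
      | leaf =>
        have h8 : rk n (B leaf (q.size + r.size) (s.size + (k + l + 1))) =
          if s.size + (k + l + 1) = 0 then 0 else if 2 ≤ q.size + r.size then 3
            else if q.size + r.size = 0 then 2 else 5 := rfl
        rw [h8]
        split_ifs <;> omega
      | node a b c d =>
        have h8 : rk n (B (node a b c d) (q.size + r.size) (s.size + (k + l + 1))) =
          if node a b c d = nu then 3 else 6 := rfl
        rw [h8, if_pos ((nu_iff a b c d).2 (by rw [size_node] at *; omega))]
        omega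
  | R3 k l h1 h2 h3 =>
    rw [(lab_par_R3 k l n h1 h2 h3).1]
    have h8 : rk n (A k (l - 1) nu) = 2 := by
      show (if nu = nu then 2 else 5 + nu.size) = 2
      rw [if_pos rfl]
    have h9 : rk n (B leaf k l) = if l = 0 then 0 else if 2 ≤ k then 3 else if k = 0 then 2 else 5 :=
      rfl
    rw [h8, h9, if_neg (by omega), if_pos h1]
    omega
  | R4 i j h1 h3 =>
    rw [(lab_par_R4 i j h1).1]
    have h8 : rk n (A i j leaf) = if i = n - 1 ∨ i = 0 then 1 else 4 := rfl
    have h9 : rk n (B leaf i j) = if j = 0 then 0 else if 2 ≤ i then 3 else if i = 0 then 2 else 5 :=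
      rfl
    rw [h8, h9]
    split_ifs <;> omega
  | R56 i j h1 h3 =>
    rw [(lab_par_R56 i j h1 (by omega)).1]
    have h8 : rk n (A i j leaf) = if i = n - 1 ∨ i = 0 then 1 else 4 := rfl
    rw [h8]
    rcases (by omega : i = 0 ∨ i = 1) with rfl | rfl
    · have h9 : rk n (B (t 0) j 0) = 0 := rfl
      rw [h9, if_pos (Or.inr rfl)]
      omega
    · have h9 : rk n (B (t 1) j 0) = 3 := by
        simp [rk, t, nu]
      rw [h9, if_neg (by omega)]
      omega
  | R78 k l h1 h3 =>
    rw [(lab_par_R78 k l h1 (by omega)).1]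
    have h8 : rk n (A k l leaf) = if k = n - 1 ∨ k = 0 then 1 else 4 := rfl
    have h9 : rk n (B leaf k l) = if l = 0 then 0 else if 2 ≤ k then 3 else if k = 0 then 2 else 5 :=
      rfl
    rw [h8, h9]
    split_ifs <;> omega

theorem inj1 {n : ℕ} (hn : 5 ≤ n) {l l' : Lab} (h : Rule n l) (h' : Rule n l')
    (he : s(pa l, pb l) = s(pa l', pb l')) : l = l' := by
  have e := mv_par hn h
  have e' := mv_par hn h'
  have f := lab_own hn h
  have f' := lab_own hn h'
  rcases Sym2.eq_iff.1 he with ⟨h1, _⟩ | ⟨h1, _⟩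
  · rw [← f.1, ← e.1, h1, e'.1, f'.1]
  · rw [← f.1, ← e.1, h1, e'.2, f'.2]

end Pool.Agent.Lib.MP_7ee132_co
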