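import Pool.Agent.Lib.MP_7ee132_co.Base
import Pool.Agent.Lib.MP_7ee132_co.Defs

set_option autoImplicit false
set_option linter.unusedSimpArgs false
set_option linter.unusedVariables false

namespace Pool.Agent.Lib.MP_7ee132_co

open T

/-- The length of the boundary spanned by a tree. -/
def len (t : T) : ℕ := 3 * t.size + 1

theorem len_leaf : len leaf = 1 := rfl
theorem len_node (a b c d : T) : len (node a b c d) = len a + len b + len c + len d := by
  simp only [len, size_node]; omega
theorem len_pos (t : T) : 1 ≤ len t := by simp [len]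
theorem len_mod (t : T) : len t % 3 = 1 := by simp only [len]; omega
theorem eq_leaf_of_len {t : T} (h : len t = 1) : t = leaf := by
  apply size_eq_zero
  simp only [len] at h; omega

/-- The diagonals of a tree placed at position `i`. -/
def DS : T → ℕ → Finset (ℕ × ℕ)
  | leaf, _ => ∅
  | node a b c d, i =>
    {(i, i + len a + len b + len c + len d), (i, i + len a + len b),
      (i + len a + len b, i + len a + len b + len c + len d)} ∪
      (DS a i ∪ DS b (i + len a) ∪ DS c (i + len a + len b) ∪ DS d (i + len a + len b + len c))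

theorem mem_DS_node (a b c d : T) (i p q : ℕ) : (p, q) ∈ DS (node a b c d) i ↔
    ((p = i ∧ q = i + len a + len b + len c + len d) ∨ (p = i ∧ q = i + len a + len b) ∨
      (p = i + len a + len b ∧ q = i + len a + len b + len c + len d)) ∨
    (p, q) ∈ DS a i ∨ (p, q) ∈ DS b (i + len a) ∨ (p, q) ∈ DS c (i + len a + len b) ∨
    (p, q) ∈ DS d (i + len a + len b + len c) := by
  simp only [DS, Finset.mem_union, Finset.mem_insert, Finset.mem_singleton, Prod.mk.injEq]
  tauto

/-- The diagonals of a pair placed at position `i`, without the diagonal below it. -/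
def DQ (v : P) (i : ℕ) : Finset (ℕ × ℕ) := DS v.1 i ∪ DS v.2 (i + len v.1)

theorem DS_range : ∀ (t : T) (i p q : ℕ), (p, q) ∈ DS t i → i ≤ p ∧ p + 2 ≤ q ∧ q ≤ i + len t := by
  intro t
  induction t with
  | leaf => intro i p q h; simp [DS] at h
  | node a b c d iha ihb ihc ihd =>
    intro i p q h
    have la := len_pos a
    have lb := len_pos b
    have lc := len_pos c
    have ld := len_pos d
    rw [len_node]
    rw [mem_DS_node] at h
    rcases h with (h | h | h) | h | h | h | h
    · omega
    · omega
    · omega
    · have := iha _ _ _ h; omega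
    · have := ihb _ _ _ h; omega
    · have := ihc _ _ _ h; omega
    · have := ihd _ _ _ h; omega

theorem DS_top {t : T} (h : t ≠ leaf) (i : ℕ) : (i, i + len t) ∈ DS t i := by
  cases t with
  | leaf => exact absurd rfl h
  | node a b c d =>
    rw [mem_DS_node, len_node]
    left; left
    constructor <;> omega

theorem DS_top' {t : T} (i : ℕ) (h : 2 ≤ len t) : (i, i + len t) ∈ DS t i := by
  apply DS_top
  rintro rfl
  simp [len] at h

theorem DS_not_cross : ∀ (t : T) (i p q p' q' : ℕ), (p, q) ∈ DS t i → (p', q') ∈ DS t i →
    ¬ Cross (p, q) (p', q') := by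
  intro t
  induction t with
  | leaf => intro i p q p' q' h; simp [DS] at h
  | node a b c d iha ihb ihc ihd =>
    intro i p q p' q' h h'
    have la := len_pos a
    have lb := len_pos b
    have lc := len_pos c
    have ld := len_pos d
    rw [mem_DS_node] at h h'
    have A : ∀ {p q}, (p, q) ∈ DS a i → i ≤ p ∧ p + 2 ≤ q ∧ q ≤ i + len a :=
      fun h => DS_range _ _ _ _ h
    have B : ∀ {p q}, (p, q) ∈ DS b (i + len a) →
      i + len a ≤ p ∧ p + 2 ≤ q ∧ q ≤ i + len a + len b := fun h => DS_range _ _ _ _ h
    have C : ∀ {p q}, (p, q) ∈ DS c (i + len a + len b) →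
      i + len a + len b ≤ p ∧ p + 2 ≤ q ∧ q ≤ i + len a + len b + len c :=
      fun h => DS_range _ _ _ _ h
    have D : ∀ {p q}, (p, q) ∈ DS d (i + len a + len b + len c) →
      i + len a + len b + len c ≤ p ∧ p + 2 ≤ q ∧ q ≤ i + len a + len b + len c + len d :=
      fun h => DS_range _ _ _ _ h
    rcases h with h | h | h | h | h <;> rcases h' with h' | h' | h' | h' | h'
    · simp only [Cross]; omega
    · have := A h'; simp only [Cross]; omega
    · have := B h'; simp only [Cross]; omega
    · have := C h'; simp only [Cross]; omega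
    · have := D h'; simp only [Cross]; omega
    · have := A h; simp only [Cross]; omega
    · exact iha _ _ _ _ _ h h'
    · have := A h; have := B h'; simp only [Cross]; omega
    · have := A h; have := C h'; simp only [Cross]; omega
    · have := A h; have := D h'; simp only [Cross]; omega
    · have := B h; simp only [Cross]; omega
    · have := B h; have := A h'; simp only [Cross]; omega
    · exact ihb _ _ _ _ _ h h'
    · have := B h; have := C h'; simp only [Cross]; omega
    · have := B h; have := D h'; simp only [Cross]; omega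
    · have := C h; simp only [Cross]; omega
    · have := C h; have := A h'; simp only [Cross]; omega
    · have := C h; have := B h'; simp only [Cross]; omega
    · exact ihc _ _ _ _ _ h h'
    · have := C h; have := D h'; simp only [Cross]; omega
    · have := D h; simp only [Cross]; omega
    · have := D h; have := A h'; simp only [Cross]; omega
    · have := D h; have := B h'; simp only [Cross]; omega
    · have := D h; have := C h'; simp only [Cross]; omega
    · exact ihd _ _ _ _ _ h h'

/-- A chord in a region cut at `m` crosses one of the two parts unless it is inside one of them. -/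
theorem cut_cross {p q i m j : ℕ} (hp : i ≤ p) (hq : q ≤ j) (hm : p < m) (hm' : m < q)
    (hne : ¬ (p = i ∧ q = j)) (him : i < m) (hmj : m < j) :
    (Cross (p, q) (i, m) ∧ i + 2 ≤ m) ∨ (Cross (p, q) (m, j) ∧ m + 2 ≤ j) := by
  by_cases h : p = i
  · right
    simp only [Cross]
    omega
  · left
    simp only [Cross]
    omega

theorem DS_maximal : ∀ (t : T) (i p q : ℕ), i ≤ p → p + 2 ≤ q → q ≤ i + len t →
    (p, q) ∈ DS t i ∨ ∃ f ∈ DS t i, Cross (p, q) f := by
  intro t
  induction t with
  | leaf => intro i p q h1 h2 h3; rw [len_leaf] at h3; omega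
  | node a b c d iha ihb ihc ihd =>
    intro i p q h1 h2 h3
    have la := len_pos a
    have lb := len_pos b
    have lc := len_pos c
    have ld := len_pos d
    rw [len_node] at h3
    have sa : DS a i ⊆ DS (node a b c d) i := by
      rintro ⟨p, q⟩ h; rw [mem_DS_node]; tauto
    have sb : DS b (i + len a) ⊆ DS (node a b c d) i := by
      rintro ⟨p, q⟩ h; rw [mem_DS_node]; tauto
    have sc : DS c (i + len a + len b) ⊆ DS (node a b c d) i := by
      rintro ⟨p, q⟩ h; rw [mem_DS_node]; tauto
    have sd : DS d (i + len a + len b + len c) ⊆ DS (node a b c d) i := by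
      rintro ⟨p, q⟩ h; rw [mem_DS_node]; tauto
    by_cases k1 : q ≤ i + len a + len b
    · by_cases k2 : q ≤ i + len a
      · rcases iha i p q h1 h2 k2 with h | ⟨f, hf, hc⟩
        · exact Or.inl (sa h)
        · exact Or.inr ⟨f, sa hf, hc⟩
      · by_cases k3 : i + len a ≤ p
        · rcases ihb (i + len a) p q k3 h2 k1 with h | ⟨f, hf, hc⟩
          · exact Or.inl (sb h)
          · exact Or.inr ⟨f, sb hf, hc⟩
        · by_cases k4 : p = i ∧ q = i + len a + len b
          · left
            rw [mem_DS_node]; tauto
          · right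
            rcases cut_cross (j := i + len a + len b) h1 k1 (by omega : p < i + len a)
              (by omega) k4 (by omega) (by omega) with ⟨hc, hl⟩ | ⟨hc, hl⟩
            · exact ⟨_, sa (DS_top' i (by omega)), hc⟩
            · exact ⟨_, sb (DS_top' (i + len a) (by omega)), hc⟩
    · by_cases k5 : i + len a + len b ≤ p
      · by_cases k2 : q ≤ i + len a + len b + len c
        · rcases ihc (i + len a + len b) p q k5 h2 k2 with h | ⟨f, hf, hc⟩
          · exact Or.inl (sc h)
          · exact Or.inr ⟨f, sc hf, hc⟩
        · by_cases k3 : i + len a + len b + len c ≤ p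
          · rcases ihd (i + len a + len b + len c) p q k3 h2 (by omega) with h | ⟨f, hf, hc⟩
            · exact Or.inl (sd h)
            · exact Or.inr ⟨f, sd hf, hc⟩
          · by_cases k4 : p = i + len a + len b ∧ q = i + len a + len b + len c + len d
            · left
              rw [mem_DS_node]; tauto
            · right
              rcases cut_cross (j := i + len a + len b + len c + len d) k5 (by omega)
                (by omega : p < i + len a + len b + len c) (by omega) k4 (by omega) (by omega)
                with ⟨hc, hl⟩ | ⟨hc, hl⟩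
              · exact ⟨_, sc (DS_top' (i + len a + len b) (by omega)), hc⟩
              · exact ⟨_, sd (DS_top' (i + len a + len b + len c) (by omega)), hc⟩
      · by_cases k4 : p = i ∧ q = i + len a + len b + len c + len d
        · left
          rw [mem_DS_node]; tauto
        · right
          rcases cut_cross (j := i + len a + len b + len c + len d) h1 (by omega)
            (by omega : p < i + len a + len b) (by omega) k4 (by omega) (by omega)
            with ⟨hc, hl⟩ | ⟨hc, hl⟩
          · refine ⟨(i, i + len a + len b), ?_, hc⟩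
            rw [mem_DS_node]; tauto
          · refine ⟨(i + len a + len b, i + len a + len b + len c + len d), ?_, hc⟩
            rw [mem_DS_node]; tauto

theorem DS_color : ∀ (t : T) (i p q : ℕ), (p, q) ∈ DS t i → p % 3 ≠ q % 3 := by
  intro t
  induction t with
  | leaf => intro i p q h; simp [DS] at h
  | node a b c d iha ihb ihc ihd =>
    intro i p q h
    have la := len_mod a
    have lb := len_mod b
    have lc := len_mod c
    have ld := len_mod d
    rw [mem_DS_node] at h
    rcases h with (h | h | h) | h | h | h | h
    · omega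
    · omega
    · omega
    · exact iha _ _ _ h
    · exact ihb _ _ _ h
    · exact ihc _ _ _ h
    · exact ihd _ _ _ h

theorem mem_DQ (v : P) (i : ℕ) (e : ℕ × ℕ) :
    e ∈ DQ v i ↔ e ∈ DS v.1 i ∨ e ∈ DS v.2 (i + len v.1) := by
  simp [DQ]

theorem DQ_not_cross (v : P) (i : ℕ) : ∀ e ∈ DQ v i, ∀ f ∈ DQ v i, ¬ Cross e f := by
  rintro ⟨p, q⟩ h ⟨p', q'⟩ h'
  rw [mem_DQ] at h h'
  rcases h with h | h <;> rcases h' with h' | h'
  · exact DS_not_cross _ _ _ _ _ _ h h'
  · have := DS_range _ _ _ _ h; have := DS_range _ _ _ _ h'; simp only [Cross]; omega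
  · have := DS_range _ _ _ _ h; have := DS_range _ _ _ _ h'; simp only [Cross]; omega
  · exact DS_not_cross _ _ _ _ _ _ h h'

theorem DQ_colorful (v : P) (n : ℕ) (hv : psz v = n) : IsColorful (3 * n + 3) (DQ v 1) := by
  have l1 := len_pos v.1
  have l2 := len_pos v.2
  have hlen : len v.1 + len v.2 = 3 * n + 2 := by
    simp only [len, psz] at hv ⊢; omega
  refine ⟨⟨?_, DQ_not_cross v 1, ?_⟩, ?_⟩
  · rintro ⟨p, q⟩ h
    rw [mem_DQ] at h
    rcases h with h | h
    · have := DS_range _ _ _ _ h
      refine ⟨by simp; omega, by simp; omega, by simp; omega, ?_⟩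
      intro hc
      rw [Prod.mk.injEq] at hc
      omega
    · have := DS_range _ _ _ _ h
      refine ⟨by simp; omega, by simp; omega, by simp; omega, ?_⟩
      intro hc
      rw [Prod.mk.injEq] at hc
      omega
  · rintro ⟨p, q⟩ ⟨h1, h2, h3, h4⟩ hno
    simp only at h1 h2 h3
    rw [mem_DQ]
    by_cases k1 : q ≤ 1 + len v.1
    · rcases DS_maximal v.1 1 p q h1 h2 k1 with h | ⟨f, hf, hc⟩
      · exact Or.inl h
      · exact absurd hc (hno f ((mem_DQ _ _ _).2 (Or.inl hf)))
    · by_cases k2 : 1 + len v.1 ≤ p
      · rcases DS_maximal v.2 (1 + len v.1) p q k2 h2 (by omega) with h | ⟨f, hf, hc⟩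
        · exact Or.inr h
        · exact absurd hc (hno f ((mem_DQ _ _ _).2 (Or.inr hf)))
      · exfalso
        have hne : ¬ (p = 1 ∧ q = 1 + len v.1 + len v.2) := by
          rintro ⟨rfl, rfl⟩
          apply h4
          rw [Prod.mk.injEq]
          exact ⟨rfl, by omega⟩
        rcases cut_cross (j := 1 + len v.1 + len v.2) h1 (by omega) (by omega : p < 1 + len v.1)
          (by omega) hne (by omega) (by omega) with ⟨hc, hl⟩ | ⟨hc, hl⟩
        · exact hno _ ((mem_DQ _ _ _).2 (Or.inl (DS_top' 1 (by omega)))) hc
        · exact hno _ ((mem_DQ _ _ _).2 (Or.inr (DS_top' (1 + len v.1) (by omega)))) hc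
  · have hedge : ∀ p q, IsEdge (3 * n + 3) (DQ v 1) (p, q) → p % 3 ≠ q % 3 := by
      intro p q h
      rcases h with (⟨h1, h2, h3⟩ | h) | h
      · simp only at h2
        omega
      · rw [Prod.mk.injEq] at h
        omega
      · rw [mem_DQ] at h
        rcases h with h | h
        · exact DS_color _ _ _ _ h
        · exact DS_color _ _ _ _ h
    rintro i j k ⟨h1, h2, h3, h4, h5⟩
    exact ⟨hedge _ _ h3, hedge _ _ h4, hedge _ _ h5⟩

end Pool.Agent.Lib.MP_7ee132_co
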