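import Pool.Agent.Lib.MP_7ee132_co.Tree

set_option autoImplicit false
set_option linter.unusedSimpArgs false
set_option linter.unusedVariables false

namespace Pool.Agent.Lib.MP_7ee132_co

open T

theorem size_eq_zero {s : T} (h : s.size = 0) : s = leaf := by
  cases s with
  | leaf => rfl
  | node a b c d => simp at h

theorem size_eq_one {s : T} (h : s.size = 1) : s = nu := by
  cases s with
  | leaf => simp at h
  | node a b c d =>
    simp only [size_node] at h
    rw [size_eq_zero (s := a) (by omega), size_eq_zero (s := b) (by omega),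
      size_eq_zero (s := c) (by omega), size_eq_zero (s := d) (by omega)]
    rfl

theorem psz_eq_zero {p : P} (h : psz p = 0) : p = o := by
  obtain ⟨a, b⟩ := p
  simp only [psz] at h
  rw [size_eq_zero (s := a) (by omega), size_eq_zero (s := b) (by omega)]
  rfl

theorem psz_eq_one {p : P} (h : psz p = 1) : p = x ∨ p = y := by
  obtain ⟨a, b⟩ := p
  simp only [psz] at h
  rcases Nat.eq_zero_or_pos a.size with h0 | h0
  · left
    rw [size_eq_zero h0, size_eq_one (s := b) (by omega)]
    rfl
  · right
    rw [size_eq_one (s := a) (by omega), size_eq_zero (s := b) (by omega)]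
    rfl

theorem R_xy : R x y := Or.inr (Step.root leaf leaf leaf leaf leaf)

theorem psz_x : psz x = 1 := rfl
theorem psz_y : psz y = 1 := rfl
theorem psz_o : psz o = 0 := rfl

/-- A Hamilton path of `E j`, as a list. -/
theorem exists_path (j : ℕ) (H : 2 ≤ j → HC R (E j) (K j)) :
    ∃ (q0 : P) (l : List P), (q0 :: l).Nodup ∧ (q0 :: l).IsChain R ∧
      (∀ p, p ∈ q0 :: l ↔ psz p = j) := by
  rcases Nat.lt_or_ge j 2 with hj | hj
  · rcases (by omega : j = 0 ∨ j = 1) with rfl | rfl
    · refine ⟨o, [], by simp, by simp, ?_⟩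
      intro p
      rw [List.mem_singleton]
      exact ⟨fun h => by rw [h]; rfl, fun h => psz_eq_zero h⟩
    · refine ⟨x, [y], ?_, ?_, ?_⟩
      · simp [x, y, nu]
      · simp only [List.isChain_cons_cons, List.isChain_singleton, and_true]
        exact R_xy
      · intro p
        simp only [List.mem_cons, List.not_mem_nil, or_false]
        constructor
        · rintro (rfl | rfl) <;> rfl
        · exact psz_eq_one
  · obtain ⟨l, a, b, ⟨hn, hc, hh, hl⟩, _, hm, _⟩ := H hj
    cases l with
    | nil => simp at hh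
    | cons q0 l => exact ⟨q0, l, hn, hc, hm⟩

theorem HC_slot (i j : ℕ) (hij : 2 ≤ i + j) (Hi : 2 ≤ i → HC R (E i) (K i))
    (Hj : 2 ≤ j → HC R (E j) (K j)) : HC RS (TT i j) (KS i j) := by
  by_cases hi : 2 ≤ i
  · obtain ⟨q0, l, hn, hc, hm⟩ := exists_path j Hj
    by_cases hj0 : j = 0
    · subst hj0
      have G := (Hi hi).map (R' := RS) (fun p => nd p o) (fun p p' h => (nd_inj h).1)
        (fun p p' h => RS_left o h)
      have hset : (fun p => nd p o) '' E i = TT i 0 := by
        ext s
        constructor
        · rintro ⟨p, hp, rfl⟩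
          exact ⟨p, o, rfl, hp, rfl⟩
        · rintro ⟨p, q, rfl, hp, hq⟩
          rw [psz_eq_zero hq]
          exact ⟨p, hp, rfl⟩
      rw [hset] at G
      apply G.mono
      rintro e (⟨_, e', he', q, hq, _, rfl⟩ | ⟨h1, _⟩ | ⟨h1, _⟩)
      · rw [psz_eq_zero hq]
        exact ⟨e', he', rfl⟩
      · omega
      · omega
    · obtain ⟨e0, he0, G⟩ := HC.prod RS_symm (Hi hi) (r_mem_K i) (rp_mem_K i) (r_ne_rp i hi)
        (fun p q => nd p q) (fun a q a' q' h => nd_inj h) (fun q a b h => RS_left q h) q0 l hn
        (hc.imp (fun q q' h a => RS_right a h))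
      have hset : {s | ∃ a ∈ E i, ∃ q ∈ q0 :: l, s = nd a q} = TT i j := by
        ext s
        constructor
        · rintro ⟨p, hp, q, hq, rfl⟩
          exact ⟨p, q, rfl, hp, (hm q).1 hq⟩
        · rintro ⟨p, q, rfl, hp, hq⟩
          exact ⟨p, hp, q, (hm q).2 hq, rfl⟩
      rw [hset] at G
      apply G.mono
      rintro e (⟨_, e', he', q, hq, h3, rfl⟩ | ⟨h1, _⟩ | ⟨h1, _⟩)
      · rcases h3 with h3 | h3
        · exact absurd h3 hj0
        · exact Or.inl ⟨e', he', h3.1, h3.2, q, (hm q).2 hq, rfl⟩
      · omega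
      · omega
  · by_cases hj : 2 ≤ j
    · obtain ⟨q0, l, hn, hc, hm⟩ := exists_path i Hi
      by_cases hi0 : i = 0
      · subst hi0
        have G := (Hj hj).map (R' := RS) (fun q => nd o q) (fun p p' h => (nd_inj h).2)
          (fun p p' h => RS_right o h)
        have hset : (fun q => nd o q) '' E j = TT 0 j := by
          ext s
          constructor
          · rintro ⟨p, hp, rfl⟩
            exact ⟨o, p, rfl, rfl, hp⟩
          · rintro ⟨p, q, rfl, hp, hq⟩
            rw [psz_eq_zero hp]
            exact ⟨q, hq, rfl⟩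
        rw [hset] at G
        apply G.mono
        rintro e (⟨h1, _⟩ | ⟨_, _, e', he', p, hp, _, rfl⟩ | ⟨h1, _⟩)
        · omega
        · rw [psz_eq_zero hp]
          exact ⟨e', he', rfl⟩
        · omega
      · obtain ⟨e0, he0, G⟩ := HC.prod RS_symm (Hj hj) (r_mem_K j) (rp_mem_K j) (r_ne_rp j hj)
          (fun q p => nd p q) (fun a q a' q' h => (nd_inj h).symm)
          (fun q a b h => RS_right q h) q0 l hn (hc.imp (fun q q' h a => RS_left a h))
        have hset : {s | ∃ a ∈ E j, ∃ q ∈ q0 :: l, s = nd q a} = TT i j := by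
          ext s
          constructor
          · rintro ⟨q, hq, p, hp, rfl⟩
            exact ⟨p, q, rfl, (hm p).1 hp, hq⟩
          · rintro ⟨p, q, rfl, hp, hq⟩
            exact ⟨q, hq, p, (hm p).2 hp, rfl⟩
        rw [hset] at G
        apply G.mono
        rintro e (⟨h1, _⟩ | ⟨_, _, e', he', p, hp, h3, rfl⟩ | ⟨_, h1, _⟩)
        · omega
        · rcases h3 with h3 | h3
          · exact absurd h3 hi0
          · exact Or.inl ⟨e', he', h3.1, h3.2, p, (hm p).2 hp, rfl⟩
        · omega
    · have hi1 : i = 1 := by omega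
      have hj1 : j = 1 := by omega
      subst hi1; subst hj1
      refine ⟨[nd x x, nd x y, nd y y, nd y x], nd x x, nd y x, ⟨?_, ?_, rfl, rfl⟩, ?_, ?_, ?_⟩
      · decide
      · simp only [List.isChain_cons_cons, List.isChain_singleton, and_true]
        exact ⟨RS_right x R_xy, RS_left y R_xy, RS_right y (R_symm _ _ R_xy)⟩
      · exact RS_left x (R_symm _ _ R_xy)
      · intro s
        simp only [List.mem_cons, List.not_mem_nil, or_false]
        constructor
        · rintro (rfl | rfl | rfl | rfl) <;> exact ⟨_, _, rfl, rfl, rfl⟩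
        · rintro ⟨p, q, rfl, hp, hq⟩
          rcases psz_eq_one hp with rfl | rfl <;> rcases psz_eq_one hq with rfl | rfl <;> simp
      · rintro e (⟨h1, _⟩ | ⟨_, h1, _⟩ | ⟨_, _, p, rfl⟩)
        · omega
        · omega
        · cases p
          · left
            show s(nd x x, nd y x) = s(nd y x, nd x x)
            exact Sym2.eq_swap
          · right
            show s(nd x y, nd y y) ∈ _
            simp [pedges]

end Pool.Agent.Lib.MP_7ee132_co
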