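import Pool.Agent.Lib.MP_7ee132_co.Cyc

set_option autoImplicit false
set_option linter.unusedSimpArgs false
set_option linter.unusedVariables false

namespace Pool.Agent.Lib.MP_7ee132_co

/-- Quaternary trees. -/
inductive T : Type
  | leaf : T
  | node : T → T → T → T → T
deriving DecidableEq

/-- Pairs of quaternary trees. -/
abbrev P : Type := T × T

open T

/-- The number of inner nodes. -/
def T.size : T → ℕ
  | leaf => 0
  | node a b c d => a.size + b.size + c.size + d.size + 1

@[simp] theorem size_leaf : T.size leaf = 0 := rfl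
@[simp] theorem size_node (a b c d : T) :
    T.size (node a b c d) = a.size + b.size + c.size + d.size + 1 := rfl

/-- The total number of nodes of a pair. -/
def psz (p : P) : ℕ := p.1.size + p.2.size

/-- A node whose children are the entries of two pairs. -/
def nd (p q : P) : T := node p.1 p.2 q.1 q.2

@[simp] theorem size_nd (p q : P) : (nd p q).size = psz p + psz q + 1 := by
  simp only [nd, size_node, psz]; omega

theorem nd_inj {p q p' q' : P} (h : nd p q = nd p' q') : p = p' ∧ q = q' := by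
  simp only [nd, node.injEq] at h
  exact ⟨Prod.ext h.1 h.2.1, Prod.ext h.2.2.1 h.2.2.2⟩

/-- The elementary moves. -/
inductive Step : P → P → Prop
  | root (a b c d e : T) : Step (node a b c d, e) (a, node b c d e)
  | l1 {a b a' b' : T} (c d t : T) (h : Step (a, b) (a', b')) :
      Step (node a b c d, t) (node a' b' c d, t)
  | l2 (a b : T) {c d c' d' : T} (t : T) (h : Step (c, d) (c', d')) :
      Step (node a b c d, t) (node a b c' d', t)
  | r1 (s : T) {a b a' b' : T} (c d : T) (h : Step (a, b) (a', b')) :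
      Step (s, node a b c d) (s, node a' b' c d)
  | r2 (s a b : T) {c d c' d' : T} (h : Step (c, d) (c', d')) :
      Step (s, node a b c d) (s, node a b c' d')

/-- Two pairs are related by a move. -/
def R (p q : P) : Prop := Step p q ∨ Step q p

theorem R_symm (p q : P) (h : R p q) : R q p := h.symm

theorem Step.psz_eq {p q : P} (h : Step p q) : psz p = psz q := by
  induction h with
  | root a b c d e => simp only [psz, size_node]; omega
  | l1 c d t h ih => simp only [psz, size_node] at ih ⊢; omega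
  | l2 a b t h ih => simp only [psz, size_node] at ih ⊢; omega
  | r1 s c d h ih => simp only [psz, size_node] at ih ⊢; omega
  | r2 s a b h ih => simp only [psz, size_node] at ih ⊢; omega

theorem R.psz_eq {p q : P} (h : R p q) : psz p = psz q := by
  rcases h with h | h
  · exact h.psz_eq
  · exact h.psz_eq.symm

/-- Moves inside a tree. -/
def RS (s s' : T) : Prop :=
  (∃ p p' q : P, s = nd p q ∧ s' = nd p' q ∧ R p p') ∨
    (∃ p q q' : P, s = nd p q ∧ s' = nd p q' ∧ R q q')

theorem RS_symm (s s' : T) (h : RS s s') : RS s' s := by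
  rcases h with ⟨p, p', q, h1, h2, h3⟩ | ⟨p, q, q', h1, h2, h3⟩
  · exact Or.inl ⟨p', p, q, h2, h1, h3.symm⟩
  · exact Or.inr ⟨p, q', q, h2, h1, h3.symm⟩

theorem RS_left {p p' : P} (q : P) (h : R p p') : RS (nd p q) (nd p' q) :=
  Or.inl ⟨p, p', q, rfl, rfl, h⟩

theorem RS_right (p : P) {q q' : P} (h : R q q') : RS (nd p q) (nd p q') :=
  Or.inr ⟨p, q, q', rfl, rfl, h⟩

theorem RS.first {s s' : T} (h : RS s s') (t : T) : R (s, t) (s', t) := by
  rcases h with ⟨p, p', q, rfl, rfl, h3 | h3⟩ | ⟨p, q, q', rfl, rfl, h3 | h3⟩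
  · exact Or.inl (Step.l1 _ _ _ h3)
  · exact Or.inr (Step.l1 _ _ _ h3)
  · exact Or.inl (Step.l2 _ _ _ h3)
  · exact Or.inr (Step.l2 _ _ _ h3)

theorem RS.second {s s' : T} (h : RS s s') (t : T) : R (t, s) (t, s') := by
  rcases h with ⟨p, p', q, rfl, rfl, h3 | h3⟩ | ⟨p, q, q', rfl, rfl, h3 | h3⟩
  · exact Or.inl (Step.r1 _ _ _ h3)
  · exact Or.inr (Step.r1 _ _ _ h3)
  · exact Or.inl (Step.r2 _ _ _ h3)
  · exact Or.inr (Step.r2 _ _ _ h3)

/-- The pairs with `n` nodes. -/
def E (n : ℕ) : Set P := {p | psz p = n}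

theorem mem_E {n : ℕ} {p : P} : p ∈ E n ↔ psz p = n := Iff.rfl

theorem finite_size_le (n : ℕ) : {s : T | s.size ≤ n}.Finite := by
  induction n with
  | zero =>
    apply (Set.finite_singleton leaf).subset
    intro s hs
    cases s with
    | leaf => exact rfl
    | node a b c d => simp at hs
  | succ n ih =>
    have h := (((ih.prod ih).prod (ih.prod ih)).image
      (fun x : (T × T) × (T × T) => node x.1.1 x.1.2 x.2.1 x.2.2)).union (Set.finite_singleton leaf)
    apply h.subset
    intro s hs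
    cases s with
    | leaf => exact Or.inr rfl
    | node a b c d =>
      left
      simp only [Set.mem_ofPred_eq, size_node] at hs
      refine ⟨((a, b), (c, d)), ⟨⟨?_, ?_⟩, ⟨?_, ?_⟩⟩, rfl⟩
      · show a.size ≤ n; omega
      · show b.size ≤ n; omega
      · show c.size ≤ n; omega
      · show d.size ≤ n; omega

theorem E_finite (n : ℕ) : (E n).Finite := by
  apply ((finite_size_le n).prod (finite_size_le n)).subset
  intro p hp
  have hp' : p.1.size + p.2.size = n := hp
  exact ⟨by show p.1.size ≤ n; omega, by show p.2.size ≤ n; omega⟩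

/-! ### Special trees and edges -/

/-- The pair of two leaves. -/
def o : P := (leaf, leaf)
/-- The tree with one node. -/
def nu : T := node leaf leaf leaf leaf
/-- The pair with one node, second entry. -/
def x : P := (leaf, nu)
/-- The pair with one node, first entry. -/
def y : P := (nu, leaf)

/-- The nine pairs with two nodes, in cyclic order. -/
def c : ℕ → P
  | 0 => (nu, nu)
  | 1 => (leaf, nd o x)
  | 2 => (leaf, nd o y)
  | 3 => (nd o x, leaf)
  | 4 => (nd o y, leaf)
  | 5 => (leaf, nd x o)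
  | 6 => (leaf, nd y o)
  | 7 => (nd x o, leaf)
  | _ => (nd y o, leaf)

/-- A tree with `m` nodes. -/
def t : ℕ → T
  | 0 => leaf
  | m + 1 => node leaf leaf leaf (t m)

@[simp] theorem size_t : ∀ m, (t m).size = m
  | 0 => rfl
  | m + 1 => by simp [t, size_t m]

/-- A pair with `m` nodes. -/
def Ps (m : ℕ) : P := (leaf, t m)

@[simp] theorem psz_Ps (m : ℕ) : psz (Ps m) = m := by simp [Ps, psz]

/-- Lifting an edge. -/
def lift (u v : P) (m : ℕ) : P × P := ((leaf, nd u (Ps m)), (leaf, nd v (Ps m)))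

/-- The first gluing edge. -/
def r : ℕ → P × P
  | 0 => (o, o)
  | 1 => (x, y)
  | 2 => (c 4, c 5)
  | m + 3 => lift (c 3) (c 4) m

/-- The second gluing edge. -/
def rp : ℕ → P × P
  | 0 => (o, o)
  | 1 => (x, y)
  | 2 => (c 8, c 0)
  | m + 3 => lift (c 0) (c 1) m

/-- Two reserve edges. -/
def h (p : Bool) : ℕ → P × P
  | 0 => (o, o)
  | 1 => (x, y)
  | 2 => bif p then (c 1, c 2) else (c 3, c 4)
  | m + 3 => bif p then lift (c 7) (c 8) m else lift (c 5) (c 6) m

/-- The special edge of trees. -/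
def bt (n : ℕ) : T × T := (nd (r (n - 1)).1 o, nd (r (n - 1)).2 o)

/-- Parity of the leftmost branch. -/
def parL : T → Bool
  | leaf => false
  | node a _ _ _ => !parL a

/-- Parity of the rightmost branch. -/
def parR : T → Bool
  | leaf => false
  | node _ _ _ d => !parR d

/-- The special edges of trees of a given type. -/
def ee (p : Bool) (i j : ℕ) : T × T :=
  if 2 ≤ i then (nd (h p i).1 (Ps j), nd (h p i).2 (Ps j))
  else if 2 ≤ j then (nd (Ps i) (h p j).1, nd (Ps i) (h p j).2)
  else bif p then (nd x y, nd y y) else (nd x x, nd y x)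

/-- The edge in the first entry. -/
def ef (e : T × T) (s : T) : Sym2 P := s((e.1, s), (e.2, s))

/-- The edge in the second entry. -/
def es (s : T) (e : T × T) : Sym2 P := s((s, e.1), (s, e.2))

/-- The unordered pair. -/
def sy {α : Type*} (e : α × α) : Sym2 α := s(e.1, e.2)

/-- The edges kept at level `n`. -/
def K (n : ℕ) : Set (Sym2 P) :=
  {e | e = ef (bt n) leaf ∨ e = es leaf (bt n) ∨ e = sy (r n) ∨ e = sy (rp n) ∨
    (∃ p, e = sy (h p n)) ∨
    (∃ (i j : ℕ) (w : T), 2 ≤ i + j ∧ i + j + 1 + w.size = n ∧ e = ef (ee (!parL w) i j) w) ∨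
    (∃ k l : ℕ, 2 ≤ k + l ∧ k + l + 1 = n ∧ e = es leaf (ee true k l)) ∨
    (∃ k l : ℕ, 2 ≤ k + l ∧ k + l + 2 = n ∧ e = es nu (ee false k l)) ∨
    (n = 2 ∧ e = s(c 0, c 1))}

/-- The trees of a given type. -/
def TT (i j : ℕ) : Set T := {s | ∃ p q : P, s = nd p q ∧ psz p = i ∧ psz q = j}

/-- The kept edges of trees of a given type. -/
def KS (i j : ℕ) : Set (Sym2 T) :=
  {e | (2 ≤ i ∧ ∃ e' ∈ K i, ∃ q : P, psz q = j ∧ (j = 0 ∨ (e' ≠ sy (r i) ∧ e' ≠ sy (rp i))) ∧
      e = Sym2.map (fun p => nd p q) e') ∨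
    (i ≤ 1 ∧ 2 ≤ j ∧ ∃ e' ∈ K j, ∃ p : P, psz p = i ∧
      (i = 0 ∨ (e' ≠ sy (r j) ∧ e' ≠ sy (rp j))) ∧ e = Sym2.map (fun q => nd p q) e') ∨
    (i = 1 ∧ j = 1 ∧ ∃ p, e = sy (ee p 1 1))}

theorem r_mem_K (n : ℕ) : sy (r n) ∈ K n := by simp [K]
theorem rp_mem_K (n : ℕ) : sy (rp n) ∈ K n := by simp [K]
theorem h_mem_K (p : Bool) (n : ℕ) : sy (h p n) ∈ K n :=
  Or.inr (Or.inr (Or.inr (Or.inr (Or.inl ⟨p, rfl⟩))))
theorem a_mem_K (n : ℕ) : ef (bt n) leaf ∈ K n := by simp [K]
theorem b_mem_K (n : ℕ) : es leaf (bt n) ∈ K n := by simp [K]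

theorem r_ne_rp (n : ℕ) (hn : 2 ≤ n) : sy (r n) ≠ sy (rp n) := by
  match n, hn with
  | 2, _ => decide
  | m + 3, _ =>
    intro hc
    simp only [sy, r, rp, lift, nd, c, o, x, y, nu, Ps, Sym2.eq_iff, Prod.mk.injEq,
      node.injEq, reduceCtorEq, and_false, false_and, and_true, true_and, or_false] at hc

end Pool.Agent.Lib.MP_7ee132_co
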