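import Pool.Agent.Lib.MP_7ee132_co.Poly

set_option autoImplicit false
set_option linter.unusedSimpArgs false
set_option linter.unusedVariables false

namespace Pool.Agent.Lib.MP_7ee132_co

open T

theorem len_eq_of_size {a b a' b' : T} (h : psz (a, b) = psz (a', b')) :
    len a + len b = len a' + len b' := by
  simp only [len, psz] at h ⊢; omega

/-- The frame of a node. -/
def frame (i m j : ℕ) : Finset (ℕ × ℕ) := {(i, j), (i, m), (m, j)}

theorem DQ_l1 (a b c d t : T) (i m : ℕ) (hm : i + len a + len b = m) :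
    DQ (node a b c d, t) i =
      (frame i m (m + len c + len d) ∪ DS c m ∪ DS d (m + len c) ∪ DS t (m + len c + len d)) ∪
        DQ (a, b) i := by
  subst hm
  ext ⟨p, q⟩
  have h1 : i + len (node a b c d) = i + len a + len b + len c + len d := by
    rw [len_node]; omega
  rw [mem_DQ, h1, mem_DS_node]
  simp only [frame, Finset.mem_union, Finset.mem_insert, Finset.mem_singleton, Prod.mk.injEq,
    mem_DQ]
  tauto

theorem DQ_l2 (a b c d t : T) (i m j : ℕ) (hm : i + len a + len b = m) (hj : m + len c + len d = j) :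
    DQ (node a b c d, t) i =
      (frame i m j ∪ DS a i ∪ DS b (i + len a) ∪ DS t j) ∪ DQ (c, d) m := by
  subst hm
  subst hj
  ext ⟨p, q⟩
  have h1 : i + len (node a b c d) = i + len a + len b + len c + len d := by
    rw [len_node]; omega
  rw [mem_DQ, h1, mem_DS_node]
  simp only [frame, Finset.mem_union, Finset.mem_insert, Finset.mem_singleton, Prod.mk.injEq,
    mem_DQ]
  tauto

theorem DQ_r1 (s a b c d : T) (i m : ℕ) (hm : i + len s + len a + len b = m) :
    DQ (s, node a b c d) i =
      (frame (i + len s) m (m + len c + len d) ∪ DS c m ∪ DS d (m + len c) ∪ DS s i) ∪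
        DQ (a, b) (i + len s) := by
  subst hm
  ext ⟨p, q⟩
  rw [mem_DQ, mem_DS_node]
  simp only [frame, Finset.mem_union, Finset.mem_insert, Finset.mem_singleton, Prod.mk.injEq,
    mem_DQ]
  tauto

theorem DQ_r2 (s a b c d : T) (i m j : ℕ) (hm : i + len s + len a + len b = m)
    (hj : m + len c + len d = j) :
    DQ (s, node a b c d) i =
      (frame (i + len s) m j ∪ DS a (i + len s) ∪ DS b (i + len s + len a) ∪ DS s i) ∪
        DQ (c, d) m := by
  subst hm
  subst hj
  ext ⟨p, q⟩
  rw [mem_DQ, mem_DS_node]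
  simp only [frame, Finset.mem_union, Finset.mem_insert, Finset.mem_singleton, Prod.mk.injEq,
    mem_DQ]
  tauto

theorem isEdge_top {N : ℕ} {D : Finset (ℕ × ℕ)} {t : T} {i j : ℕ} (hj : i + len t = j)
    (h1 : 1 ≤ i) (h2 : j ≤ N) (h : DS t i ⊆ D) : IsEdge N D (i, j) := by
  subst hj
  by_cases ht : t = leaf
  · subst ht
    left; left
    exact ⟨h1, rfl, h2⟩
  · right
    exact h (DS_top ht i)

/-- The part of a state that a root step does not touch. -/
def rest5 (a b c d e : T) (p0 p1 p2 p3 p4 : ℕ) : Finset (ℕ × ℕ) :=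
  DS a p0 ∪ DS b p1 ∪ DS c p2 ∪ DS d p3 ∪ DS e p4

theorem DQ_rootO (a b c d e : T) (p0 p1 p2 p3 p4 : ℕ) (h1 : p0 + len a = p1)
    (h2 : p1 + len b = p2) (h3 : p2 + len c = p3) (h4 : p3 + len d = p4) :
    DQ (node a b c d, e) p0 =
      rest5 a b c d e p0 p1 p2 p3 p4 ∪ {(p0, p2), (p2, p4), (p0, p4)} := by
  subst h1
  subst h2
  subst h3
  subst h4
  ext ⟨p, q⟩
  have h1 : p0 + len (node a b c d) = p0 + len a + len b + len c + len d := by
    rw [len_node]; omega
  rw [mem_DQ, h1, mem_DS_node]
  simp only [rest5, Finset.mem_union, Finset.mem_insert, Finset.mem_singleton, Prod.mk.injEq]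
  constructor
  · rintro ((((h | h | h) | h | h | h | h)) | h)
    · exact Or.inr (Or.inr (Or.inr h))
    · exact Or.inr (Or.inl h)
    · exact Or.inr (Or.inr (Or.inl h))
    · exact Or.inl (Or.inl (Or.inl (Or.inl (Or.inl h))))
    · exact Or.inl (Or.inl (Or.inl (Or.inl (Or.inr h))))
    · exact Or.inl (Or.inl (Or.inl (Or.inr h)))
    · exact Or.inl (Or.inl (Or.inr h))
    · exact Or.inl (Or.inr h)
  · rintro (((((h | h) | h) | h) | h) | h | h | h)
    · exact Or.inl (Or.inr (Or.inl h))
    · exact Or.inl (Or.inr (Or.inr (Or.inl h)))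
    · exact Or.inl (Or.inr (Or.inr (Or.inr (Or.inl h))))
    · exact Or.inl (Or.inr (Or.inr (Or.inr (Or.inr h))))
    · exact Or.inr h
    · exact Or.inl (Or.inl (Or.inr (Or.inl h)))
    · exact Or.inl (Or.inl (Or.inr (Or.inr h)))
    · exact Or.inl (Or.inl (Or.inl h))

theorem DQ_rootW (a b c d e : T) (p0 p1 p2 p3 p4 p5 : ℕ) (h1 : p0 + len a = p1)
    (h2 : p1 + len b = p2) (h3 : p2 + len c = p3) (h4 : p3 + len d = p4)
    (h5 : p4 + len e = p5) :
    DQ (a, node b c d e) p0 =
      rest5 a b c d e p0 p1 p2 p3 p4 ∪ {(p1, p3), (p3, p5), (p1, p5)} := by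
  subst h1
  subst h2
  subst h3
  subst h4
  subst h5
  ext ⟨p, q⟩
  rw [mem_DQ, mem_DS_node]
  simp only [rest5, Finset.mem_union, Finset.mem_insert, Finset.mem_singleton, Prod.mk.injEq]
  constructor
  · rintro (h | ((h | h | h) | h | h | h | h))
    · exact Or.inl (Or.inl (Or.inl (Or.inl (Or.inl h))))
    · exact Or.inr (Or.inr (Or.inr h))
    · exact Or.inr (Or.inl h)
    · exact Or.inr (Or.inr (Or.inl h))
    · exact Or.inl (Or.inl (Or.inl (Or.inl (Or.inr h))))
    · exact Or.inl (Or.inl (Or.inl (Or.inr h)))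
    · exact Or.inl (Or.inl (Or.inr h))
    · exact Or.inl (Or.inr h)
  · rintro (((((h | h) | h) | h) | h) | h | h | h)
    · exact Or.inl h
    · exact Or.inr (Or.inr (Or.inl h))
    · exact Or.inr (Or.inr (Or.inr (Or.inl h)))
    · exact Or.inr (Or.inr (Or.inr (Or.inr (Or.inl h))))
    · exact Or.inr (Or.inr (Or.inr (Or.inr (Or.inr h))))
    · exact Or.inr (Or.inl (Or.inr (Or.inl h)))
    · exact Or.inr (Or.inl (Or.inr (Or.inr h)))
    · exact Or.inr (Or.inl (Or.inl h))

theorem flip_eq {α : Type*} [DecidableEq α] {C R O W D D' : Finset α} (hD : D = C ∪ (R ∪ O))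
    (hD' : D' = C ∪ (R ∪ W)) (ho : ∀ x ∈ O, x ∉ D') : D' = (D \ O) ∪ W := by
  ext x
  have := ho x
  rw [hD'] at this ⊢
  rw [hD]
  simp only [Finset.mem_union, Finset.mem_sdiff] at this ⊢
  tauto

theorem rest5_sub (a b c d e : T) (p0 p1 p2 p3 p4 : ℕ) :
    DS a p0 ⊆ rest5 a b c d e p0 p1 p2 p3 p4 ∧ DS b p1 ⊆ rest5 a b c d e p0 p1 p2 p3 p4 ∧
    DS c p2 ⊆ rest5 a b c d e p0 p1 p2 p3 p4 ∧ DS d p3 ⊆ rest5 a b c d e p0 p1 p2 p3 p4 ∧
    DS e p4 ⊆ rest5 a b c d e p0 p1 p2 p3 p4 := by
  refine ⟨?_, ?_, ?_, ?_, ?_⟩ <;> intro x hx <;> simp only [rest5, Finset.mem_union] <;>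
    simp only [hx, true_or, or_true]

theorem root_twist (a b c d e : T) (p0 p1 p2 p3 p4 p5 N : ℕ) (C D D' : Finset (ℕ × ℕ))
    (h1 : p0 + len a = p1) (h2 : p1 + len b = p2) (h3 : p2 + len c = p3) (h4 : p3 + len d = p4)
    (h5 : p4 + len e = p5)
    (hD : D = C ∪ DQ (node a b c d, e) p0) (hD' : D' = C ∪ DQ (a, node b c d e) p0)
    (hnc : ∀ e ∈ D', ∀ f ∈ D', ¬ Cross e f) (htop : IsEdge N D (p0, p5)) (hi : 1 ≤ p0)
    (hN : p5 ≤ N) : Twist N D D' := by
  have la := len_pos a
  have lb := len_pos b
  have lc := len_pos c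
  have ld := len_pos d
  have le := len_pos e
  rw [DQ_rootO a b c d e p0 p1 p2 p3 p4 h1 h2 h3 h4] at hD
  rw [DQ_rootW a b c d e p0 p1 p2 p3 p4 p5 h1 h2 h3 h4 h5] at hD'
  obtain ⟨s1, s2, s3, s4, s5⟩ := rest5_sub a b c d e p0 p1 p2 p3 p4
  have hR : rest5 a b c d e p0 p1 p2 p3 p4 ⊆ D := by
    rw [hD]
    intro x hx
    exact Finset.mem_union_right _ (Finset.mem_union_left _ hx)
  have hO : ({(p0, p2), (p2, p4), (p0, p4)} : Finset (ℕ × ℕ)) ⊆ D := by
    rw [hD]
    intro x hx
    exact Finset.mem_union_right _ (Finset.mem_union_right _ hx)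
  have hW : ({(p1, p3), (p3, p5), (p1, p5)} : Finset (ℕ × ℕ)) ⊆ D' := by
    rw [hD']
    intro x hx
    exact Finset.mem_union_right _ (Finset.mem_union_right _ hx)
  refine ⟨p0, p1, p2, p3, p4, p5,
    ⟨⟨by omega, by omega, by omega, by omega, by omega⟩, ?_, ?_, ?_, ?_, ?_, htop⟩,
    Or.inl ⟨hO, ?_⟩⟩
  · exact isEdge_top h1 hi (by omega) (s1.trans hR)
  · exact isEdge_top h2 (by omega) (by omega) (s2.trans hR)
  · exact isEdge_top h3 (by omega) (by omega) (s3.trans hR)
  · exact isEdge_top h4 (by omega) (by omega) (s4.trans hR)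
  · exact isEdge_top h5 (by omega) (by omega) (s5.trans hR)
  · refine flip_eq hD hD' ?_
    have w1 : (p1, p3) ∈ D' := hW (by simp)
    have w2 : (p3, p5) ∈ D' := hW (by simp)
    have w3 : (p1, p5) ∈ D' := hW (by simp)
    rintro ⟨p, q⟩ hx h
    simp only [Finset.mem_insert, Finset.mem_singleton, Prod.mk.injEq] at hx
    rcases hx with ⟨rfl, rfl⟩ | ⟨rfl, rfl⟩ | ⟨rfl, rfl⟩
    · exact hnc _ h _ w1 (by simp only [Cross]; omega)
    · exact hnc _ h _ w2 (by simp only [Cross]; omega)
    · exact hnc _ h _ w3 (by simp only [Cross]; omega)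

theorem step_twist {v v' : P} (hst : Step v v') : ∀ (i N : ℕ) (C D D' : Finset (ℕ × ℕ)),
    D = C ∪ DQ v i → D' = C ∪ DQ v' i → (∀ e ∈ D', ∀ f ∈ D', ¬ Cross e f) →
    IsEdge N D (i, i + len v.1 + len v.2) → 1 ≤ i → i + len v.1 + len v.2 ≤ N → Twist N D D' := by
  induction hst with
  | root a b c d e =>
    intro i N C D D' hD hD' hnc htop hi hN
    have h1 : i + len (node a b c d) = i + len a + len b + len c + len d := by
      rw [len_node]; omega
    have htop' : IsEdge N D (i, i + len a + len b + len c + len d + len e) := by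
      have h2 : i + len (node a b c d) + len e = i + len a + len b + len c + len d + len e := by
        rw [h1]
      rw [← h2]
      exact htop
    have hN' : i + len a + len b + len c + len d + len e ≤ N := by
      have : i + len (node a b c d) + len e ≤ N := hN
      omega
    exact root_twist a b c d e i _ _ _ _ _ N C D D' rfl rfl rfl rfl rfl hD hD' hnc htop' hi hN'
  | @l1 a b a' b' c d t h ih =>
    intro i N C D D' hD hD' hnc htop hi hN
    have hl := len_eq_of_size h.psz_eq
    have h1 := len_node a b c d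
    have lt := len_pos t
    have hN' : i + len (node a b c d) + len t ≤ N := hN
    rw [DQ_l1 a b c d t i (i + len a + len b) rfl, ← Finset.union_assoc] at hD
    rw [DQ_l1 a' b' c d t i (i + len a + len b) (by omega), ← Finset.union_assoc] at hD'
    refine ih i N _ D D' hD hD' hnc ?_ hi ?_
    · right
      rw [hD]
      simp [frame]
    · show i + len a + len b ≤ N
      omega
  | @l2 a b c d c' d' t h ih =>
    intro i N C D D' hD hD' hnc htop hi hN
    have hl := len_eq_of_size h.psz_eq
    have h1 := len_node a b c d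
    have lt := len_pos t
    have hN' : i + len (node a b c d) + len t ≤ N := hN
    rw [DQ_l2 a b c d t i (i + len a + len b) (i + len a + len b + len c + len d) rfl rfl,
      ← Finset.union_assoc] at hD
    rw [DQ_l2 a b c' d' t i (i + len a + len b) (i + len a + len b + len c + len d) rfl
      (by omega), ← Finset.union_assoc] at hD'
    refine ih (i + len a + len b) N _ D D' hD hD' hnc ?_ (by omega) ?_
    · right
      rw [hD]
      simp [frame]
    · show i + len a + len b + len c + len d ≤ N
      omega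
  | @r1 s a b a' b' c d h ih =>
    intro i N C D D' hD hD' hnc htop hi hN
    have hl := len_eq_of_size h.psz_eq
    have h1 := len_node a b c d
    have hN' : i + len s + len (node a b c d) ≤ N := hN
    rw [DQ_r1 s a b c d i (i + len s + len a + len b) rfl, ← Finset.union_assoc] at hD
    rw [DQ_r1 s a' b' c d i (i + len s + len a + len b) (by omega), ← Finset.union_assoc] at hD'
    refine ih (i + len s) N _ D D' hD hD' hnc ?_ (by omega) ?_
    · right
      rw [hD]
      simp [frame]
    · show i + len s + len a + len b ≤ N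
      omega
  | @r2 s a b c d c' d' h ih =>
    intro i N C D D' hD hD' hnc htop hi hN
    have hl := len_eq_of_size h.psz_eq
    have h1 := len_node a b c d
    have hN' : i + len s + len (node a b c d) ≤ N := hN
    rw [DQ_r2 s a b c d i (i + len s + len a + len b) (i + len s + len a + len b + len c + len d)
      rfl rfl, ← Finset.union_assoc] at hD
    rw [DQ_r2 s a b c' d' i (i + len s + len a + len b)
      (i + len s + len a + len b + len c + len d) rfl (by omega), ← Finset.union_assoc] at hD'
    refine ih (i + len s + len a + len b) N _ D D' hD hD' hnc ?_ (by omega) ?_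
    · right
      rw [hD]
      simp [frame]
    · show i + len s + len a + len b + len c + len d ≤ N
      omega

theorem R_twist {v v' : P} {n : ℕ} (hv : psz v = n) (h : R v v') :
    Twist (3 * n + 3) (DQ v 1) (DQ v' 1) ∨ Twist (3 * n + 3) (DQ v' 1) (DQ v 1) := by
  have key : ∀ {v v' : P}, psz v = n → Step v v' → Twist (3 * n + 3) (DQ v 1) (DQ v' 1) := by
    intro v v' hv h
    have hlen : 1 + len v.1 + len v.2 = 3 * n + 3 := by
      simp only [len, psz] at hv ⊢; omega
    refine step_twist h 1 (3 * n + 3) ∅ _ _ (by simp) (by simp) (DQ_not_cross v' 1) ?_ (le_refl 1)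
      (by omega)
    left; right
    rw [hlen]
  rcases h with h | h
  · exact Or.inl (key hv h)
  · exact Or.inr (key (by rw [h.psz_eq]; exact hv) h)

/-! ### Uniqueness -/

/-- The edges below position `j` in a region. -/
theorem DS_restrict (a b c d : T) (i p q : ℕ) :
    ((p, q) ∈ DS (node a b c d) i ∧ i ≤ p ∧ q ≤ i + len a ↔ (p, q) ∈ DS a i) ∧
    ((p, q) ∈ DS (node a b c d) i ∧ i + len a ≤ p ∧ q ≤ i + len a + len b ↔
      (p, q) ∈ DS b (i + len a)) ∧
    ((p, q) ∈ DS (node a b c d) i ∧ i + len a + len b ≤ p ∧ q ≤ i + len a + len b + len c ↔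
      (p, q) ∈ DS c (i + len a + len b)) ∧
    ((p, q) ∈ DS (node a b c d) i ∧ i + len a + len b + len c ≤ p ∧
      q ≤ i + len a + len b + len c + len d ↔ (p, q) ∈ DS d (i + len a + len b + len c)) := by
  have la := len_pos a
  have lb := len_pos b
  have lc := len_pos c
  have ld := len_pos d
  have A := fun h => DS_range a i p q h
  have B := fun h => DS_range b (i + len a) p q h
  have C := fun h => DS_range c (i + len a + len b) p q h
  have D := fun h => DS_range d (i + len a + len b + len c) p q h
  rw [mem_DS_node]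
  refine ⟨?_, ?_, ?_, ?_⟩
  · constructor
    · rintro ⟨(h | h | h) | h | h | h | h, h1, h2⟩
      · omega
      · omega
      · omega
      · exact h
      · have := B h; omega
      · have := C h; omega
      · have := D h; omega
    · intro h
      have := A h
      exact ⟨Or.inr (Or.inl h), by omega, by omega⟩
  · constructor
    · rintro ⟨(h | h | h) | h | h | h | h, h1, h2⟩
      · omega
      · omega
      · omega
      · have := A h; omega
      · exact h
      · have := C h; omega
      · have := D h; omega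
    · intro h
      have := B h
      exact ⟨Or.inr (Or.inr (Or.inl h)), by omega, by omega⟩
  · constructor
    · rintro ⟨(h | h | h) | h | h | h | h, h1, h2⟩
      · omega
      · omega
      · omega
      · have := A h; omega
      · have := B h; omega
      · exact h
      · have := D h; omega
    · intro h
      have := C h
      exact ⟨Or.inr (Or.inr (Or.inr (Or.inl h))), by omega, by omega⟩
  · constructor
    · rintro ⟨(h | h | h) | h | h | h | h, h1, h2⟩
      · omega
      · omega
      · omega
      · have := A h; omega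
      · have := B h; omega
      · have := C h; omega
      · exact h
    · intro h
      have := D h
      exact ⟨Or.inr (Or.inr (Or.inr (Or.inr h))), by omega, by omega⟩

/-- `k` is an apex over `(i, j)`. -/
def Apex (D : Finset (ℕ × ℕ)) (i k j : ℕ) : Prop :=
  i < k ∧ k < j ∧ (i + 2 ≤ k → (i, k) ∈ D) ∧ (k + 2 ≤ j → (k, j) ∈ D)

theorem Apex.unique {D : Finset (ℕ × ℕ)} (hnc : ∀ e ∈ D, ∀ f ∈ D, ¬ Cross e f) {i k k' j : ℕ}
    (h : Apex D i k j) (h' : Apex D i k' j) : k = k' := by
  obtain ⟨h1, h2, h3, h4⟩ := h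
  obtain ⟨h1', h2', h3', h4'⟩ := h'
  rcases lt_trichotomy k k' with hlt | rfl | hlt
  · exact absurd (by simp only [Cross]; omega) (hnc _ (h3' (by omega)) _ (h4 (by omega)))
  · rfl
  · exact absurd (by simp only [Cross]; omega) (hnc _ (h3 (by omega)) _ (h4' (by omega)))

theorem apex_node (a b c d : T) (i : ℕ) :
    Apex (DS (node a b c d) i) i (i + len a + len b) (i + len a + len b + len c + len d) ∧
    Apex (DS (node a b c d) i) i (i + len a) (i + len a + len b) ∧
    Apex (DS (node a b c d) i) (i + len a + len b) (i + len a + len b + len c)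
      (i + len a + len b + len c + len d) := by
  have la := len_pos a
  have lb := len_pos b
  have lc := len_pos c
  have ld := len_pos d
  refine ⟨⟨by omega, by omega, ?_, ?_⟩, ⟨by omega, by omega, ?_, ?_⟩,
    ⟨by omega, by omega, ?_, ?_⟩⟩
  · intro _; rw [mem_DS_node]; tauto
  · intro _; rw [mem_DS_node]; tauto
  · intro h
    have := DS_top' (t := a) i (by omega)
    rw [mem_DS_node]; tauto
  · intro h
    have := DS_top' (t := b) (i + len a) (by omega)
    rw [mem_DS_node]; tauto
  · intro h
    have := DS_top' (t := c) (i + len a + len b) (by omega)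
    rw [mem_DS_node]; tauto
  · intro h
    have := DS_top' (t := d) (i + len a + len b + len c) (by omega)
    rw [mem_DS_node]; tauto

theorem DS_nc (t : T) (i : ℕ) : ∀ e ∈ DS t i, ∀ f ∈ DS t i, ¬ Cross e f :=
  fun ⟨p, q⟩ h ⟨p', q'⟩ h' => DS_not_cross t i p q p' q' h h'

theorem DS_inj : ∀ (t t' : T) (i : ℕ), len t = len t' → DS t i = DS t' i → t = t' := by
  intro t
  induction t with
  | leaf =>
    intro t' i hl h
    exact (eq_leaf_of_len hl.symm).symm
  | node a b c d iha ihb ihc ihd =>
    intro t' i hl h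
    cases t' with
    | leaf => exact eq_leaf_of_len hl
    | node a' b' c' d' =>
      rw [len_node, len_node] at hl
      obtain ⟨x1, x2, x3⟩ := apex_node a b c d i
      obtain ⟨y1, y2, y3⟩ := apex_node a' b' c' d' i
      rw [← h] at y1 y2 y3
      have nc := DS_nc (node a b c d) i
      have e1 : i + len a + len b + len c + len d = i + len a' + len b' + len c' + len d' := by
        omega
      rw [← e1] at y1 y3
      have e2 := x1.unique nc y1
      rw [← e2] at y2 y3
      have e3 := x2.unique nc y2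
      have e4 := x3.unique nc y3
      have la : len a = len a' := by omega
      have lb : len b = len b' := by omega
      have lc : len c = len c' := by omega
      have ld : len d = len d' := by omega
      have ha : DS a i = DS a' i := by
        ext ⟨p, q⟩
        rw [← (DS_restrict a b c d i p q).1, ← (DS_restrict a' b' c' d' i p q).1, h, la]
      have hb : DS b (i + len a) = DS b' (i + len a) := by
        ext ⟨p, q⟩
        have r1 := (DS_restrict a b c d i p q).2.1
        have r2 := (DS_restrict a' b' c' d' i p q).2.1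
        rw [← la, ← lb, ← h] at r2
        rw [← r1, ← r2]
      have hc : DS c (i + len a + len b) = DS c' (i + len a + len b) := by
        ext ⟨p, q⟩
        have r1 := (DS_restrict a b c d i p q).2.2.1
        have r2 := (DS_restrict a' b' c' d' i p q).2.2.1
        rw [← la, ← lb, ← lc, ← h] at r2
        rw [← r1, ← r2]
      have hd : DS d (i + len a + len b + len c) = DS d' (i + len a + len b + len c) := by
        ext ⟨p, q⟩
        have r1 := (DS_restrict a b c d i p q).2.2.2
        have r2 := (DS_restrict a' b' c' d' i p q).2.2.2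
        rw [← la, ← lb, ← lc, ← ld, ← h] at r2
        rw [← r1, ← r2]
      rw [iha a' i la ha, ihb b' _ lb hb, ihc c' _ lc hc, ihd d' _ ld hd]

theorem DQ_inj {v v' : P} {i : ℕ} (hl : psz v = psz v') (h : DQ v i = DQ v' i) : v = v' := by
  have l1 := len_pos v.1
  have l2 := len_pos v.2
  have l1' := len_pos v'.1
  have l2' := len_pos v'.2
  have hlen : len v.1 + len v.2 = len v'.1 + len v'.2 := by
    simp only [len, psz] at hl ⊢; omega
  have ap : ∀ v : P, Apex (DQ v i) i (i + len v.1) (i + len v.1 + len v.2) := by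
    intro v
    have l1 := len_pos v.1
    have l2 := len_pos v.2
    refine ⟨by omega, by omega, ?_, ?_⟩
    · intro h
      exact (mem_DQ _ _ _).2 (Or.inl (DS_top' i (by omega)))
    · intro h
      exact (mem_DQ _ _ _).2 (Or.inr (DS_top' (i + len v.1) (by omega)))
  have a1 := ap v
  have a2 := ap v'
  rw [← h] at a2
  have e1 : i + len v'.1 + len v'.2 = i + len v.1 + len v.2 := by omega
  rw [e1] at a2
  have e2 := a1.unique (DQ_not_cross v i) a2
  have f1 : len v.1 = len v'.1 := by omega
  have f2 : len v.2 = len v'.2 := by omega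
  have res : ∀ v : P, ∀ p q, ((p, q) ∈ DQ v i ∧ q ≤ i + len v.1 ↔ (p, q) ∈ DS v.1 i) ∧
      ((p, q) ∈ DQ v i ∧ i + len v.1 ≤ p ↔ (p, q) ∈ DS v.2 (i + len v.1)) := by
    intro v p q
    have A := fun h => DS_range v.1 i p q h
    have B := fun h => DS_range v.2 (i + len v.1) p q h
    rw [mem_DQ]
    constructor
    · constructor
      · rintro ⟨h | h, h'⟩
        · exact h
        · have := B h; omega
      · intro h
        have := A h
        exact ⟨Or.inl h, by omega⟩
    · constructor
      · rintro ⟨h | h, h'⟩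
        · have := A h; omega
        · exact h
      · intro h
        have := B h
        exact ⟨Or.inr h, by omega⟩
  have g1 : DS v.1 i = DS v'.1 i := by
    ext ⟨p, q⟩
    rw [← (res v p q).1, ← (res v' p q).1, h, f1]
  have g2 : DS v.2 (i + len v.1) = DS v'.2 (i + len v.1) := by
    ext ⟨p, q⟩
    have r1 := (res v p q).2
    have r2 := (res v' p q).2
    rw [← h, ← f1] at r2
    rw [← r1, ← r2]
  exact Prod.ext (DS_inj _ _ _ f1 g1) (DS_inj _ _ _ f2 g2)

/-! ### Existence -/

theorem exists_apex {N : ℕ} {D : Finset (ℕ × ℕ)} (hT : IsTriangulation N D) {i j : ℕ}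
    (hi : 1 ≤ i) (hij : i + 2 ≤ j) (hj : j ≤ N) (he : (i, j) ∈ D ∨ (i, j) = (1, N)) :
    ∃ k, Apex D i k j := by
  classical
  -- no element of `D` crosses `(i, j)`
  have hnc : ∀ f ∈ D, ¬ Cross (i, j) f := by
    intro f hf
    rcases he with he | he
    · exact hT.not_cross _ he _ hf
    · rw [Prod.mk.injEq] at he
      have := hT.isDiagonal f hf
      obtain ⟨h1, h2, h3, h4⟩ := this
      simp only [Cross]
      omega
  let S : Finset ℕ := (Finset.Ioo i j).filter (fun k => k = i + 1 ∨ (i, k) ∈ D)
  have hS : S.Nonempty := by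
    refine ⟨i + 1, Finset.mem_filter.2 ⟨Finset.mem_Ioo.2 ⟨by omega, by omega⟩, ?_⟩⟩
    left
    trivial
  let k := S.max' hS
  have hk : k ∈ S := S.max'_mem hS
  have hmax : ∀ m ∈ S, m ≤ k := fun m hm => S.le_max' m hm
  have hk' := hk
  simp only [S, Finset.mem_filter, Finset.mem_Ioo] at hk'
  obtain ⟨⟨h1, h2⟩, h3⟩ := hk'
  refine ⟨k, h1, h2, ?_, ?_⟩
  · intro h
    rcases h3 with h3 | h3
    · omega
    · exact h3
  · intro h
    apply hT.maximal
    · refine ⟨by simp; omega, h, hj, ?_⟩
      intro hc
      rw [Prod.mk.injEq] at hc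
      omega
    · rintro ⟨p, q⟩ hf hc
      have hd := hT.isDiagonal _ hf
      obtain ⟨d1, d2, d3, d4⟩ := hd
      have n1 := hnc _ hf
      simp only [Cross] at n1 hc
      simp only at d1 d2 d3
      rcases hc with hc | hc
      · omega
      · -- `p < k < q < j`
        have hpi : i ≤ p := by omega
        rcases Nat.lt_or_ge i p with hip | hip
        · rcases h3 with h3 | h3
          · omega
          · have := hT.not_cross _ h3 _ hf
            simp only [Cross] at this
            omega
        · have : p = i := by omega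
          subst this
          have hq : q ∈ S := by
            simp only [S, Finset.mem_filter, Finset.mem_Ioo]
            exact ⟨⟨by omega, by omega⟩, Or.inr hf⟩
          have := hmax q hq
          omega

/-- The part of `D` in `[i, j]`, without `(i, j)`. -/
def inside (D : Finset (ℕ × ℕ)) (i j : ℕ) (e : ℕ × ℕ) : Prop :=
  e ∈ D ∧ i ≤ e.1 ∧ e.2 ≤ j ∧ ¬ (e.1 = i ∧ e.2 = j)

theorem inside_split {N : ℕ} {D : Finset (ℕ × ℕ)} (hT : IsTriangulation N D) {i k j : ℕ}
    (h : Apex D i k j) (e : ℕ × ℕ) : inside D i j e ↔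
      (e ∈ D ∧ i ≤ e.1 ∧ e.2 ≤ k) ∨ (e ∈ D ∧ k ≤ e.1 ∧ e.2 ≤ j) := by
  obtain ⟨h1, h2, h3, h4⟩ := h
  constructor
  · rintro ⟨g1, g2, g3, g4⟩
    by_cases c1 : e.2 ≤ k
    · exact Or.inl ⟨g1, g2, c1⟩
    · by_cases c2 : k ≤ e.1
      · exact Or.inr ⟨g1, c2, g3⟩
      · exfalso
        by_cases c3 : e.1 = i
        · have := hT.not_cross _ g1 _ (h4 (by omega))
          simp only [Cross] at this
          omega
        · have := hT.not_cross _ g1 _ (h3 (by omega))
          simp only [Cross] at this
          omega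
  · rintro (⟨g1, g2, g3⟩ | ⟨g1, g2, g3⟩)
    · exact ⟨g1, g2, by omega, by omega⟩
    · exact ⟨g1, by omega, g3, by omega⟩

theorem exists_tree {N : ℕ} {D : Finset (ℕ × ℕ)} (hN : N % 3 = 0) (hc : IsColorful N D) :
    ∀ (m i j : ℕ), j - i = m → 1 ≤ i → j ≤ N → i < j →
      (((j - i) % 3 = 1 → ((i, j) ∈ D ∨ j = i + 1) → ∃ t : T, i + len t = j ∧
        ∀ e, e ∈ DS t i ↔ e ∈ D ∧ i ≤ e.1 ∧ e.2 ≤ j) ∧
      ((j - i) % 3 = 2 → ((i, j) ∈ D ∨ (i, j) = (1, N)) → ∃ v : P, i + len v.1 + len v.2 = j ∧
        ∀ e, e ∈ DQ v i ↔ inside D i j e)) := by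
  obtain ⟨hT, hcol⟩ := hc
  have hlarge : ∀ e ∈ D, e.1 + 2 ≤ e.2 := fun e he => (hT.isDiagonal e he).2.1
  -- colours at an apex
  have hapex : ∀ i k j, 1 ≤ i → j ≤ N → ((i, j) ∈ D ∨ (i, j) = (1, N)) → Apex D i k j →
      i % 3 ≠ k % 3 ∧ k % 3 ≠ j % 3 ∧ i % 3 ≠ j % 3 := by
    intro i k j hi hj he ha
    obtain ⟨h1, h2, h3, h4⟩ := ha
    apply hcol
    refine ⟨h1, h2, ?_, ?_, ?_⟩
    · by_cases c : i + 2 ≤ k
      · exact Or.inr (h3 c)
      · left; left
        exact ⟨hi, by simp; omega, by simp; omega⟩
    · by_cases c : k + 2 ≤ j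
      · exact Or.inr (h4 c)
      · left; left
        exact ⟨by simp; omega, by simp; omega, hj⟩
    · rcases he with he | he
      · exact Or.inr he
      · exact Or.inl (Or.inr he)
  intro m
  induction m using Nat.strong_induction_on with
  | _ m ih =>
    intro i j hm hi hj hij
    constructor
    · intro hmod he
      by_cases h1 : j = i + 1
      · refine ⟨leaf, by rw [len_leaf]; omega, ?_⟩
        intro e
        constructor
        · intro h; simp [DS] at h
        · rintro ⟨g1, g2, g3⟩
          have := hlarge e g1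
          omega
      · have he' : (i, j) ∈ D := by
          rcases he with he | he
          · exact he
          · exact absurd he h1
        obtain ⟨k, hk⟩ := exists_apex hT hi (by omega) hj (Or.inl he')
        have hcl := hapex i k j hi hj (Or.inl he') hk
        have hk' := hk
        obtain ⟨a1, a2, a3, a4⟩ := hk'
        have m1 : (k - i) % 3 = 2 := by omega
        have m2 : (j - k) % 3 = 2 := by omega
        obtain ⟨u, hu, hu'⟩ := (ih (k - i) (by omega) i k rfl hi (by omega) a1).2 m1
          (Or.inl (a3 (by omega)))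
        obtain ⟨w, hw, hw'⟩ := (ih (j - k) (by omega) k j rfl (by omega) hj a2).2 m2
          (Or.inl (a4 (by omega)))
        refine ⟨nd u w, ?_, ?_⟩
        · show i + len (node u.1 u.2 w.1 w.2) = j
          rw [len_node]; omega
        · rintro ⟨p, q⟩
          show (p, q) ∈ DS (node u.1 u.2 w.1 w.2) i ↔ _
          have su := hu' (p, q)
          have sw := hw' (p, q)
          rw [mem_DQ] at su sw
          have e1 : i + len u.1 + len u.2 + len w.1 + len w.2 = j := by omega
          rw [mem_DS_node, e1, hu]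
          have sp := inside_split hT hk (p, q)
          simp only [inside] at su sw sp
          constructor
          · rintro ((⟨rfl, rfl⟩ | ⟨rfl, rfl⟩ | ⟨rfl, rfl⟩) | h | h | h | h)
            · exact ⟨he', le_refl _, le_refl _⟩
            · exact ⟨a3 (by omega), le_refl _, by simp; omega⟩
            · exact ⟨a4 (by omega), by simp; omega, le_refl _⟩
            · have := su.1 (Or.inl h); exact ⟨this.1, this.2.1, by omega⟩
            · have := su.1 (Or.inr h); exact ⟨this.1, this.2.1, by omega⟩
            · have := sw.1 (Or.inl h); exact ⟨this.1, by omega, this.2.2.1⟩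
            · have := sw.1 (Or.inr h); exact ⟨this.1, by omega, this.2.2.1⟩
          · rintro ⟨g1, g2, g3⟩
            by_cases c0 : p = i ∧ q = j
            · exact Or.inl (Or.inl c0)
            · rcases sp.1 ⟨g1, g2, g3, c0⟩ with ⟨b1, b2, b3⟩ | ⟨b1, b2, b3⟩
              · by_cases c1 : p = i ∧ q = k
                · exact Or.inl (Or.inr (Or.inl c1))
                · rcases su.2 ⟨b1, b2, b3, c1⟩ with h | h
                  · exact Or.inr (Or.inl h)
                  · exact Or.inr (Or.inr (Or.inl h))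
              · by_cases c1 : p = k ∧ q = j
                · exact Or.inl (Or.inr (Or.inr c1))
                · rcases sw.2 ⟨b1, b2, b3, c1⟩ with h | h
                  · exact Or.inr (Or.inr (Or.inr (Or.inl h)))
                  · exact Or.inr (Or.inr (Or.inr (Or.inr h)))
    · intro hmod he
      obtain ⟨k, hk⟩ := exists_apex hT hi (by omega) hj he
      have hcl := hapex i k j hi hj he hk
      have hk' := hk
      obtain ⟨a1, a2, a3, a4⟩ := hk'
      have m1 : (k - i) % 3 = 1 := by omega
      have m2 : (j - k) % 3 = 1 := by omega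
      obtain ⟨s, hs, hs'⟩ := (ih (k - i) (by omega) i k rfl hi (by omega) a1).1 m1 (by
        by_cases c : i + 2 ≤ k
        · exact Or.inl (a3 c)
        · right; omega)
      obtain ⟨w, hw, hw'⟩ := (ih (j - k) (by omega) k j rfl (by omega) hj a2).1 m2 (by
        by_cases c : k + 2 ≤ j
        · exact Or.inl (a4 c)
        · right; omega)
      refine ⟨(s, w), by show i + len s + len w = j; omega, ?_⟩
      intro e
      rw [mem_DQ, inside_split hT hk e]
      show e ∈ DS s i ∨ e ∈ DS w (i + len s) ↔ _
      rw [hs, hs' e, hw' e]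

theorem exists_pair {n : ℕ} {D : Finset (ℕ × ℕ)} (hc : IsColorful (3 * n + 3) D) :
    ∃ v : P, psz v = n ∧ DQ v 1 = D := by
  obtain ⟨v, hv, hv'⟩ := (exists_tree (by omega) hc (3 * n + 2) 1 (3 * n + 3) (by omega)
    (le_refl 1) (le_refl _) (by omega)).2 (by omega) (Or.inr rfl)
  refine ⟨v, ?_, ?_⟩
  · simp only [len, psz] at hv ⊢; omega
  · ext e
    rw [hv' e]
    constructor
    · exact fun h => h.1
    · intro h
      have hd := hc.1.isDiagonal e h
      refine ⟨h, hd.1, hd.2.2.1, ?_⟩
      rintro ⟨h1, h2⟩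
      exact hd.2.2.2 (Prod.ext h1 h2)

end Pool.Agent.Lib.MP_7ee132_co
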